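import Pool.Agent.Helper30.N9.Tiling2
import Pool.Agent.Helper30.N9.Sheet

/-! MP_9b91d1_co, section 6 (degenerate supports), first sheet: general rows (helper24). -/

open scoped RealInnerProductSpace Topology

namespace Pool.Agent.Helper30.N9

namespace PlaneGraph

variable {V : Type} [Fintype V] [DecidableEq V] (M : PlaneGraph V)

/-- Equilibrium at v. -/
def EqAt (p : V → E3) (om : M.G.Dart → ℝ) (v : V) : Prop :=
  ∑ d ∈ Finset.univ.filter (fun d : M.G.Dart => d.fst = v), om d • crs (p d.fst) (p d.snd) = 0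

/-- Nonnegative symmetric weights. -/
structure Wt (om : M.G.Dart → ℝ) : Prop where
  nonneg : ∀ d, 0 ≤ om d
  symm : ∀ d, om d.symm = om d

/-- Boundary dart of a set of faces. -/
def Bd (T : M.Face → Prop) (d : M.G.Dart) : Prop := T (M.fc d) ∧ ¬ T (M.fc d.symm)

/-- Inner dart of a set of faces. -/
def InD (T : M.Face → Prop) (d : M.G.Dart) : Prop := T (M.fc d) ∧ T (M.fc d.symm)

/-- Inner vertex of a set of faces. -/
def InV (T : M.Face → Prop) (v : V) : Prop := ∀ d : M.G.Dart, d.fst = v → T (M.fc d)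

/-- z is covered by a face of T. -/
def Cov (q : V → E3) (h : M.Face → E3) (T : M.Face → Prop) (z : E3) : Prop :=
  ‖z‖ = 1 ∧ M.OffAll q z ∧ ∃ w, T w ∧ M.FW q h w z = 1

/-- T covers a neighbourhood of m. -/
def CovN (q : V → E3) (h : M.Face → E3) (T : M.Face → Prop) (m : E3) : Prop :=
  ∃ δ > 0, ∀ y ∈ Metric.ball m δ, y ≠ 0 ∧ (M.OffAll q (nrm y) → M.Cov q h T (nrm y))

/-- Standing assumptions. -/
structure Std (q : V → E3) (h : M.Face → E3) : Prop where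
  c3 : M.Conn3
  per : M.Peripheral
  inc : M.InC q
  cen : M.Cen q h

/-- T is convex: every vertex of T is to the left of every boundary dart. -/
def Cvx (p : V → E3) (T : M.Face → Prop) : Prop :=
  ∀ d e, M.Bd T d → T (M.fc e) → 0 ≤ det3 (p d.fst) (p d.snd) (p e.fst)

/-- The hypothesis on potentials of ST_LIFT. -/
def Pot (T : M.Face → Prop) : Prop :=
  ∀ u : V → ℝ, (∀ d : M.G.Dart, ¬ M.InD T d → u d.fst = u d.snd) →
    ∀ a b : M.G.Dart, ¬ T (M.fc a) → ¬ T (M.fc b) → u a.fst = u b.fst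

/-- v lies on a dart between T and its complement. -/
def OnB (T : M.Face → Prop) (v : V) : Prop := ∃ d : M.G.Dart, d.fst = v ∧ (M.Bd T d ∨ M.Bd T d.symm)

end PlaneGraph

/-- REG1: a set of faces which covers one point of a connected set that avoids its boundary darts
covers all its points off the drawing. (f z = const - (4 pi)^-1 sum over Bd T of
Om (-z) (q fst) (q snd) is continuous off the boundary arcs, equals the number of faces of T over z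
off the drawing, hence is 0 or 1 there, and the complement of the drawing is dense.) -/
def ST_REG1 : Prop :=
  ∀ (V : Type) [Fintype V] [DecidableEq V] (M : PlaneGraph V) (q : V → E3) (h : M.Face → E3),
    M.Std q h → ∀ (T : M.Face → Prop) (U : Set E3), IsPreconnected U → (∀ y ∈ U, y ≠ 0) →
    (∀ y ∈ U, ∀ d, M.Bd T d → nrm y ∉ arc (q d.fst) (q d.snd)) →
    ∀ y ∈ U, ∀ y' ∈ U, M.OffAll q (nrm y') → M.Cov q h T (nrm y) → M.Cov q h T (nrm y')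

/-- REG2: left side of an edge (edge_local, eventually_off_others). -/
def ST_REG2 : Prop :=
  ∀ (V : Type) [Fintype V] [DecidableEq V] (M : PlaneGraph V) (q : V → E3) (h : M.Face → E3),
    M.Std q h → ∀ (d : M.G.Dart) (x : E3), x ∈ arc (q d.fst) (q d.snd) → x ≠ q d.fst →
    x ≠ q d.snd → ∃ δ > 0, ∀ y ∈ Metric.ball x δ, y ≠ 0 ∧
      (0 < det3 (q d.fst) (q d.snd) y → M.Cov q h (fun w => w = M.fc d) (nrm y))

/-- REG3: uniqueness and existence of the covering face. -/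
def ST_REG3 : Prop :=
  ∀ (V : Type) [Fintype V] [DecidableEq V] (M : PlaneGraph V) (q : V → E3) (h : M.Face → E3),
    M.Std q h → (∀ (T T' : M.Face → Prop) (z : E3), M.Cov q h T z → M.Cov q h T' z →
      ∃ w, T w ∧ T' w ∧ M.Cov q h (fun w' => w' = w) z) ∧
    (∀ z : E3, ‖z‖ = 1 → M.OffAll q z → ∃ w, M.Cov q h (fun w' => w' = w) z)

/-- REG4: generic points are dense. -/
def ST_REG4 : Prop :=
  ∀ (V : Type) [Fintype V] [DecidableEq V] (M : PlaneGraph V) (q : V → E3), M.InC q →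
    ∀ (S : Finset E3), (∀ n ∈ S, n ≠ 0) → ∀ O : Set E3, IsOpen O → O.Nonempty →
    ∃ y ∈ O, y ≠ 0 ∧ M.OffAll q (nrm y) ∧ ∀ n ∈ S, ⟪n, y⟫ ≠ 0

/-- FCV: every face covers a generic point. -/
def ST_FCV : Prop :=
  ∀ (V : Type) [Fintype V] [DecidableEq V] (M : PlaneGraph V) (q : V → E3) (h : M.Face → E3),
    M.Std q h → ∀ (w : M.Face) (S : Finset E3), (∀ n ∈ S, n ≠ 0) →
    ∃ z, M.Cov q h (fun w' => w' = w) z ∧ ∀ n ∈ S, ⟪n, z⟫ ≠ 0

/-- VCL: a vertex of a face is in the closure of the set covered by it. -/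
def ST_VCL : Prop :=
  ∀ (V : Type) [Fintype V] [DecidableEq V] (M : PlaneGraph V) (q : V → E3) (h : M.Face → E3),
    M.Std q h → ∀ (e : M.G.Dart) (y : E3),
    (∀ z, M.Cov q h (fun w' => w' = M.fc e) z → 0 ≤ ⟪y, z⟫) → 0 ≤ ⟪y, q e.fst⟫

/-- HALF: points covered by a convex set of faces are to the left of its boundary darts
(REG1 on the open half space to the right of d; REG2 for d.symm). -/
def ST_HALF : Prop :=
  ∀ (V : Type) [Fintype V] [DecidableEq V] (M : PlaneGraph V) (q : V → E3) (h : M.Face → E3),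
    M.Std q h → ∀ (T : M.Face → Prop), M.Cvx q T → ∀ d, M.Bd T d → ∀ z, M.Cov q h T z →
    0 ≤ det3 (q d.fst) (q d.snd) z

/-- MAXT: maximum property of a stress lift in a convex region (as Str.maxprop: jump formula for
the complex of M with x put to 0 outside T; the arc z z' does not cross the boundary by HALF). -/
def ST_MAXT : Prop :=
  ∀ (V : Type) [Fintype V] [DecidableEq V] (M : PlaneGraph V) (p : V → E3) (h : M.Face → E3),
    M.Std p h → ∀ (T : M.Face → Prop), M.Cvx p T → ∀ (om : M.G.Dart → ℝ), M.Wt om →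
    ∀ x : M.Face → E3, (∀ d, M.InD T d →
      x (M.fc d) - x (M.fc d.symm) = om d • crs (p d.fst) (p d.snd)) →
    ∀ w w', T w → T w' → ∀ z, M.Cov p h (fun v => v = w) z →
      ⟪x w', z⟫ ≤ ⟪x w, z⟫ ∧ (⟪x w', z⟫ = ⟪x w, z⟫ → x w' = x w)

/-- MAXS: maximal support in a cone of nonnegative functions. -/
def ST_MAXS : Prop :=
  ∀ (D : Type) [Fintype D] (S : Set (D → ℝ)), (0 : D → ℝ) ∈ S → (∀ f ∈ S, ∀ g ∈ S, f + g ∈ S) →
    (∀ f ∈ S, ∀ d, 0 ≤ f d) → ∃ f ∈ S, ∀ g ∈ S, ∀ d, g d ≠ 0 → f d ≠ 0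

/-- RAYS: sorting finitely many directions orthogonal to a. -/
def ST_RAYS : Prop :=
  ∀ (a r0 : E3), ‖a‖ = 1 → ∀ R : Finset E3, r0 ∈ R → (∀ r ∈ R, ‖r‖ = 1 ∧ ⟪a, r⟫ = 0) →
    ∃ (k : ℕ) (th : ℕ → ℝ), 0 < k ∧ th 0 = 0 ∧ (∀ i < k, th i < th (i + 1)) ∧
      th k = 2 * Real.pi ∧
      (∀ r, r ∈ R ↔ ∃ i < k, r = Real.cos (th i) • r0 + Real.sin (th i) • crs a r0)

/-- PL: planar comparison. -/
def ST_PL : Prop :=
  ∀ (k : ℕ) (th : ℕ → ℝ) (x : E3) (r : ℕ → E3), ‖x‖ = 1 → th 0 = 0 →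
    (∀ i < k, 0 < th (i + 1) - th i ∧ th (i + 1) - th i < Real.pi) →
    (∀ i ≤ k, ‖r i‖ = 1 ∧ ⟪x, r i⟫ = 0) →
    (∀ i < k, 0 < det3 x (r i) (r (i + 1)) ∧
      Real.cos (th (i + 1) - th i) ≤ ⟪r i, r (i + 1)⟫) →
    ∃ ph : ℕ → ℝ, ph 0 = 0 ∧ (∀ i < k, ph i < ph (i + 1) ∧
        ph (i + 1) - ph i ≤ th (i + 1) - th i) ∧
      ∀ i ≤ k, r i = Real.cos (ph i) • r 0 + Real.sin (ph i) • crs x (r 0)

/-- HEMI2: a closed polygon of length at most 2 pi lies in a closed hemisphere, not completely on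
its boundary, or is a great circle traversed once. -/
def ST_HEMI2 : Prop :=
  ∀ (n : ℕ) (v : ℕ → E3), 0 < n → (∀ i, ‖v i‖ = 1) → v n = v 0 → (∀ i < n, v i ≠ v (i + 1)) →
    ∑ i ∈ Finset.range n, ang (v i) (v (i + 1)) ≤ 2 * Real.pi →
    (∃ g : E3, ‖g‖ = 1 ∧ (∀ i ≤ n, 0 ≤ ⟪g, v i⟫) ∧ ∃ i ≤ n, 0 < ⟪g, v i⟫) ∨
    (∑ i ∈ Finset.range n, ang (v i) (v (i + 1)) = 2 * Real.pi ∧
      ∃ m : E3, ‖m‖ = 1 ∧ (∀ i ≤ n, ⟪m, v i⟫ = 0) ∧ ∀ i < n, 0 ≤ det3 m (v i) (v (i + 1)))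

/-- MM2: the M-matrix lemma with neighbours of height 0 (Jacobi form: with z_u = inner nn (p u),
y_u = q u - p u, the form is sum c_uv z_u z_v |y_u / z_u - y_v / z_v|^2 over pairs in B plus
sum c_ub (z_b / z_u) |y_u|^2, and it is <= 0). -/
def ST_MM2 : Prop :=
  ∀ (V : Type) [Fintype V] [DecidableEq V] (M : PlaneGraph V) (p q : V → E3) (B : Set V)
    (c : M.G.Dart → ℝ) (nn : E3),
    (∀ v, ‖p v‖ = 1) → (∀ v, ‖q v‖ = 1) → (∀ d : M.G.Dart, p d.fst ≠ p d.snd) → M.Wt c →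
    (∀ d : M.G.Dart, d.fst ∈ B → c d ≠ 0 → d.snd ∉ B → q d.snd = p d.snd) →
    (∀ v ∈ B, M.EqAt p c v) →
    (∀ d : M.G.Dart, d.fst ∈ B → c d ≠ 0 → 0 < ⟪nn, p d.fst⟫ ∧ 0 ≤ ⟪nn, p d.snd⟫) →
    (∀ d : M.G.Dart, d.fst ∈ B → c d ≠ 0 → ⟪p d.fst, p d.snd⟫ ≤ ⟪q d.fst, q d.snd⟫) →
    ∀ d : M.G.Dart, d.fst ∈ B → c d ≠ 0 →
      ⟪q d.fst, q d.snd⟫ = ⟪p d.fst, p d.snd⟫ ∧
      (d.snd ∈ B → ⟪nn, p d.snd⟫ • (q d.fst - p d.fst) = ⟪nn, p d.fst⟫ • (q d.snd - p d.snd)) ∧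
      (d.snd ∉ B → 0 < ⟪nn, p d.snd⟫ → q d.fst = p d.fst)

/-- SHEAR: weights in a half space with balanced sheared torque are meridional.
tau v = sum over d.fst = v of om d * det3 a (p v) (p d.snd); g v = - cos of the longitude. -/
def ST_SHEAR : Prop :=
  ∀ (V : Type) [Fintype V] [DecidableEq V] (M : PlaneGraph V) (p : V → E3) (a r : E3)
    (om : M.G.Dart → ℝ), (∀ v, ‖p v‖ = 1) → ‖a‖ = 1 → ‖r‖ = 1 → ⟪a, r⟫ = 0 → M.Wt om →
    (∀ d, om d ≠ 0 → 0 ≤ det3 a r (p d.fst)) →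
    ∑ v : V, (⟪r, p v⟫ / ‖p v - ⟪a, p v⟫ • a‖) *
      ∑ d ∈ Finset.univ.filter (fun d : M.G.Dart => d.fst = v),
        om d * det3 a (p d.fst) (p d.snd) = 0 →
    ∀ d, om d ≠ 0 → det3 a (p d.fst) (p d.snd) = 0

/-- POT0: the potential hypothesis from the boundary (if both T and not T faces meet a vertex,
some dart starting there is a boundary dart or its reverse: rotation is one orbit). -/
def ST_POT0 : Prop :=
  ∀ (V : Type) [Fintype V] [DecidableEq V] (M : PlaneGraph V), M.G.Connected →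
    ∀ (T : M.Face → Prop), (∃ w, T w) → (∀ u : V → ℝ,
      (∀ d : M.G.Dart, ¬ M.InD T d → u d.fst = u d.snd) →
      ∀ a b : V, M.OnB T a → M.OnB T b → u a = u b) → M.Pot T

/-- ROT: everything is invariant under rotations. -/
def ST_ROT : Prop :=
  ∀ (V : Type) [Fintype V] [DecidableEq V] (M : PlaneGraph V) (q : V → E3) (R : E3 ≃ₗᵢ[ℝ] E3),
    LinearMap.det (R.toLinearEquiv : E3 →ₗ[ℝ] E3) = 1 → M.InC q → M.InC (fun v => R (q v))

/-- CLS: a nonzero stress is spatial, planar or on a great circle. -/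
def ST_CLS : Prop :=
  ∀ (V : Type) [Fintype V] [DecidableEq V] (M : PlaneGraph V) (p : V → E3) (om : M.G.Dart → ℝ),
    M.InC p → (∃ d, om d ≠ 0) →
    (∀ y, (∀ d, om d ≠ 0 → det3 (p d.fst) (p d.snd) y = 0) → y = 0) ∨
    (∃ a, ‖a‖ = 1 ∧ (∀ d, om d ≠ 0 → det3 a (p d.fst) (p d.snd) = 0) ∧
      ∃ d e, om d ≠ 0 ∧ om e ≠ 0 ∧
        crs (crs (p d.fst) (p d.snd)) (crs (p e.fst) (p e.snd)) ≠ 0) ∨
    (∃ n, ‖n‖ = 1 ∧ ∀ d, om d ≠ 0 → ⟪n, p d.fst⟫ = 0 ∧ ⟪n, p d.snd⟫ = 0)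

/-- AXV: in a meridional stress every stressed meridian reaches a: some stressed arc on the same
great circle contains a (take the highest stressed vertex on the half meridian and its upper
dart, which exists by equilibrium). -/
def ST_AXV : Prop :=
  ∀ (V : Type) [Fintype V] [DecidableEq V] (M : PlaneGraph V) (p : V → E3) (a : E3)
    (om : M.G.Dart → ℝ), M.InC p → ‖a‖ = 1 → M.Wt om →
    (∀ d, om d ≠ 0 → det3 a (p d.fst) (p d.snd) = 0) →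
    (∀ v, p v ≠ a → p v ≠ -a → M.EqAt p om v) →
    ∀ d, om d ≠ 0 → ∃ e, om e ≠ 0 ∧ a ∈ arc (p e.fst) (p e.snd) ∧
      det3 (p d.fst) (p d.snd) (p e.fst) = 0 ∧ det3 (p d.fst) (p d.snd) (p e.snd) = 0

/-- FARKG: general Farkas form of local minimality. -/
def ST_FARKG : Prop :=
  ∀ (V : Type) [Fintype V] [DecidableEq V] (M : PlaneGraph V) (p : V → E3), M.LocMin p →
    ∀ (MV : Submodule ℝ (V → E3)) (Fx : M.G.Dart → Prop), (∀ d, Fx d.symm ↔ Fx d) →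
    (∃ d, ¬ Fx d) →
    (∀ del ∈ MV, ∃ gam : ℝ → V → E3, gam 0 = p ∧ (∀ s v, ‖gam s v‖ = 1) ∧
      (∀ v, HasDerivAt (fun s => gam s v) (del v) 0) ∧
      ∀ s d, Fx d → ⟪gam s d.fst, gam s d.snd⟫ = ⟪p d.fst, p d.snd⟫) →
    ∃ om : M.G.Dart → ℝ, M.Wt om ∧ (∀ d, Fx d → om d = 0) ∧ (∃ d, om d ≠ 0) ∧
      ∀ del ∈ MV, ∑ d, om d * (⟪del d.fst, p d.snd⟫ + ⟪p d.fst, del d.snd⟫) = 0

/-- HUBF: the hub theorem (interface to the main part; helper30). -/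
def ST_HUBF : Prop :=
  ∀ (V : Type) [Fintype V] [DecidableEq V] (M : PlaneGraph V) (p q : V → E3)
    (h h' : M.Face → E3), M.Std p h → M.Std q h' → M.LocMin p → M.Le q p →
    ∀ (T : M.Face → Prop) (om : M.G.Dart → ℝ) (nu m : E3), M.Wt om → (∃ d, om d ≠ 0) →
    (∀ d, om d ≠ 0 → M.InD T d) → (∀ v, M.InV T v → M.EqAt p om v) → M.Pot T →
    (∃ d, M.Bd T d) → M.Cvx p T → ‖nu‖ = 1 → ‖m‖ = 1 →
    (∀ d, M.Bd T d → 0 < det3 nu (p d.fst) (p d.snd)) →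
    (∀ d, M.Bd T d → -⟪nu, p d.fst⟫ ≤ ⟪m, q d.fst⟫) →
    (∀ y, (∀ d, M.Bd T d → det3 (p d.fst) (p d.snd) y = 0) →
      (∀ d, om d ≠ 0 → det3 (p d.fst) (p d.snd) y = 0) → y = 0) →
    M.CovN q h' T (-m) →
    ∃ R : E3 ≃ₗᵢ[ℝ] E3, LinearMap.det (R.toLinearEquiv : E3 →ₗ[ℝ] E3) = 1 ∧ R (-nu) = m ∧
      (∀ d, M.Bd T d → q d.fst = R (p d.fst)) ∧ ∀ d, om d ≠ 0 → q d.fst = R (p d.fst)

/-- MAIN3: the spatial case (interface to the main part; helper30). -/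
def ST_MAIN3 : Prop :=
  ∀ (V : Type) [Fintype V] [DecidableEq V] (M : PlaneGraph V) (p q : V → E3)
    (h h' : M.Face → E3), M.Std p h → M.Std q h' → M.LocMin p → M.Le q p →
    ∀ om : M.G.Dart → ℝ, M.Wt om → (∀ v, M.EqAt p om v) →
    (∀ y, (∀ d, om d ≠ 0 → det3 (p d.fst) (p d.snd) y = 0) → y = 0) →
    ∃ R : E3 ≃ₗᵢ[ℝ] E3, LinearMap.det (R.toLinearEquiv : E3 →ₗ[ℝ] E3) = 1 ∧
      ∀ v, q v = R (p v)

end Pool.Agent.Helper30.N9
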