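import Pool.Agent.Helper24.N9.Deg1

/-! MP_9b91d1_co, section 6 (degenerate supports), second sheet: fans of meridians (helper24). -/

open scoped RealInnerProductSpace Topology

namespace Pool.Agent.Helper30.N9

/-- x lies on the closed half great circle from a to -a through r. -/
def OnR (a r x : E3) : Prop := ∃ c : ℝ, 0 ≤ c ∧ x = c • r + ⟪a, x⟫ • a

namespace PlaneGraph

variable {V : Type} [Fintype V] [DecidableEq V] (M : PlaneGraph V)

/-- Dart between faces with different labels. -/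
def E0 {L : Type} (l : M.Face → L) (d : M.G.Dart) : Prop := l (M.fc d) ≠ l (M.fc d.symm)

/-- Vertex on a dart between different labels. -/
def OnE {L : Type} (l : M.Face → L) (v : V) : Prop := ∃ d : M.G.Dart, d.fst = v ∧ M.E0 l d

/-- Fan: the darts between different labels are on meridians from a = p s to -a = p t, every
label class is convex, and meridians do not end before a and -a. -/
structure Fan {L : Type} (p : V → E3) (a : E3) (l : M.Face → L) (s t : V) : Prop where
  ua : ‖a‖ = 1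
  ps : p s = a
  pt : p t = -a
  mer : ∀ d, M.E0 l d → det3 a (p d.fst) (p d.snd) = 0
  cvx : ∀ d e, M.E0 l d → l (M.fc e) = l (M.fc d) → 0 ≤ det3 (p d.fst) (p d.snd) (p e.fst)
  up : ∀ d, M.E0 l d → d.fst ≠ s → d.fst ≠ t → ∃ e, M.E0 l e ∧ e.fst = d.fst ∧
    ∃ c : ℝ, 0 < c ∧ crs (p e.fst) (p e.snd) = c • crs (p e.fst) a
  dn : ∀ d, M.E0 l d → d.fst ≠ s → d.fst ≠ t → ∃ e, M.E0 l e ∧ e.fst = d.fst ∧
    ∃ c : ℝ, 0 < c ∧ crs (p e.fst) (p e.snd) = c • crs a (p e.fst)
  ex : ∃ d, M.E0 l d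

/-- The sorted meridians r 0, ..., r k = r 0 (longitudes th i) of a fan and the labels lam i of
the lunes between r i and r (i+1). -/
structure FanL {L : Type} (p : V → E3) (a : E3) (l : M.Face → L) (s t : V) (k : ℕ) (th : ℕ → ℝ)
    (r : ℕ → E3) (lam : ℕ → L) : Prop where
  th0 : th 0 = 0
  thl : ∀ i < k, th i < th (i + 1)
  thp : ∀ i < k, th (i + 1) ≤ th i + Real.pi
  thk : th k = 2 * Real.pi
  r0 : ‖r 0‖ = 1
  ar0 : ⟪a, r 0⟫ = 0
  rr : ∀ i ≤ k, r i = Real.cos (th i) • r 0 + Real.sin (th i) • crs a (r 0)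
  lamk : lam k = lam 0
  lami : ∀ i < k, ∀ j < k, lam i = lam j → i = j
  lams : ∀ w, ∃ i < k, l w = lam i
  /-- every dart between different labels is on some meridian r (i+1) and goes down (lam (i+1) to
  the left, lam i to the right) or up (reversed) -/
  ray : ∀ d, M.E0 l d → ∃ i < k, OnR a (r (i + 1)) (p d.fst) ∧ OnR a (r (i + 1)) (p d.snd) ∧
    ((⟪a, p d.snd⟫ < ⟪a, p d.fst⟫ ∧ l (M.fc d) = lam (i + 1) ∧ l (M.fc d.symm) = lam i) ∨
      (⟪a, p d.fst⟫ < ⟪a, p d.snd⟫ ∧ l (M.fc d) = lam i ∧ l (M.fc d.symm) = lam (i + 1)))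
  top : ∀ i < k, ∃ d : M.G.Dart, d.fst = s ∧ OnR a (r (i + 1)) (p d.snd) ∧
    l (M.fc d) = lam (i + 1) ∧ l (M.fc d.symm) = lam i
  bot : ∀ i < k, ∃ d : M.G.Dart, d.snd = t ∧ OnR a (r (i + 1)) (p d.fst) ∧
    l (M.fc d) = lam (i + 1) ∧ l (M.fc d.symm) = lam i
  lune : ∀ i < k, ∀ e : M.G.Dart, l (M.fc e) = lam i →
    0 ≤ det3 a (r i) (p e.fst) ∧ 0 ≤ det3 a (p e.fst) (r (i + 1))

/-- There is no meridional stress inside T (axis a). -/
def NoMer (p : V → E3) (a : E3) (T : M.Face → Prop) : Prop :=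
  ∀ om : M.G.Dart → ℝ, M.Wt om → (∀ d, om d ≠ 0 → M.InD T d) → (∀ v, M.InV T v → M.EqAt p om v) →
    (∀ d, om d ≠ 0 → det3 a (p d.fst) (p d.snd) = 0) → ∀ d, om d = 0

/-- The stress obtained from swings of the meridians. -/
structure Swing {L : Type} (p : V → E3) (a : E3) (l : M.Face → L) (s t : V)
    (om : M.G.Dart → ℝ) : Prop where
  wt : M.Wt om
  zero : ∀ d, M.E0 l d → om d = 0
  ne : ∃ d, om d ≠ 0
  eq : ∀ v, ¬ M.OnE l v → M.EqAt p om v
  tq : ∀ c : V → ℝ, (∀ d, M.E0 l d → d.fst ≠ s → d.fst ≠ t → d.snd ≠ s → d.snd ≠ t →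
    c d.fst = c d.snd) → ∑ d : M.G.Dart, om d * (c d.fst * det3 a (p d.fst) (p d.snd)) = 0

end PlaneGraph

/-- FL: sorted meridians of a fan, starting at a given vertex v0. Sketch. Directions of the E0
vertices other than s, t: finite set R, ST_RAYS. Every E0 dart has both ends on one half meridian
(a dart passing over a would have the vertex s in its interior: embed). Open lune between
consecutive directions contains no E0 arc; by REG1 each label class covers all or nothing of it;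
lam i = label of a down dart of r i (REG2 + uniqueness: all down darts on r i and all up darts on
r (i+1) have this label). Gap > pi: impossible by cvx with an up dart on r (i+1) and a vertex on
r i. lam injective: two down rays of one label give det3 a ri rj = 0, so opposite rays and the
class in a plane, impossible (FCV, HALF). One ray only: both sides have the same label,
impossible. top, bot: climb with up, dn. -/
def ST_FL : Prop :=
  ∀ (V : Type) [Fintype V] [DecidableEq V] (M : PlaneGraph V) (L : Type) (p : V → E3)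
    (h : M.Face → E3) (a : E3) (l : M.Face → L) (s t : V), M.Std p h → M.Fan p a l s t →
    ∀ v0, M.OnE l v0 → v0 ≠ s → v0 ≠ t →
    ∃ (k : ℕ) (th : ℕ → ℝ) (r : ℕ → E3) (lam : ℕ → L), M.FanL p a l s t k th r lam ∧
      OnR a (r 0) (p v0)

/-- E0V: a fan has a vertex other than s, t on its meridians. -/
def ST_E0V : Prop :=
  ∀ (V : Type) [Fintype V] [DecidableEq V] (M : PlaneGraph V) (L : Type) (p : V → E3)
    (a : E3) (l : M.Face → L) (s t : V), M.InC p → M.Fan p a l s t →
    ∃ v0, M.OnE l v0 ∧ v0 ≠ s ∧ v0 ≠ t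

/-- NE0: some dart is not on the meridians (at a vertex other than s, t of a meridian there are
only two darts of the fan, and at least three darts: exists_third). -/
def ST_NE0 : Prop :=
  ∀ (V : Type) [Fintype V] [DecidableEq V] (M : PlaneGraph V) (L : Type) (p : V → E3)
    (h : M.Face → E3) (a : E3) (l : M.Face → L) (s t : V) (k : ℕ) (th : ℕ → ℝ) (r : ℕ → E3)
    (lam : ℕ → L), M.Std p h → M.Fan p a l s t → M.FanL p a l s t k th r lam →
    ∃ d, ¬ M.E0 l d

/-- CH: chain inequality along the meridians (induction on the height: the upper dart of v ends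
in s or in a higher vertex of the same meridian). -/
def ST_CH : Prop :=
  ∀ (V : Type) [Fintype V] [DecidableEq V] (M : PlaneGraph V) (L : Type) (p q : V → E3)
    (h : M.Face → E3) (a : E3) (l : M.Face → L) (s t : V), M.Std p h → (∀ v, ‖q v‖ = 1) →
    M.Le q p → M.Fan p a l s t → ∀ v, M.OnE l v →
    ang (q s) (q v) ≤ ang a (p v) ∧ ang (q v) (q t) ≤ ang (p v) (-a)

/-- QR: if q t = - q s, the meridians go to meridians rq i. -/
def ST_QR : Prop :=
  ∀ (V : Type) [Fintype V] [DecidableEq V] (M : PlaneGraph V) (L : Type) (p q : V → E3)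
    (a : E3) (l : M.Face → L) (s t : V) (k : ℕ) (th : ℕ → ℝ) (r : ℕ → E3)
    (lam : ℕ → L), M.InC p → M.InC q → M.Le q p → M.Fan p a l s t →
    M.FanL p a l s t k th r lam → q t = - q s →
    ∃ rq : ℕ → E3, (∀ i ≤ k, ‖rq i‖ = 1 ∧ ⟪q s, rq i⟫ = 0) ∧ rq k = rq 0 ∧
      (∀ i < k, rq i ≠ rq (i + 1)) ∧
      ∀ i ≤ k, ∀ v, M.OnE l v → ∀ c : ℝ, 0 ≤ c → p v = c • r i + ⟪a, p v⟫ • a →
        q v = c • rq i + ⟪a, p v⟫ • q s

/-- SWING: from FARKG with MV = velocities which are swings c v • crs a (p v) on the meridian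
vertices (c constant along the meridians, s and t at rest) and tangent elsewhere. -/
def ST_SWING : Prop :=
  ∀ (V : Type) [Fintype V] [DecidableEq V] (M : PlaneGraph V) (L : Type) (p : V → E3)
    (a : E3) (l : M.Face → L) (s t : V), M.LocMin p → M.Fan p a l s t → (∃ d, ¬ M.E0 l d) →
    ∃ om, M.Swing p a l s t om

/-- TQ: all lunes have the same torque, and it is not 0. Sketch: t_i = torque about a of the
darts of lune i at the meridian r i (>= 0) = minus the torque at r (i+1) (inner vertices are in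
equilibrium, torque is antisymmetric); net torque 0 on r i gives t_i = t_(i-1); if t_i = 0, SHEAR
(with r = r i, opening <= pi) and NoMer show that om vanishes in lune i; all t_i = 0 gives om = 0. -/
def ST_TQ : Prop :=
  ∀ (V : Type) [Fintype V] [DecidableEq V] (M : PlaneGraph V) (L : Type) (p : V → E3)
    (h : M.Face → E3) (a : E3) (l : M.Face → L) (s t : V) (k : ℕ) (th : ℕ → ℝ) (r : ℕ → E3)
    (lam : ℕ → L) (om : M.G.Dart → ℝ), M.Std p h → M.Fan p a l s t →
    M.FanL p a l s t k th r lam → M.Swing p a l s t om →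
    (∀ i < k, M.NoMer p a (fun w => l w = lam i)) →
    ∀ i < k, ∃ d, M.InD (fun w => l w = lam i) d ∧ om d ≠ 0 ∧ det3 a (p d.fst) (p d.snd) ≠ 0

/-- POTF: the potential hypothesis for a lune (POT0; climb to s along E0 darts, which are not
inner darts of the lune). -/
def ST_POTF : Prop :=
  ∀ (V : Type) [Fintype V] [DecidableEq V] (M : PlaneGraph V) (L : Type) (p : V → E3)
    (h : M.Face → E3) (a : E3) (l : M.Face → L) (s t : V), M.Std p h → M.Fan p a l s t →
    ∀ b : L, (∃ w, l w = b) → M.Pot (fun w => l w = b)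

/-- LH: the hub theorem for a lune of opening < pi, nu = its centre. -/
def ST_LH : Prop :=
  ∀ (V : Type) [Fintype V] [DecidableEq V] (M : PlaneGraph V) (L : Type) (p q : V → E3)
    (h h' : M.Face → E3) (a : E3) (l : M.Face → L) (s t : V) (k : ℕ) (th : ℕ → ℝ) (r : ℕ → E3)
    (lam : ℕ → L) (om : M.G.Dart → ℝ), M.Std p h → M.Std q h' → M.LocMin p → M.Le q p →
    M.Fan p a l s t → M.FanL p a l s t k th r lam → M.Swing p a l s t om →
    ∀ i < k, th (i + 1) < th i + Real.pi →
    (∃ d, M.InD (fun w => l w = lam i) d ∧ om d ≠ 0 ∧ det3 a (p d.fst) (p d.snd) ≠ 0) →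
    ∀ m : E3, ‖m‖ = 1 →
    (∀ d, M.Bd (fun w => l w = lam i) d → -⟪nrm (r i + r (i + 1)), p d.fst⟫ ≤ ⟪m, q d.fst⟫) →
    M.CovN q h' (fun w => l w = lam i) (-m) →
    ∀ d, M.Bd (fun w => l w = lam i) d → ⟪m, q d.fst⟫ = -⟪nrm (r i + r (i + 1)), p d.fst⟫

/-- OP1: if q s and q t are not opposite, no lune (opening < pi) covers the antipode of their
midpoint (CH: every E0 vertex v has ang (q s) (q v) + ang (q v) (q t) <= pi, so
inner (q s + q t) (q v) >= 0; LH; strict at an E0 vertex other than s, t). -/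
def ST_OP1 : Prop :=
  ∀ (V : Type) [Fintype V] [DecidableEq V] (M : PlaneGraph V) (L : Type) (p q : V → E3)
    (h h' : M.Face → E3) (a : E3) (l : M.Face → L) (s t : V) (k : ℕ) (th : ℕ → ℝ) (r : ℕ → E3)
    (lam : ℕ → L) (om : M.G.Dart → ℝ), M.Std p h → M.Std q h' → M.LocMin p → M.Le q p →
    M.Fan p a l s t → M.FanL p a l s t k th r lam → M.Swing p a l s t om →
    ∀ i < k, th (i + 1) < th i + Real.pi →
    (∃ d, M.InD (fun w => l w = lam i) d ∧ om d ≠ 0 ∧ det3 a (p d.fst) (p d.snd) ≠ 0) →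
    q t ≠ - q s → ¬ M.CovN q h' (fun w => l w = lam i) (-nrm (q s + q t))

/-- OP2: if q t = - q s, the opening of lune i (opening < pi) does not increase.
Sketch: x = q s; the set covered by T is on the left of q (r i) (REG2) and, by REG1, contains the
open lune from rq i counterclockwise to rq (i+1) (a preconnected set avoiding the boundary
arcs: an intersection or a union of two half spaces); let -m be its centre on the equator of x:
if det3 x rq rq' > 0, m = -nrm (rq i + rq (i+1)); otherwise m = nrm (rq i + rq (i+1)) or, for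
rq (i+1) = - rq i, m = -crs x (rq i). If the conclusion fails, inner m (q b) >= - inner nu (p b) on
the boundary, strict off s, t: contradiction to LH. -/
def ST_OP2 : Prop :=
  ∀ (V : Type) [Fintype V] [DecidableEq V] (M : PlaneGraph V) (L : Type) (p q : V → E3)
    (h h' : M.Face → E3) (a : E3) (l : M.Face → L) (s t : V) (k : ℕ) (th : ℕ → ℝ) (r : ℕ → E3)
    (lam : ℕ → L) (om : M.G.Dart → ℝ), M.Std p h → M.Std q h' → M.LocMin p → M.Le q p →
    M.Fan p a l s t → M.FanL p a l s t k th r lam → M.Swing p a l s t om →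
    ∀ i < k, th (i + 1) < th i + Real.pi →
    (∃ d, M.InD (fun w => l w = lam i) d ∧ om d ≠ 0 ∧ det3 a (p d.fst) (p d.snd) ≠ 0) →
    q t = - q s → ∀ rq : ℕ → E3, (∀ i ≤ k, ‖rq i‖ = 1 ∧ ⟪q s, rq i⟫ = 0) →
    (∀ i < k, rq i ≠ rq (i + 1)) → rq k = rq 0 →
    (∀ i ≤ k, ∀ v, M.OnE l v → ∀ c : ℝ, 0 ≤ c → p v = c • r i + ⟪a, p v⟫ • a →
      q v = c • rq i + ⟪a, p v⟫ • q s) →
    0 < det3 (q s) (rq i) (rq (i + 1)) ∧ ⟪r i, r (i + 1)⟫ ≤ ⟪rq i, rq (i + 1)⟫

/-- FANA: all openings < pi: q is a rotation of p on the meridians. Sketch: if q t <> - q s,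
m = nrm (q s + q t): the open half space inner m < 0 contains no point of the q arcs of E0
darts, so (REG4, REG1) one label covers all its generic points: contradiction to OP1. Then QR,
OP2, PL; ph k is a multiple of 2 pi, 0 < ph k <= th k = 2 pi, so ph = th. -/
def ST_FANA : Prop :=
  ∀ (V : Type) [Fintype V] [DecidableEq V] (M : PlaneGraph V) (L : Type) (p q : V → E3)
    (h h' : M.Face → E3) (a : E3) (l : M.Face → L) (s t : V) (k : ℕ) (th : ℕ → ℝ) (r : ℕ → E3)
    (lam : ℕ → L) (om : M.G.Dart → ℝ), M.Std p h → M.Std q h' → M.LocMin p → M.Le q p →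
    M.Fan p a l s t → M.FanL p a l s t k th r lam → M.Swing p a l s t om →
    (∀ i < k, th (i + 1) < th i + Real.pi) →
    (∀ i < k, ∃ d, M.InD (fun w => l w = lam i) d ∧ om d ≠ 0 ∧
      det3 a (p d.fst) (p d.snd) ≠ 0) →
    ∃ R : E3 ≃ₗᵢ[ℝ] E3, LinearMap.det (R.toLinearEquiv : E3 →ₗ[ℝ] E3) = 1 ∧
      ∀ v, M.OnE l v → q v = R (p v)

/-- MMT: rest of the vertices of a region T with fixed boundary: FARKAS with
A = complement of B = {v inner vertex of T, q v <> p v}, then MM2. -/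
def ST_MMT : Prop :=
  ∀ (V : Type) [Fintype V] [DecidableEq V] (M : PlaneGraph V) (p q : V → E3) (nn : E3)
    (T : M.Face → Prop), M.G.Connected → M.LocMin p → (∀ v, ‖q v‖ = 1) → M.Le q p →
    (∀ e, T (M.fc e) → 0 ≤ ⟪nn, p e.fst⟫) → (∀ v, M.InV T v → 0 < ⟪nn, p v⟫) →
    (∀ v, M.OnB T v → q v = p v) → (∃ v, M.InV T v ∧ q v ≠ p v) →
    ∃ om : M.G.Dart → ℝ, M.Wt om ∧ (∃ d, om d ≠ 0) ∧ (∀ d, om d ≠ 0 → M.InD T d) ∧
      (∀ v, M.InV T v → M.EqAt p om v) ∧
      (∀ d, om d ≠ 0 → (M.InV T d.fst ∧ q d.fst ≠ p d.fst) ∨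
        (M.InV T d.snd ∧ q d.snd ≠ p d.snd)) ∧
      (∀ d, om d ≠ 0 → ⟪q d.fst, q d.snd⟫ = ⟪p d.fst, p d.snd⟫) ∧
      (∀ d, om d ≠ 0 → ¬ (M.InV T d.snd ∧ q d.snd ≠ p d.snd) →
        ⟪nn, p d.snd⟫ = 0 ∧ M.OnB T d.snd) ∧
      (∀ d, om d ≠ 0 → (M.InV T d.fst ∧ q d.fst ≠ p d.fst) →
        (M.InV T d.snd ∧ q d.snd ≠ p d.snd) →
        ⟪nn, p d.snd⟫ • (q d.fst - p d.fst) = ⟪nn, p d.fst⟫ • (q d.snd - p d.snd))

/-- MML: rest of the vertices of a lune of opening < pi: MMT with nn = its centre; the only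
boundary neighbours are s and t, so all torques vanish; SHEAR; NoMer. -/
def ST_MML : Prop :=
  ∀ (V : Type) [Fintype V] [DecidableEq V] (M : PlaneGraph V) (L : Type) (p q : V → E3)
    (h : M.Face → E3) (a : E3) (l : M.Face → L) (s t : V) (k : ℕ) (th : ℕ → ℝ) (r : ℕ → E3)
    (lam : ℕ → L), M.Std p h → M.LocMin p → (∀ v, ‖q v‖ = 1) → M.Le q p →
    M.Fan p a l s t → M.FanL p a l s t k th r lam → (∀ v, M.OnE l v → q v = p v) →
    ∀ i < k, th (i + 1) < th i + Real.pi → M.NoMer p a (fun w => l w = lam i) →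
    ∀ e, l (M.fc e) = lam i → q e.fst = p e.fst

/-- FAN1: a planar full stress gives a fan. Labels = values of the lift x (ST_LIFT with T all
faces); cvx from MAXT and VCL; s, t from AXV (two independent darts give two different arcs
through a, so a is a vertex); up, dn from equilibrium. -/
def ST_FAN1 : Prop :=
  ∀ (V : Type) [Fintype V] [DecidableEq V] (M : PlaneGraph V) (p : V → E3)
    (h : M.Face → E3) (a : E3) (om : M.G.Dart → ℝ), M.Std p h → M.G.Connected → ‖a‖ = 1 →
    M.Wt om → (∀ v, M.EqAt p om v) → (∀ d, om d ≠ 0 → det3 a (p d.fst) (p d.snd) = 0) →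
    (∃ d e, om d ≠ 0 ∧ om e ≠ 0 ∧
        crs (crs (p d.fst) (p d.snd)) (crs (p e.fst) (p e.snd)) ≠ 0) →
    ∃ (L : Type) (l : M.Face → L) (s t : V), M.Fan p a l s t ∧ ∀ d, M.E0 l d ↔ om d ≠ 0

/-- GAP1: in the planar case all openings are < pi (equilibrium at s; if all meridians were in a
closed half plane, only two opposite ones would be stressed). -/
def ST_GAP1 : Prop :=
  ∀ (V : Type) [Fintype V] [DecidableEq V] (M : PlaneGraph V) (L : Type) (p : V → E3)
    (h : M.Face → E3) (a : E3) (l : M.Face → L) (s t : V) (k : ℕ) (th : ℕ → ℝ) (r : ℕ → E3)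
    (lam : ℕ → L) (om : M.G.Dart → ℝ), M.Std p h → M.Fan p a l s t →
    M.FanL p a l s t k th r lam → M.Wt om → (∀ v, M.EqAt p om v) →
    (∀ d, M.E0 l d ↔ om d ≠ 0) →
    (∃ d e, om d ≠ 0 ∧ om e ≠ 0 ∧
        crs (crs (p d.fst) (p d.snd)) (crs (p e.fst) (p e.snd)) ≠ 0) →
    ∀ i < k, th (i + 1) < th i + Real.pi

/-- NOM1: in the planar case with maximal support there is no meridional stress inside a lune.
Sketch: let om' be one, F(v) = sum of om' crs at v; F = 0 except at s, t and F(t) = -F(s) (sum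
over all v is 0 by antisymmetry; a meridional dart of the lune does not start at a vertex of the
meridians other than s, t: it would overlap an E0 dart). -F(s) is a nonnegative combination of
G_i(s), G_(i+1)(s) for consecutive meridians, G_j = om restricted to meridian j (again zero
except at s, t, and G_j(t) = -G_j(s); G_j(s) is a positive multiple of crs a (r j)), since all
gaps are < pi. So om' + alpha G_i + beta G_(i+1) is a full stress: om' d <> 0 implies om d <> 0,
i.e. E0 d, but d is inner. -/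
def ST_NOM1 : Prop :=
  ∀ (V : Type) [Fintype V] [DecidableEq V] (M : PlaneGraph V) (L : Type) (p : V → E3)
    (h : M.Face → E3) (a : E3) (l : M.Face → L) (s t : V) (k : ℕ) (th : ℕ → ℝ) (r : ℕ → E3)
    (lam : ℕ → L) (om : M.G.Dart → ℝ), M.Std p h → M.Fan p a l s t →
    M.FanL p a l s t k th r lam → M.Wt om → (∀ v, M.EqAt p om v) →
    (∀ d, M.E0 l d ↔ om d ≠ 0) → (∀ i < k, th (i + 1) < th i + Real.pi) →
    (∀ om', M.Wt om' → (∀ v, M.EqAt p om' v) → ∀ d, om' d ≠ 0 → om d ≠ 0) →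
    ∀ i < k, M.NoMer p a (fun w => l w = lam i)

/-- T1: the planar case (assembly: helper24). -/
def ST_T1 : Prop :=
  ∀ (V : Type) [Fintype V] [DecidableEq V] (M : PlaneGraph V) (p q : V → E3)
    (h h' : M.Face → E3) (a : E3) (om : M.G.Dart → ℝ), M.Std p h → M.Std q h' → M.LocMin p →
    M.Le q p → ‖a‖ = 1 →
    M.Wt om → (∀ v, M.EqAt p om v) → (∀ d, om d ≠ 0 → det3 a (p d.fst) (p d.snd) = 0) →
    (∃ d e, om d ≠ 0 ∧ om e ≠ 0 ∧
        crs (crs (p d.fst) (p d.snd)) (crs (p e.fst) (p e.snd)) ≠ 0) →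
    (∀ om', M.Wt om' → (∀ v, M.EqAt p om' v) → ∀ d, om' d ≠ 0 → om d ≠ 0) →
    ∃ R : E3 ≃ₗᵢ[ℝ] E3, LinearMap.det (R.toLinearEquiv : E3 →ₗ[ℝ] E3) = 1 ∧
      ∀ v, q v = R (p v)

end Pool.Agent.Helper30.N9
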