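import Pool.Agent.Helper24.N9.Deg2

/-! MP_9b91d1_co, section 6 (degenerate supports), third sheet: great circles (helper24). -/

open scoped RealInnerProductSpace Topology

namespace Pool.Agent.Helper30.N9

namespace PlaneGraph

variable {V : Type} [Fintype V] [DecidableEq V] (M : PlaneGraph V)

/-- The boundary of the set of faces U is the great circle orthogonal to n, U is on the side of
n. -/
structure Equ (p : V → E3) (n : E3) (U : M.Face → Prop) : Prop where
  un : ‖n‖ = 1
  bd : ∀ d, M.Bd U d → ∃ c : ℝ, 0 < c ∧ crs (p d.fst) (p d.snd) = c • n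
  up : ∀ e, U (M.fc e) → 0 ≤ ⟪n, p e.fst⟫
  dn : ∀ e, ¬ U (M.fc e) → ⟪n, p e.fst⟫ ≤ 0
  ex : ∃ d, M.Bd U d

/-- No meridional stress in U for any axis on the great circle. -/
def Pure (p : V → E3) (n : E3) (U : M.Face → Prop) : Prop :=
  ∀ y : E3, ‖y‖ = 1 → ⟪n, y⟫ = 0 → M.NoMer p y U

/-- Weights on the great circle with maximal support. -/
structure CMax (p : V → E3) (U : M.Face → Prop) (om : M.G.Dart → ℝ) : Prop where
  wt : M.Wt om
  eq : ∀ v, M.EqAt p om v
  supp : ∀ d, om d ≠ 0 ↔ (M.Bd U d ∨ M.Bd U d.symm)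
  max : ∀ om', M.Wt om' → (∀ v, M.EqAt p om' v) → ∀ d, om' d ≠ 0 → om d ≠ 0

/-- A side U cut by meridians of the axis y; label b = the other side. -/
structure CutF {L : Type} (p : V → E3) (n : E3) (U : M.Face → Prop) (y : E3)
    (l : M.Face → L) (s t : V) (b : L) : Prop where
  fan : M.Fan p y l s t
  yn : ⟪n, y⟫ = 0
  lb : ∀ w, l w = b ↔ ¬ U w
  inn : ∃ d, M.InD U d ∧ M.E0 l d
  nomer : ∀ c : L, (∃ w, l w = c) → M.NoMer p y (fun w => l w = c)

end PlaneGraph

/-- D1E: a full stress on a great circle divides the faces in two sides (lift x by ST_LIFT with T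
all faces; x w - x w' is parallel to n; MAXT: inner n (x w) is maximal if w covers a point with
inner n z > 0, minimal if < 0; U = maximal ones; VCL). -/
def ST_D1E : Prop :=
  ∀ (V : Type) [Fintype V] [DecidableEq V] (M : PlaneGraph V) (p : V → E3)
    (h : M.Face → E3) (n : E3) (om : M.G.Dart → ℝ), M.Std p h → ‖n‖ = 1 → M.Wt om →
    (∀ v, M.EqAt p om v) → (∃ d, om d ≠ 0) →
    (∀ d, om d ≠ 0 → ⟪n, p d.fst⟫ = 0 ∧ ⟪n, p d.snd⟫ = 0) →
    ∃ U : M.Face → Prop, M.Equ p n U ∧ ∀ d, om d ≠ 0 ↔ (M.Bd U d ∨ M.Bd U d.symm)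

/-- CSEQ: the great circle as a cyclic sequence of vertices (RAYS with axis n on the positions of
the boundary vertices; closedness of the boundary: as many boundary darts start as end at a
vertex; a boundary dart from v i ends in v (i+1), otherwise it contains v (i+1) in its interior). -/
def ST_CSEQ : Prop :=
  ∀ (V : Type) [Fintype V] [DecidableEq V] (M : PlaneGraph V) (p : V → E3)
    (h : M.Face → E3) (n : E3) (U : M.Face → Prop), M.Std p h → M.Equ p n U →
    ∃ (k : ℕ) (th : ℕ → ℝ) (v : ℕ → V), 0 < k ∧ th 0 = 0 ∧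
      (∀ i < k, th i < th (i + 1) ∧ th (i + 1) < th i + Real.pi) ∧ th k = 2 * Real.pi ∧
      v k = v 0 ∧ ⟪n, p (v 0)⟫ = 0 ∧
      (∀ i ≤ k, p (v i) = Real.cos (th i) • p (v 0) + Real.sin (th i) • crs n (p (v 0))) ∧
      (∀ i < k, ∃ d : M.G.Dart, M.Bd U d ∧ d.fst = v i ∧ d.snd = v (i + 1)) ∧
      ∀ d, M.Bd U d → ∃ i < k, d.fst = v i ∧ d.snd = v (i + 1)

/-- CCOV: every point of the great circle is on a boundary arc. -/
def ST_CCOV : Prop :=
  ∀ (V : Type) [Fintype V] [DecidableEq V] (M : PlaneGraph V) (p : V → E3)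
    (h : M.Face → E3) (n : E3) (U : M.Face → Prop), M.Std p h → M.Equ p n U →
    ∀ y : E3, ‖y‖ = 1 → ⟪n, y⟫ = 0 → ∃ d, M.Bd U d ∧ y ∈ arc (p d.fst) (p d.snd)

/-- CNI: inner darts do not run along the great circle (embed with CCOV). -/
def ST_CNI : Prop :=
  ∀ (V : Type) [Fintype V] [DecidableEq V] (M : PlaneGraph V) (p : V → E3)
    (h : M.Face → E3) (n : E3) (U : M.Face → Prop), M.Std p h → M.Equ p n U →
    ∀ d, M.InD U d → ¬ (⟪n, p d.fst⟫ = 0 ∧ ⟪n, p d.snd⟫ = 0)

/-- POTC: potential hypothesis of a side (POT0, CSEQ). -/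
def ST_POTC : Prop :=
  ∀ (V : Type) [Fintype V] [DecidableEq V] (M : PlaneGraph V) (p : V → E3)
    (h : M.Face → E3) (n : E3) (U : M.Face → Prop), M.Std p h → M.Equ p n U → M.Pot U

/-- INNR: a side has an inner vertex. (Otherwise all vertices of its faces are on the great circle,
a face w of U covers by REG1 the whole open hemisphere, so all boundary darts belong to w; but the
vertices of w are in the open hemisphere of h w, while by CSEQ some v i has inner (h w) <= 0.) -/
def ST_INNR : Prop :=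
  ∀ (V : Type) [Fintype V] [DecidableEq V] (M : PlaneGraph V) (p : V → E3)
    (h : M.Face → E3) (n : E3) (U : M.Face → Prop), M.Std p h → M.Equ p n U →
    ∃ v, M.InV U v

/-- QC: the image of the great circle (CSEQ, HEMI2; in the second case all angles are kept, and
q (v (i+1)) is q (v i) rotated by th (i+1) - th i about m). -/
def ST_QC : Prop :=
  ∀ (V : Type) [Fintype V] [DecidableEq V] (M : PlaneGraph V) (p q : V → E3)
    (h h' : M.Face → E3) (n : E3) (U : M.Face → Prop), M.Std p h → M.Std q h' → M.Le q p →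
    M.Equ p n U →
    (∃ g : E3, ‖g‖ = 1 ∧ (∀ d, M.Bd U d → 0 ≤ ⟪g, q d.fst⟫) ∧
      ∃ d, M.Bd U d ∧ 0 < ⟪g, q d.fst⟫) ∨
    (∃ R : E3 ≃ₗᵢ[ℝ] E3, LinearMap.det (R.toLinearEquiv : E3 →ₗ[ℝ] E3) = 1 ∧
      ∀ d, M.Bd U d → q d.fst = R (p d.fst))

/-- SPURE: a pure side does not cover the antipode of g. FARKAS with A = not inner vertices of U
(INNR), HUBF with nu = n, m = g (Pure gives the spatial condition). -/
def ST_SPURE : Prop :=
  ∀ (V : Type) [Fintype V] [DecidableEq V] (M : PlaneGraph V) (p q : V → E3)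
    (h h' : M.Face → E3) (n : E3) (U : M.Face → Prop), M.Std p h → M.Std q h' → M.LocMin p →
    M.Le q p → M.Equ p n U → M.Pure p n U → ∀ g : E3, ‖g‖ = 1 →
    (∀ d, M.Bd U d → 0 ≤ ⟪g, q d.fst⟫) → M.CovN q h' U (-g) →
    ∀ d, M.Bd U d → ⟪g, q d.fst⟫ = 0

/-- CUT1: a side with a meridional stress is cut. Sketch: S = stresses on inner darts of U, in
equilibrium at inner vertices of U, meridional for y; MAXS gives om; LIFT (POTC) on U gives x,
labels some (x w) on U, none outside; MAXT, VCL give cvx; s, t: AXV (a stressed arc through y)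
and CCOV (a boundary arc through y) and embed; up, dn: equilibrium at inner vertices, for
boundary vertices the two boundary darts (CSEQ); om does not touch boundary vertices other than
s, t (CNI). NoMer for the labels of U: a meridional stress inside a label class is in S (it does
not touch the vertices on E0 meridians other than s, t: overlap), so its support is in the
support of om, but those darts are not inner. -/
def ST_CUT1 : Prop :=
  ∀ (V : Type) [Fintype V] [DecidableEq V] (M : PlaneGraph V) (p : V → E3)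
    (h : M.Face → E3) (n y : E3) (U : M.Face → Prop), M.Std p h → M.Equ p n U → ‖y‖ = 1 →
    ⟪n, y⟫ = 0 → ¬ M.NoMer p y U →
    ∃ (L : Type) (l : M.Face → L) (s t : V) (b : L), M.Fan p y l s t ∧
      (∀ w, l w = b ↔ ¬ U w) ∧ (∃ d, M.InD U d ∧ M.E0 l d) ∧
      ∀ c : L, c ≠ b → M.NoMer p y (fun w => l w = c)

/-- NOML: not both sides have meridional stresses for the same axis. Sketch: om1 in U, om2
outside, F(v) = sum of om crs at v: zero except at s, t (p s = y, p t = -y), F(t) = -F(s). The
components of F1(s), F2(s) along crs y n are > 0 and < 0 (om1 reaches s: AXV). G+, G- = CMax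
weight restricted to the two open halves of the great circle (darts with det3 n y (p fst) or
(p snd) > 0, resp. < 0): multiples of n at s, opposite signs, zero off s, t. So some combination
om1 + beta om2 + gamma G+ + delta G- with beta > 0, gamma, delta >= 0 is a full stress:
contradiction to max. -/
def ST_NOML : Prop :=
  ∀ (V : Type) [Fintype V] [DecidableEq V] (M : PlaneGraph V) (p : V → E3)
    (h : M.Face → E3) (n y : E3) (U : M.Face → Prop) (om : M.G.Dart → ℝ), M.Std p h →
    M.Equ p n U → M.CMax p U om → ‖y‖ = 1 → ⟪n, y⟫ = 0 → ¬ M.NoMer p y U →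
    M.NoMer p y (fun w => ¬ U w)

/-- CUTL: normal form of a cut side: meridian 0 starts at s in direction crs n y, the last lune is
the other side. -/
def ST_CUTL : Prop :=
  ∀ (V : Type) [Fintype V] [DecidableEq V] (M : PlaneGraph V) (L : Type) (p : V → E3)
    (h : M.Face → E3) (n y : E3) (U : M.Face → Prop) (l : M.Face → L) (s t : V) (b : L),
    M.Std p h → M.Equ p n U → M.CutF p n U y l s t b →
    ∃ (k : ℕ) (th : ℕ → ℝ) (r : ℕ → E3) (lam : ℕ → L), M.FanL p y l s t (k + 1) th r lam ∧
      r 0 = crs n y ∧ r k = -crs n y ∧ th k = Real.pi ∧ lam k = b ∧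
      (∀ i < k, th (i + 1) < th i + Real.pi) ∧ (∀ i < k, lam i ≠ b) ∧ 2 ≤ k

/-- SCUT: a cut side does not cover the antipode of g. Sketch: CUTL, SWING (NE0), TQ. U covers
the open half space inner g < 0 (REG1). Case q t <> - q s: m = nrm (q s + q t); one label covers
inner m < 0 (CH); not a label of U (OP1), so b; then the two half spaces are disjoint, m = -g,
but inner m (q s) > 0. Case q t = - q s: QR, OP2, PL on i < k: rq k = rotation of rq 0 by
ph k in (0, pi]; b covers the open half spaces inner (crs x (rq 0)) < 0 and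
inner (crs x (rq k)) > 0 (REG2 at a dart of meridian 0, resp. k, and REG1), x = q s, so
g = crs x (rq 0) up to sign and rq k = - rq 0, so inner g = 0 on all boundary vertices. -/
def ST_SCUT : Prop :=
  ∀ (V : Type) [Fintype V] [DecidableEq V] (M : PlaneGraph V) (L : Type) (p q : V → E3)
    (h h' : M.Face → E3) (n y : E3) (U : M.Face → Prop) (l : M.Face → L) (s t : V) (b : L),
    M.Std p h → M.Std q h' → M.LocMin p → M.Le q p → M.Equ p n U →
    M.CutF p n U y l s t b → ∀ g : E3, ‖g‖ = 1 →
    (∀ d, M.Bd U d → 0 ≤ ⟪g, q d.fst⟫) → M.CovN q h' U (-g) →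
    ∀ d, M.Bd U d → ⟪g, q d.fst⟫ = 0

/-- KEEP: if q = p on the great circle, inner vertices of U stay on the side of n (REG2 at a
boundary dart, REG1 on the two open hemispheres, VCL for q; not on the great circle since q is
an embedding, CCOV). -/
def ST_KEEP : Prop :=
  ∀ (V : Type) [Fintype V] [DecidableEq V] (M : PlaneGraph V) (p q : V → E3)
    (h h' : M.Face → E3) (n : E3) (U : M.Face → Prop), M.Std p h → M.Std q h' →
    M.Equ p n U → (∀ d, M.Bd U d → q d.fst = p d.fst) → ∀ v, M.InV U v → 0 < ⟪n, q v⟫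

/-- MMH: rest of the vertices of a pure side. Sketch: MMT with T = U, nn = n: om. Fix a stressed
u0 in B = {inner, q <> p}, w0 = (q u0 - p u0) / inner n (p u0), B0 = {u in B, same quotient},
om0 = om on darts with an end in B0 (again in equilibrium at inner vertices). For a stressed
neighbour b outside B: inner w0 (p b) = 0. If w0 is not parallel to n, y = nrm (crs n w0): all
these b are + or - y, SHEAR (axis y, r = crs n y up to sign) and Pure give om0 = 0, contradiction.
So w0 = lam n, and |q u0| = 1 gives lam = 0 or -2: q u0 = p u0 or inner n (q u0) < 0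
(contradiction to KEEP). -/
def ST_MMH : Prop :=
  ∀ (V : Type) [Fintype V] [DecidableEq V] (M : PlaneGraph V) (p q : V → E3)
    (h h' : M.Face → E3) (n : E3) (U : M.Face → Prop), M.Std p h → M.Std q h' → M.LocMin p →
    M.Le q p → M.Equ p n U → M.Pure p n U → (∀ d, M.Bd U d → q d.fst = p d.fst) →
    ∀ v, M.InV U v → q v = p v

/-- RCUT: rest of the vertices of a cut side. CUTL, SWING, TQ, QR (q s = y, q t = -y), OP2, PL:
rq k = - rq 0 gives ph k = pi, so ph = th and rq i = r i for i <= k; MML for i < k. -/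
def ST_RCUT : Prop :=
  ∀ (V : Type) [Fintype V] [DecidableEq V] (M : PlaneGraph V) (L : Type) (p q : V → E3)
    (h h' : M.Face → E3) (n y : E3) (U : M.Face → Prop) (l : M.Face → L) (s t : V) (b : L),
    M.Std p h → M.Std q h' → M.LocMin p → M.Le q p → M.Equ p n U →
    M.CutF p n U y l s t b → (∀ d, M.Bd U d → q d.fst = p d.fst) →
    ∀ v, M.InV U v → q v = p v

/-- T2: the great circle case (assembly: helper24). -/
def ST_T2 : Prop :=
  ∀ (V : Type) [Fintype V] [DecidableEq V] (M : PlaneGraph V) (p q : V → E3)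
    (h h' : M.Face → E3) (n : E3) (om : M.G.Dart → ℝ), M.Std p h → M.Std q h' → M.LocMin p →
    M.Le q p → ‖n‖ = 1 →
    M.Wt om → (∀ v, M.EqAt p om v) → (∃ d, om d ≠ 0) →
    (∀ d, om d ≠ 0 → ⟪n, p d.fst⟫ = 0 ∧ ⟪n, p d.snd⟫ = 0) →
    (∀ om', M.Wt om' → (∀ v, M.EqAt p om' v) → ∀ d, om' d ≠ 0 → om d ≠ 0) →
    ∃ R : E3 ≃ₗᵢ[ℝ] E3, LinearMap.det (R.toLinearEquiv : E3 →ₗ[ℝ] E3) = 1 ∧
      ∀ v, q v = R (p v)

end Pool.Agent.Helper30.N9
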