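import Pool.Agent.Helper24.N9.Deg3
import Pool.Agent.Helper30.N9.Sheet4

/-! MP_9b91d1_co: HUBF and MAIN3 from the rows of helper30 (helper24). -/

open scoped RealInnerProductSpace Topology

namespace Pool.Agent.Helper30.N9

theorem Good_of_Std {V : Type} [Fintype V] [DecidableEq V] {M : PlaneGraph V} {p : V → E3}
    {h : M.Face → E3} (H : M.Std p h) : Good M p h := ⟨H.c3, H.per, H.inc, H.cen⟩

theorem det3_cyc (a b c : E3) : det3 a b c = det3 b c a := by
  unfold det3; ring

theorem mem_bd' {V : Type} [Fintype V] [DecidableEq V] {M : PlaneGraph V} {T : M.Face → Prop}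
    {d : M.G.Dart} : d ∈ M.bd {w | T w} ↔ M.Bd T d := by
  classical
  unfold PlaneGraph.bd PlaneGraph.Bd
  simp

theorem hubf_of (H : ST_HUB) (F : ST_FIVEB) : ST_HUBF := by
  intro V _ _ M p q h h' hp hq hloc hle T om nu m hw hne hin heq hpot hbd hcvx hnu hm hst hge
    hsp hcov
  classical
  have key := H V M p q h h' {w | T w} nu m om (Good_of_Std hp) (Good_of_Std hq) hle
    ⟨hnu, ?_, ?_, ?_⟩ hm hw.nonneg hw.symm ?_ ?_ ?_ ?_ ?_ ?_ ?_ (Or.inl hne)
  · obtain ⟨R, h1, h2, h3, h4⟩ := key
    exact ⟨R, h1, h2, fun d hd => h3 d (mem_bd'.mpr hd), h4⟩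
  · obtain ⟨d, hd⟩ := hbd
    exact ⟨d, mem_bd'.mpr hd⟩
  · intro d hd
    rw [← det3_cyc]
    exact hst d (mem_bd'.mp hd)
  · intro d hd e he
    exact hcvx d e (mem_bd'.mp hd) he
  · intro d hd
    by_contra h0
    exact hd (hin d h0)
  · intro v hv
    exact heq v hv
  · intro u hu a b ha hb
    exact hpot u (fun d hd => hu d hd) a b ha hb
  · intro d hd
    exact hge d (mem_bd'.mp hd)
  · intro y h1 h2
    exact hsp y (fun d hd => h1 d (mem_bd'.mpr hd)) h2
  · obtain ⟨δ, hδ, hb⟩ := hcov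
    filter_upwards [Metric.ball_mem_nhds (-m) hδ] with z hz hz1 hoff
    have h1 := (hb z hz).2
    rw [nrm_unit hz1] at h1
    obtain ⟨-, -, w, hTw, hw1⟩ := h1 hoff
    obtain ⟨w0, hw0, huni⟩ := PlaneGraph.tiling hq.per hq.c3 hq.inc hq.cen hz1 hoff
    have e : w = w0 := by
      by_contra hc
      have := huni w hc
      rw [hw1] at this
      norm_num at this
    rw [Finset.sum_eq_single w]
    · exact hw1
    · intro w' _ hw'
      exact huni w' (by rw [← e]; exact hw')
    · intro hn
      exact absurd (Finset.mem_filter.mpr ⟨Finset.mem_univ _, hTw⟩) hn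
  · intro T' _ _ hN
    exact F V M p q h h' (Good_of_Std hp) (Good_of_Std hq) hloc hle T' hN

theorem main3_of (H : ST_FIVEC) (Li : ST_LIFT) : ST_MAIN3 := by
  intro V _ _ M p q h h' hp hq hloc hle om hw heq hsp
  have hconn : M.G.Connected := by
    have h1 := hp.c3.2 ∅ (by simp)
    exact (SimpleGraph.Iso.connected_iff (G := M.G.induce {v | v ∉ (∅ : Finset V)})
      (H := M.G) ⟨(Equiv.subtypeUnivEquiv (by simp) :
        {v : V // v ∈ ({v | v ∉ (∅ : Finset V)} : Set V)} ≃ V), by
          intro a b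
          rfl⟩).mp h1
  obtain ⟨x, hx⟩ := Li V M hconn (fun _ => True) (fun d => om d • crs (p d.fst) (p d.snd))
    (by
      intro d
      show om d.symm • crs (p d.snd) (p d.fst) = -(om d • crs (p d.fst) (p d.snd))
      rw [hw.symm, ← smul_neg]
      congr 1
      ext i
      fin_cases i <;> simp [crs] <;> ring)
    (by intro d hd; exact absurd ⟨trivial, trivial⟩ hd)
    (by intro v _; exact heq v)
    (by intro u _ a b ha; exact absurd trivial ha)
  have hx' : ∀ d : M.G.Dart, x (M.fc d) - x (M.fc d.symm) = om d • crs (p d.fst) (p d.snd) :=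
    fun d => hx d trivial trivial
  apply H V M p q h h' (Good_of_Std hp) (Good_of_Std hq) hloc hle om x hw.nonneg hx'
  intro y hy
  apply hsp
  intro d hd
  have h1 := hy (M.fc d) (M.fc d.symm)
  rw [hx', real_inner_smul_left, crs_inner] at h1
  exact (mul_eq_zero.mp h1).resolve_left hd

end Pool.Agent.Helper30.N9
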