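import Pool.Agent.Helper24.N9.T2
import Pool.Agent.Helper24.N9.Hubf
import Pool.Agent.Helper74.N9.Per

/-! MP_9b91d1_co: assembly of Q1 (helper24). -/

open scoped RealInnerProductSpace Topology

namespace Pool.Agent.Helper30.N9

theorem q1_of (main3 : ST_MAIN3) (t1 : ST_T1) (t2 : ST_T2) (cls : ST_CLS) (maxs : ST_MAXS)
    (farkas : ST_FARKAS) :
    ∀ (V : Type) [Fintype V] [DecidableEq V] (M : PlaneGraph V), M.Conn3 → M.Q1 := by
  intro V _ _ M h3 p hloc q hq hle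
  have hper : M.Peripheral := N9Per.peripheral M h3
  have hpC : M.InC p := hloc.1
  obtain ⟨h, hc, -⟩ := hpC.cen
  obtain ⟨h', hc', -⟩ := hq.cen
  have hp : M.Std p h := ⟨h3, hper, hpC, hc⟩
  have hq' : M.Std q h' := ⟨h3, hper, hq, hc'⟩
  have hcard : 0 < Fintype.card V := by have := h3.1; omega
  obtain ⟨v0⟩ := Fintype.card_pos_iff.mp hcard
  obtain ⟨d0, -⟩ := PlaneGraph.exists_dart_at h3 hpC v0
  obtain ⟨om1, w1, w2, -, ⟨d1, w4⟩, w5⟩ := farkas V M p hloc ∅ ⟨d0, by simp⟩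
  obtain ⟨om, ⟨hw, heq⟩, hmax⟩ := maxs M.G.Dart {om | M.Wt om ∧ ∀ v, M.EqAt p om v}
    ⟨⟨fun d => le_refl _, fun d => rfl⟩, fun v => by
      unfold PlaneGraph.EqAt; simp⟩
    (by
      rintro f ⟨f1, f2⟩ g ⟨g1, g2⟩
      refine ⟨⟨fun d => add_nonneg (f1.nonneg d) (g1.nonneg d), fun d => ?_⟩, fun v => ?_⟩
      · show f d.symm + g d.symm = f d + g d
        rw [f1.symm, g1.symm]
      · have e1 := f2 v
        have e2 := g2 v
        unfold PlaneGraph.EqAt at e1 e2 ⊢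
        simp only [Pi.add_apply, add_smul, Finset.sum_add_distrib]
        rw [e1, e2, add_zero])
    (fun f hf d => hf.1.nonneg d)
  have hne : ∃ d, om d ≠ 0 := ⟨d1, hmax om1 ⟨⟨w1, w2⟩, fun v => w5 v (by simp)⟩ d1 w4⟩
  have hmax' : ∀ om', M.Wt om' → (∀ v, M.EqAt p om' v) → ∀ d, om' d ≠ 0 → om d ≠ 0 :=
    fun om' h1 h2 d hd => hmax om' ⟨h1, h2⟩ d hd
  rcases cls V M p om hpC hne with h1 | ⟨a, ha, h1, h2⟩ | ⟨n, hn, h1⟩
  · exact main3 V M p q h h' hp hq' hloc hle om hw heq h1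
  · exact t1 V M p q h h' a om hp hq' hloc hle ha hw heq h1 h2 hmax'
  · exact t2 V M p q h h' n om hp hq' hloc hle hn hw heq hne h1 hmax'

end Pool.Agent.Helper30.N9
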