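import Pool.Agent.Helper66.N9.Key

/-! MP_9b91d1_co: block LT (ear lemma, local heights). -/

namespace N9

/-- triple product -/
def dt (a b c : V3) : ℝ :=
  a 0 * (b 1 * c 2 - b 2 * c 1) - a 1 * (b 0 * c 2 - b 2 * c 0)
    + a 2 * (b 0 * c 1 - b 1 * c 0)

theorem ip_eq (a b : V3) : ip a b = a 0 * b 0 + a 1 * b 1 + a 2 * b 2 := by
  unfold ip; rw [Fin.sum_univ_three]

theorem ip_comm (a b : V3) : ip a b = ip b a := by simp only [ip_eq]; ring
theorem ip_add_left (a b c : V3) : ip (a + b) c = ip a c + ip b c := by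
  simp only [ip_eq, Pi.add_apply]; ring
theorem ip_add_right (a b c : V3) : ip a (b + c) = ip a b + ip a c := by
  simp only [ip_eq, Pi.add_apply]; ring
theorem ip_sub_left (a b c : V3) : ip (a - b) c = ip a c - ip b c := by
  simp only [ip_eq, Pi.sub_apply]; ring
theorem ip_sub_right (a b c : V3) : ip a (b - c) = ip a b - ip a c := by
  simp only [ip_eq, Pi.sub_apply]; ring
theorem ip_smul_left (r : ℝ) (a b : V3) : ip (r • a) b = r * ip a b := by
  simp only [ip_eq, Pi.smul_apply, smul_eq_mul]; ring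
theorem ip_smul_right (r : ℝ) (a b : V3) : ip a (r • b) = r * ip a b := by
  simp only [ip_eq, Pi.smul_apply, smul_eq_mul]; ring
theorem ip_neg_left (a b : V3) : ip (-a) b = - ip a b := by
  simp only [ip_eq, Pi.neg_apply]; ring
theorem ip_neg_right (a b : V3) : ip a (-b) = - ip a b := by
  simp only [ip_eq, Pi.neg_apply]; ring
theorem nsq_eq (a : V3) : nsq a = a 0 ^ 2 + a 1 ^ 2 + a 2 ^ 2 := by
  unfold nsq; rw [Fin.sum_univ_three]
theorem ip_self (a : V3) : ip a a = nsq a := by simp only [ip_eq, nsq_eq]; ring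
theorem nsq_nonneg (a : V3) : 0 ≤ nsq a := by rw [nsq_eq]; positivity
theorem nsq_pos {a : V3} (h : a ≠ 0) : 0 < nsq a := by
  rcases (nsq_nonneg a).lt_or_eq with h1 | h1
  · exact h1
  · exfalso; apply h
    rw [nsq_eq] at h1
    funext i
    fin_cases i <;> simp <;> nlinarith [sq_nonneg (a 0), sq_nonneg (a 1), sq_nonneg (a 2)]

theorem dt_rot (a b c : V3) : dt b c a = dt a b c := by unfold dt; ring
theorem dt_rot' (a b c : V3) : dt c a b = dt a b c := by unfold dt; ring
theorem dt_swap (a b c : V3) : dt a c b = - dt a b c := by unfold dt; ring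
theorem dt_swap' (a b c : V3) : dt b a c = - dt a b c := by unfold dt; ring

/-- Cramer: four vectors. -/
theorem cramer (a b c v : V3) :
    dt a b c • v = dt v b c • a + dt a v c • b + dt a b v • c := by
  funext i
  fin_cases i <;> simp [dt] <;> ring

/-- key identity for the slope order -/
theorem slope_id (p y b c : V3) (h : ip p y = 0) :
    (ip b y) * dt p y c - (ip c y) * dt p y b = nsq y * dt p b c := by
  have h1 : ∀ A B C D : ℝ, A = B → A = B := fun _ _ _ _ h => h
  simp only [ip_eq, nsq_eq, dt] at *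
  linear_combination (-(y 0 * (b 1 * c 2 - b 2 * c 1)) + y 1 * (b 0 * c 2 - b 2 * c 0)
    - y 2 * (b 0 * c 1 - b 1 * c 0)) * h

variable {I : Type} [DecidableEq I]

/-- strictly convex position: pointed, every vector is exposed -/
structure ConvPos (p : I → V3) (S : Finset I) : Prop where
  pointed : ∃ g, ∀ i ∈ S, 0 < ip g (p i)
  expo : ∀ i ∈ S, ∃ y, ip (p i) y = 0 ∧ ∀ j ∈ S, j ≠ i → ip (p j) y < 0
  card : 3 ≤ S.card

/-- directed side of the polygon -/
def Side (p : I → V3) (S : Finset I) (i j : I) : Prop :=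
  i ∈ S ∧ j ∈ S ∧ i ≠ j ∧ ∀ k ∈ S, k ≠ i → k ≠ j → 0 < dt (p i) (p j) (p k)

variable {p : I → V3} {S : Finset I}

/-- cross product -/
def crv (a b : V3) : V3 := ![a 1 * b 2 - a 2 * b 1, a 2 * b 0 - a 0 * b 2, a 0 * b 1 - a 1 * b 0]

theorem par_of (P y D : V3) (h0 : ip P y = 0) (h1 : ip D y = 0) (h2 : dt P y D = 0) :
    (nsq y * nsq P) • D = (nsq y * ip P D) • P := by
  simp only [ip_eq, dt] at h0 h1 h2
  funext k
  simp only [Pi.smul_apply, smul_eq_mul, ip_eq, nsq_eq]
  fin_cases k
  · simp only [Fin.zero_eta, Fin.mk_one, Fin.reduceFinMk, Fin.isValue]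
    linear_combination (P 1 * y 2 - P 2 * y 1) * h2 + (P 0 ^ 2 + P 1 ^ 2 + P 2 ^ 2) * y 0 * h1
      + ((P 0 * y 0 + P 1 * y 1 + P 2 * y 2) * D 0 - (D 0 * y 0 + D 1 * y 1 + D 2 * y 2) * P 0
        - (P 0 * D 0 + P 1 * D 1 + P 2 * D 2) * y 0) * h0
  · simp only [Fin.zero_eta, Fin.mk_one, Fin.reduceFinMk, Fin.isValue]
    linear_combination (P 2 * y 0 - P 0 * y 2) * h2 + (P 0 ^ 2 + P 1 ^ 2 + P 2 ^ 2) * y 1 * h1
      + ((P 0 * y 0 + P 1 * y 1 + P 2 * y 2) * D 1 - (D 0 * y 0 + D 1 * y 1 + D 2 * y 2) * P 1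
        - (P 0 * D 0 + P 1 * D 1 + P 2 * D 2) * y 1) * h0
  · simp only [Fin.zero_eta, Fin.mk_one, Fin.reduceFinMk, Fin.isValue]
    linear_combination (P 0 * y 1 - P 1 * y 0) * h2 + (P 0 ^ 2 + P 1 ^ 2 + P 2 ^ 2) * y 2 * h1
      + ((P 0 * y 0 + P 1 * y 1 + P 2 * y 2) * D 2 - (D 0 * y 0 + D 1 * y 1 + D 2 * y 2) * P 2
        - (P 0 * D 0 + P 1 * D 1 + P 2 * D 2) * y 2) * h0

theorem ConvPos.ne_zero (h : ConvPos p S) {i : I} (hi : i ∈ S) : p i ≠ 0 := by
  obtain ⟨g, hg⟩ := h.pointed
  intro h'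
  have := hg i hi
  rw [h'] at this
  simp [ip] at this

theorem ConvPos.dt_ne (h : ConvPos p S) {i b c : I} (hi : i ∈ S) (hb : b ∈ S) (hc : c ∈ S)
    (hib : b ≠ i) (hic : c ≠ i) (hbc : b ≠ c) : dt (p i) (p b) (p c) ≠ 0 := by
  intro h0
  obtain ⟨y, hy0, hy⟩ := h.expo i hi
  obtain ⟨yb, hyb0, hyb⟩ := h.expo b hb
  obtain ⟨yc, hyc0, hyc⟩ := h.expo c hc
  have hby := hy b hb hib
  have hcy := hy c hc hic
  have hy1 : y ≠ 0 := by
    rintro rfl
    simp [ip] at hby
  have hn := nsq_pos hy1
  have hs := slope_id (p i) y (p b) (p c) hy0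
  rw [h0, mul_zero] at hs
  have hpn := nsq_pos (h.ne_zero hi)
  set D : V3 := ip (p c) y • p b - ip (p b) y • p c with hD
  have hDy : ip D y = 0 := by
    rw [hD, ip_sub_left, ip_smul_left, ip_smul_left]; ring
  have hDd : dt (p i) y D = 0 := by
    have : dt (p i) y D = ip (p c) y * dt (p i) y (p b) - ip (p b) y * dt (p i) y (p c) := by
      rw [hD]; simp only [dt, Pi.sub_apply, Pi.smul_apply, smul_eq_mul]; ring
    rw [this]; linarith
  have hpar := par_of (p i) y D hy0 hDy hDd
  set N := nsq y * nsq (p i) with hN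
  have hNpos : 0 < N := mul_pos hn hpn
  set τ := nsq y * ip (p i) D with hτ
  -- N * (c.y) p b = τ p i + N * (b.y) p c
  have hb' : ip (N • D) yb = ip (τ • p i) yb := by rw [hpar]
  have hc' : ip (N • D) yc = ip (τ • p i) yc := by rw [hpar]
  rw [hD, ip_smul_left, ip_sub_left, ip_smul_left, ip_smul_left, ip_smul_left] at hb' hc'
  rw [hyb0] at hb'
  rw [hyc0] at hc'
  have e1 := hyb i hi hib.symm
  have e2 := hyb c hc hbc.symm
  have e3 := hyc i hi hic.symm
  have e4 := hyc b hb hbc
  -- hb' : N * (0 - (b.y) (c.yb)) = τ (i.yb)  => τ > 0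
  have f1 : 0 < ip (p b) y * ip (p c) yb := mul_pos_of_neg_of_neg hby e2
  have f2 : 0 < ip (p c) y * ip (p b) yc := mul_pos_of_neg_of_neg hcy e4
  have g1 : τ * ip (p i) yb < 0 := by nlinarith
  have g2 : 0 < τ * ip (p i) yc := by nlinarith
  have t1 : 0 < τ := by
    by_contra hcon
    push Not at hcon
    nlinarith
  nlinarith

/-- transitivity of the order around a vertex -/
theorem ConvPos.trans (h : ConvPos p S) {i a b c : I} (hi : i ∈ S) (ha : a ∈ S) (hb : b ∈ S)
    (hc : c ∈ S) (hai : a ≠ i) (hbi : b ≠ i) (hci : c ≠ i)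
    (h1 : 0 < dt (p i) (p a) (p b)) (h2 : 0 < dt (p i) (p b) (p c)) :
    0 < dt (p i) (p a) (p c) := by
  obtain ⟨y, hy0, hy⟩ := h.expo i hi
  have e1 := hy a ha hai
  have e2 := hy b hb hbi
  have e3 := hy c hc hci
  have hy1 : y ≠ 0 := by
    rintro rfl
    simp [ip] at e1
  have hn := nsq_pos hy1
  have s1 := slope_id (p i) y (p a) (p b) hy0
  have s2 := slope_id (p i) y (p b) (p c) hy0
  have s3 := slope_id (p i) y (p a) (p c) hy0
  set A := dt (p i) y (p a)
  set B := dt (p i) y (p b)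
  set C := dt (p i) y (p c)
  have k1 : 0 < nsq y * dt (p i) (p a) (p b) := mul_pos hn h1
  have k2 : 0 < nsq y * dt (p i) (p b) (p c) := mul_pos hn h2
  rw [← s1] at k1
  rw [← s2] at k2
  have k3 : 0 < nsq y * dt (p i) (p a) (p c) := by
    rw [← s3]
    -- a.y B - b.y A > 0, b.y C - c.y B > 0 => a.y C - c.y A > 0
    have : ip (p b) y * (ip (p a) y * C - ip (p c) y * A)
        = ip (p a) y * (ip (p b) y * C - ip (p c) y * B)
          + ip (p c) y * (ip (p a) y * B - ip (p b) y * A) := by ring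
    have h4 : ip (p b) y * (ip (p a) y * C - ip (p c) y * A) < 0 := by
      rw [this]
      have := mul_neg_of_neg_of_pos e1 k2
      have := mul_neg_of_neg_of_pos e3 k1
      linarith
    by_contra hcon
    push Not at hcon
    have := mul_nonneg_of_nonpos_of_nonpos e2.le hcon
    linarith
  by_contra hcon
  push Not at hcon
  have := mul_nonpos_of_nonneg_of_nonpos hn.le hcon
  linarith

theorem ConvPos.exists_succ (h : ConvPos p S) {i : I} (hi : i ∈ S) : ∃ j, Side p S i j := by
  obtain ⟨y, hy0, hy⟩ := h.expo i hi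
  have hne : (S.erase i).Nonempty := by
    rw [← Finset.card_pos, Finset.card_erase_of_mem hi]
    have := h.card
    omega
  obtain ⟨b, hb, hmax⟩ := Finset.exists_max_image (S.erase i)
    (fun b => dt (p i) y (p b) / (- ip (p b) y)) hne
  rw [Finset.mem_erase] at hb
  refine ⟨b, hi, hb.2, hb.1.symm, fun k hk hki hkb => ?_⟩
  have h1 := hmax k (Finset.mem_erase.mpr ⟨hki, hk⟩)
  have eb := hy b hb.2 hb.1
  have ek := hy k hk hki
  rw [div_le_div_iff₀ (by linarith) (by linarith)] at h1
  have s := slope_id (p i) y (p b) (p k) hy0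
  have hy1 : y ≠ 0 := by
    rintro rfl
    simp [ip] at eb
  have hn := nsq_pos hy1
  have h2 : 0 ≤ nsq y * dt (p i) (p b) (p k) := by
    rw [← s]; linarith
  have h3 : 0 ≤ dt (p i) (p b) (p k) := by
    by_contra hcon
    push Not at hcon
    have := mul_neg_of_pos_of_neg hn hcon
    linarith
  exact lt_of_le_of_ne h3 (h.dt_ne hi hb.2 hk hb.1 hki hkb.symm).symm

theorem ConvPos.exists_pred (h : ConvPos p S) {i : I} (hi : i ∈ S) : ∃ j, Side p S j i := by
  obtain ⟨y, hy0, hy⟩ := h.expo i hi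
  have hne : (S.erase i).Nonempty := by
    rw [← Finset.card_pos, Finset.card_erase_of_mem hi]
    have := h.card
    omega
  obtain ⟨b, hb, hmax⟩ := Finset.exists_min_image (S.erase i)
    (fun b => dt (p i) y (p b) / (- ip (p b) y)) hne
  rw [Finset.mem_erase] at hb
  refine ⟨b, hb.2, hi, hb.1, fun k hk hkb hki => ?_⟩
  have h1 := hmax k (Finset.mem_erase.mpr ⟨hki, hk⟩)
  have eb := hy b hb.2 hb.1
  have ek := hy k hk hki
  rw [div_le_div_iff₀ (by linarith) (by linarith)] at h1
  have s := slope_id (p i) y (p k) (p b) hy0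
  have hy1 : y ≠ 0 := by
    rintro rfl
    simp [ip] at eb
  have hn := nsq_pos hy1
  have h2 : 0 ≤ nsq y * dt (p i) (p k) (p b) := by
    rw [← s]; linarith
  have h3 : 0 ≤ dt (p i) (p k) (p b) := by
    by_contra hcon
    push Not at hcon
    have := mul_neg_of_pos_of_neg hn hcon
    linarith
  have h4 := lt_of_le_of_ne h3 (h.dt_ne hi hk hb.2 hki hb.1 hkb).symm
  have h5 : dt (p b) (p i) (p k) = dt (p i) (p k) (p b) := by unfold dt; ring
  rw [h5]; exact h4

theorem Side.unique_left {i i' j : I} (h : Side p S i j) (h' : Side p S i' j) : i = i' := by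
  by_contra hne
  have h1 := h.2.2.2 i' h'.1 (Ne.symm hne) h'.2.2.1
  have h2 := h'.2.2.2 i h.1 hne h.2.2.1
  have : dt (p i') (p j) (p i) = - dt (p i) (p j) (p i') := by unfold dt; ring
  linarith

theorem Side.unique_right {i j j' : I} (h : Side p S i j) (h' : Side p S i j') : j = j' := by
  by_contra hne
  have h1 := h.2.2.2 j' h'.2.1 h'.2.2.1.symm (Ne.symm hne)
  have h2 := h'.2.2.2 j h.2.1 h.2.2.1.symm hne
  have : dt (p i) (p j') (p j) = - dt (p i) (p j) (p j') := by unfold dt; ring
  linarith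

theorem Side.ne_of_card (hS : ConvPos p S) {a j b : I} (h : Side p S a j) (h' : Side p S j b) :
    a ≠ b := by
  rintro rfl
  obtain ⟨k, hk, hka, hkj⟩ : ∃ k ∈ S, k ≠ a ∧ k ≠ j := by
    have h1 : 0 < ((S.erase a).erase j).card := by
      rw [Finset.card_erase_of_mem (Finset.mem_erase.mpr ⟨h.2.2.1.symm, h.2.1⟩),
        Finset.card_erase_of_mem h.1]
      have := hS.card
      omega
    obtain ⟨k, hk⟩ := Finset.card_pos.mp h1
    rw [Finset.mem_erase, Finset.mem_erase] at hk
    exact ⟨k, hk.2.2, hk.2.1, hk.1⟩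
  have h1 := h.2.2.2 k hk hka hkj
  have h2 := h'.2.2.2 k hk hkj hka
  have : dt (p j) (p a) (p k) = - dt (p a) (p j) (p k) := by unfold dt; ring
  linarith


/-- the ear lemma -/
theorem exists_ear (h : ConvPos p S) {q : I → V3} (hp1 : ∀ i ∈ S, nsq (p i) = 1)
    (hq1 : ∀ i ∈ S, nsq (q i) = 1)
    (hc : ∀ i j, Side p S i j → ip (p i) (p j) ≤ ip (q i) (q j)) :
    ∃ a j b, Side p S a j ∧ Side p S j b ∧ ip (p a) (p b) ≤ ip (q a) (q b) := by
  obtain ⟨a, ha⟩ : S.Nonempty := by
    rw [← Finset.card_pos]; have := h.card; omega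
  obtain ⟨y, hy0, hy⟩ := h.expo a ha
  by_cases hall : ∀ u ∈ S, ip (p a) (p u) ≤ ip (q a) (q u)
  · obtain ⟨j, hj⟩ := h.exists_succ ha
    obtain ⟨b, hb⟩ := h.exists_succ hj.2.1
    exact ⟨a, j, b, hj, hb, hall b hb.2.1⟩
  push Not at hall
  obtain ⟨u0, hu0, hu0'⟩ := hall
  have hu0a : u0 ≠ a := by
    rintro rfl
    rw [ip_self, ip_self, hp1 _ hu0, hq1 _ hu0] at hu0'
    exact lt_irrefl _ hu0'
  obtain ⟨j, hj, hmin⟩ := Finset.exists_min_image (S.erase a)
    (fun u => (ip (q a) (q u) - ip (p a) (p u)) / (- ip (p u) y))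
    ⟨u0, Finset.mem_erase.mpr ⟨hu0a, hu0⟩⟩
  rw [Finset.mem_erase] at hj
  set r : I → ℝ := fun u => (ip (q a) (q u) - ip (p a) (p u)) / (- ip (p u) y) with hr
  have hrj : r j < 0 := by
    have h1 := hmin u0 (Finset.mem_erase.mpr ⟨hu0a, hu0⟩)
    have h2 : r u0 < 0 := by
      rw [hr]
      exact div_neg_of_neg_of_pos (by linarith) (by linarith [hy u0 hu0 hu0a])
    exact lt_of_le_of_lt h1 h2
  have hyj := hy j hj.2 hj.1
  have hDj : ip (q a) (q j) - ip (p a) (p j) < 0 := by
    rw [hr] at hrj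
    simp only at hrj
    rw [div_neg_iff] at hrj
    rcases hrj with h1 | h1
    · linarith
    · exact h1.1
  obtain ⟨c, hcj⟩ := h.exists_pred hj.2
  obtain ⟨b, hjb⟩ := h.exists_succ hj.2
  have hca : c ≠ a := by
    rintro rfl
    have := hc _ _ hcj
    linarith
  have hba : b ≠ a := by
    rintro rfl
    have h1 := hc _ _ hjb
    rw [ip_comm (p j), ip_comm (q j)] at h1
    linarith
  have hcb : c ≠ b := Side.ne_of_card h hcj hjb
  refine ⟨c, j, b, hcj, hjb, ?_⟩
  -- determinants
  have d0 : 0 < dt (p c) (p j) (p b) := hcj.2.2.2 b hjb.2.1 hcb.symm hjb.2.2.1.symm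
  have d1 : 0 < dt (p c) (p j) (p a) := hcj.2.2.2 a ha hca.symm (Ne.symm hj.1)
  have d2 : 0 < dt (p j) (p b) (p a) := hjb.2.2.2 a ha (Ne.symm hj.1) hba.symm
  have d3 : 0 < dt (p c) (p a) (p b) ∨ dt (p c) (p a) (p b) < 0 :=
    (h.dt_ne hcj.1 ha hjb.2.1 hca.symm hcb.symm hba.symm).lt_or_gt.symm
  -- Cramer: dt c j b • a = dt a j b • c + dt c a b • j + dt c j a • b
  have hcr := cramer (p c) (p j) (p b) (p a)
  set D0 := dt (p c) (p j) (p b) with hD0
  set α := dt (p a) (p j) (p b) with hα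
  set β := dt (p c) (p j) (p a) with hβ
  set γ := dt (p c) (p a) (p b) with hγ
  have hαpos : 0 < α := by
    rw [hα]
    have : dt (p a) (p j) (p b) = dt (p j) (p b) (p a) := by unfold dt; ring
    rw [this]; exact d2
  -- coefficient of j must be negative
  have hyc := hy c hcj.1 hca
  have hyb := hy b hjb.2.1 hba
  have hφ : 0 = α * ip (p c) y + γ * ip (p j) y + β * ip (p b) y := by
    have := congrArg (fun v => ip v y) hcr
    simp only [ip_add_left, ip_smul_left, hy0, mul_zero] at this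
    exact this
  have hγneg : γ < 0 := by
    by_contra hcon
    push Not at hcon
    have e1 := mul_neg_of_pos_of_neg hαpos hyc
    have e2 := mul_neg_of_pos_of_neg d1 hyb
    have e3 := mul_nonpos_of_nonneg_of_nonpos hcon hyj.le
    linarith
  -- (*) α D(a,c) + β D(a,b) + γ D(a,j) ≥ 0
  have hmc := hmin c (Finset.mem_erase.mpr ⟨hca, hcj.1⟩)
  have hmb := hmin b (Finset.mem_erase.mpr ⟨hba, hjb.2.1⟩)
  set m := r j with hm
  have ec : m * (- ip (p c) y) ≤ ip (q a) (q c) - ip (p a) (p c) := by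
    rw [← le_div_iff₀ (by linarith)]; exact hmc
  have eb : m * (- ip (p b) y) ≤ ip (q a) (q b) - ip (p a) (p b) := by
    rw [← le_div_iff₀ (by linarith)]; exact hmb
  have ej : m * (- ip (p j) y) = ip (q a) (q j) - ip (p a) (p j) := by
    rw [hm, hr]; simp only; rw [div_mul_cancel₀]; linarith
  have hstar : 0 ≤ α * (ip (q a) (q c) - ip (p a) (p c)) + β * (ip (q a) (q b) - ip (p a) (p b))
      + γ * (ip (q a) (q j) - ip (p a) (p j)) := by
    rw [← ej]
    have e1 := mul_le_mul_of_nonneg_left ec hαpos.le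
    have e2 := mul_le_mul_of_nonneg_left eb d1.le
    have e3 : α * (m * (- ip (p c) y)) + β * (m * (- ip (p b) y)) + γ * (m * (- ip (p j) y))
        = 0 := by
      linear_combination (m) * hφ
    linarith
  -- Y = α q c + β q b + γ q j
  set Y : V3 := α • q c + β • q b + γ • q j with hY
  have hY1 : D0 ≤ ip (q a) Y := by
    have e1 : ip (q a) Y = α * ip (q a) (q c) + β * ip (q a) (q b) + γ * ip (q a) (q j) := by
      rw [hY]; simp only [ip_add_right, ip_smul_right]
    have e2 : D0 * ip (p a) (p a) = α * ip (p a) (p c) + β * ip (p a) (p b)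
        + γ * ip (p a) (p j) := by
      have := congrArg (fun v => ip (p a) v) hcr
      simp only [ip_add_right, ip_smul_right] at this
      linarith
    rw [ip_self, hp1 a ha] at e2
    rw [e1]; linarith
  have hYn : D0 ^ 2 ≤ nsq Y := by
    have hcs : (ip (q a) Y) ^ 2 ≤ nsq (q a) * nsq Y := by
      simp only [ip_eq, nsq_eq]
      nlinarith [sq_nonneg ((q a) 0 * Y 1 - (q a) 1 * Y 0),
        sq_nonneg ((q a) 0 * Y 2 - (q a) 2 * Y 0), sq_nonneg ((q a) 1 * Y 2 - (q a) 2 * Y 1)]
    rw [hq1 a ha, one_mul] at hcs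
    nlinarith
  have hexp : ∀ (f : I → V3), nsq (f c) = 1 → nsq (f b) = 1 → nsq (f j) = 1 →
      nsq (α • f c + β • f b + γ • f j) = α ^ 2 + β ^ 2 + γ ^ 2
        + 2 * α * β * ip (f c) (f b) + 2 * α * γ * ip (f c) (f j) + 2 * β * γ * ip (f b) (f j) := by
    intro f h1 h2 h3
    rw [← ip_self]
    simp only [ip_add_left, ip_add_right, ip_smul_left, ip_smul_right]
    rw [ip_self, ip_self, ip_self, h1, h2, h3, ip_comm (f b) (f c), ip_comm (f j) (f c),
      ip_comm (f j) (f b)]
    ring
  have hP : nsq (α • p c + β • p b + γ • p j) = D0 ^ 2 := by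
    have e : α • p c + β • p b + γ • p j = D0 • p a := by
      rw [hcr]; abel
    rw [e, ← ip_self, ip_smul_left, ip_smul_right, ip_self, hp1 a ha]; ring
  rw [hexp p (hp1 c hcj.1) (hp1 b hjb.2.1) (hp1 j hj.2)] at hP
  rw [hY, hexp q (hq1 c hcj.1) (hq1 b hjb.2.1) (hq1 j hj.2)] at hYn
  have s1 := hc _ _ hcj
  have s2 := hc _ _ hjb
  rw [ip_comm (p j), ip_comm (q j)] at s2
  have k1 : 0 ≤ - (α * γ) := by nlinarith
  have k2 : 0 ≤ - (β * γ) := by nlinarith
  have k3 : 0 < α * β := mul_pos hαpos d1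
  have k4 := mul_le_mul_of_nonneg_left s1 k1
  have k5 := mul_le_mul_of_nonneg_left s2 k2
  by_contra hcon
  push Not at hcon
  have k6 := mul_lt_mul_of_pos_left hcon k3
  nlinarith


/-- removing an ear keeps strictly convex position -/
theorem ConvPos.erase (h : ConvPos p S) {j : I} (hj : j ∈ S) (hc : 4 ≤ S.card) :
    ConvPos p (S.erase j) := by
  refine ⟨?_, ?_, ?_⟩
  · obtain ⟨g, hg⟩ := h.pointed
    exact ⟨g, fun i hi => hg i (Finset.mem_of_mem_erase hi)⟩
  · intro i hi
    obtain ⟨y, h0, hy⟩ := h.expo i (Finset.mem_of_mem_erase hi)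
    exact ⟨y, h0, fun k hk hki => hy k (Finset.mem_of_mem_erase hk) hki⟩
  · rw [Finset.card_erase_of_mem hj]; omega

/-- the sides after removing the ear j between a and b -/
theorem side_erase (h : ConvPos p S) {a j b : I} (h1 : Side p S a j) (h2 : Side p S j b)
    {i l : I} (hs : Side p (S.erase j) i l) : Side p S i l ∨ (i = a ∧ l = b) := by
  have hi := Finset.mem_of_mem_erase hs.1
  have hl := Finset.mem_of_mem_erase hs.2.1
  have hij := Finset.ne_of_mem_erase hs.1
  have hlj := Finset.ne_of_mem_erase hs.2.1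
  have hj := h1.2.1
  rcases (h.dt_ne hi hl hj hs.2.2.1.symm hij.symm hlj).lt_or_gt with hneg | hpos
  · right
    have e1 : 0 < dt (p i) (p j) (p l) := by rw [dt_swap] ; linarith
    have s1 : Side p S i j := by
      refine ⟨hi, hj, hij, fun k hk hki hkj => ?_⟩
      by_cases hkl : k = l
      · rw [hkl]; exact e1
      · have e2 := hs.2.2.2 k (Finset.mem_erase.mpr ⟨hkj, hk⟩) hki hkl
        exact h.trans hi hj hl hk hij.symm hs.2.2.1.symm hki e1 e2
    have s2 : Side p S j l := by
      refine ⟨hj, hl, hlj.symm, fun k hk hkj hkl => ?_⟩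
      by_cases hki : k = i
      · rw [hki]
        have : dt (p j) (p l) (p i) = dt (p i) (p j) (p l) := by unfold dt; ring
        rw [this]; exact e1
      · have e2 := hs.2.2.2 k (Finset.mem_erase.mpr ⟨hkj, hk⟩) hki hkl
        have e3 : 0 < dt (p l) (p k) (p i) := by
          have : dt (p l) (p k) (p i) = dt (p i) (p l) (p k) := by unfold dt; ring
          rw [this]; exact e2
        have e4 : 0 < dt (p l) (p i) (p j) := by
          have : dt (p l) (p i) (p j) = dt (p i) (p j) (p l) := by unfold dt; ring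
          rw [this]; exact e1
        have e5 := h.trans hl hk hi hj hkl hs.2.2.1 hlj.symm e3 e4
        have : dt (p j) (p l) (p k) = dt (p l) (p k) (p j) := by unfold dt; ring
        rw [this]; exact e5
    exact ⟨Side.unique_left s1 h1, Side.unique_right s2 h2⟩
  · left
    refine ⟨hi, hl, hs.2.2.1, fun k hk hki hkl => ?_⟩
    by_cases hkj : k = j
    · rw [hkj]; exact hpos
    · exact hs.2.2.2 k (Finset.mem_erase.mpr ⟨hkj, hk⟩) hki hkl

/-- local structure at a vertex -/
theorem LT_aux {q : I → V3} : ∀ (n : ℕ) (S : Finset I), S.card = n + 3 → ConvPos p S →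
    (∀ i ∈ S, nsq (p i) = 1) → (∀ i ∈ S, nsq (q i) = 1) →
    (∀ i j, Side p S i j → ip (p i) (p j) ≤ ip (q i) (q j)) →
    ∃ (eta : I → ℝ) (tri : Finset (Finset I)) (d : ℝ), 0 < d ∧ d ≤ 1 ∧
      (∀ t ∈ tri, t ⊆ S ∧ t.card = 3) ∧
      (∀ i j, Side p S i j → ∃ t ∈ tri, i ∈ t ∧ j ∈ t) ∧
      (∀ t ∈ tri, ∀ i ∈ t, ∀ j ∈ t, ip (p i) (p j) ≤ ip (q i) (q j)) ∧
      (∀ y : V3, (∀ i ∈ S, ip (p i) y - eta i ≤ d) →
        ∃ t ∈ tri, ∀ i ∈ S, i ∉ t → ip (p i) y - eta i ≤ -d) := by
  intro n
  induction n with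
  | zero =>
    intro S hS h hp1 hq1 hc
    refine ⟨0, {S}, 1, one_pos, le_refl _, ?_, ?_, ?_, ?_⟩
    · intro t ht
      rw [Finset.mem_singleton] at ht
      subst ht
      exact ⟨subset_rfl, hS⟩
    · intro i j hij
      exact ⟨S, Finset.mem_singleton_self _, hij.1, hij.2.1⟩
    · intro t ht i hi j hj
      rw [Finset.mem_singleton] at ht
      subst ht
      by_cases hij : i = j
      · subst hij
        rw [ip_self, ip_self, hp1 i hi, hq1 i hi]
      · obtain ⟨a, ha⟩ := h.exists_succ hi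
        obtain ⟨b, hb⟩ := h.exists_pred hi
        have hab : b ≠ a := Side.ne_of_card h hb ha
        have hcard : t = {i, a, b} := by
          symm
          apply Finset.eq_of_subset_of_card_le
          · intro x hx
            simp only [Finset.mem_insert, Finset.mem_singleton] at hx
            rcases hx with rfl | rfl | rfl
            · exact hi
            · exact ha.2.1
            · exact hb.1
          · rw [hS, Finset.card_insert_of_notMem, Finset.card_insert_of_notMem,
              Finset.card_singleton]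
            · rw [Finset.mem_singleton]; exact hab.symm
            · rw [Finset.mem_insert, Finset.mem_singleton, not_or]
              exact ⟨ha.2.2.1, hb.2.2.1.symm⟩
        rw [hcard] at hj
        simp only [Finset.mem_insert, Finset.mem_singleton] at hj
        rcases hj with rfl | rfl | rfl
        · exact absurd rfl hij
        · exact hc _ _ ha
        · rw [ip_comm (p i), ip_comm (q i)]; exact hc _ _ hb
    · intro y _
      exact ⟨S, Finset.mem_singleton_self _, fun i hi hn => absurd hi hn⟩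
  | succ n ih =>
    intro S hS h hp1 hq1 hc
    obtain ⟨a, j, b, haj, hjb, hab⟩ := exists_ear h hp1 hq1 hc
    have hj := haj.2.1
    have h4 : 4 ≤ S.card := by omega
    have hne : a ≠ b := Side.ne_of_card h haj hjb
    obtain ⟨eta, tri, d, hd, hd1, t1, ts, t2, t3⟩ := ih (S.erase j)
      (by rw [Finset.card_erase_of_mem hj]; omega) (h.erase hj h4)
      (fun i hi => hp1 i (Finset.mem_of_mem_erase hi))
      (fun i hi => hq1 i (Finset.mem_of_mem_erase hi))
      (fun i l hs => by
        rcases side_erase h haj hjb hs with h' | ⟨rfl, rfl⟩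
        · exact hc i l h'
        · exact hab)
    -- height of the new facet
    have hL : ∀ i ∈ (S.erase j), i ≠ a → i ≠ b → ∃ L0 : ℝ, ∀ L, L0 ≤ L → ∀ y : V3,
        ip (p a) y ≤ eta a + 1 → ip (p b) y ≤ eta b + 1 → L - 1 ≤ ip (p j) y →
        ip (p i) y - eta i ≤ -1 := by
      intro i hi hia hib
      have hi' := Finset.mem_of_mem_erase hi
      have hij := Finset.ne_of_mem_erase hi
      have c1 : 0 < dt (p a) (p j) (p b) :=
        haj.2.2.2 b hjb.2.1 hne.symm hjb.2.2.1.symm
      have c2 : 0 < dt (p a) (p j) (p i) := haj.2.2.2 i hi' hia hij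
      have c3 : 0 < dt (p j) (p b) (p i) := hjb.2.2.2 i hi' hij hib
      have c4 : 0 < dt (p a) (p b) (p i) := by
        rcases (h.dt_ne haj.1 hjb.2.1 hi' hne.symm hia hib.symm).lt_or_gt with hneg | hpos
        · exfalso
          obtain ⟨y, hy0, hy⟩ := h.expo i hi'
          have hcr := cramer (p a) (p j) (p b) (p i)
          have e := congrArg (fun v => ip v y) hcr
          simp only [ip_add_left, ip_smul_left, hy0, mul_zero] at e
          have y1 := hy a haj.1 hia.symm
          have y2 := hy j hj hij.symm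
          have y3 := hy b hjb.2.1 hib.symm
          have w1 : dt (p i) (p j) (p b) = dt (p j) (p b) (p i) := by unfold dt; ring
          have w2 : dt (p a) (p i) (p b) = - dt (p a) (p b) (p i) := by unfold dt; ring
          rw [w1, w2] at e
          have z1 := mul_neg_of_pos_of_neg c3 y1
          have z2 := mul_neg_of_pos_of_neg (neg_pos.mpr hneg) y2
          have z3 := mul_neg_of_pos_of_neg c2 y3
          linarith
        · exact hpos
      have hcr := cramer (p a) (p b) (p i) (p j)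
      have c5 : 0 < dt (p j) (p b) (p i) := c3
      set E := dt (p a) (p b) (p i) with hE
      set lam := dt (p j) (p b) (p i) with hlam
      set mu := dt (p a) (p j) (p i) with hmu
      have hnu : dt (p a) (p b) (p j) = - dt (p a) (p j) (p b) := by unfold dt; ring
      rw [hnu] at hcr
      set nu := dt (p a) (p j) (p b) with hnu'
      refine ⟨1 + (lam * (eta a + 1) + mu * (eta b + 1) - nu * (eta i - 1)) / E,
        fun L hL y ya yb yj => ?_⟩
      have e := congrArg (fun v => ip v y) hcr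
      simp only [ip_add_left, ip_smul_left] at e
      have h1 : (lam * (eta a + 1) + mu * (eta b + 1) - nu * (eta i - 1)) / E ≤ L - 1 := by
        linarith
      rw [div_le_iff₀ c4] at h1
      have h2 := mul_le_mul_of_nonneg_left ya c5.le
      have h3 := mul_le_mul_of_nonneg_left yb c2.le
      have h4 := mul_le_mul_of_nonneg_left yj c4.le
      have h5 : nu * (ip (p i) y) ≤ nu * (eta i - 1) := by linarith
      have h6 := le_of_mul_le_mul_left h5 c1
      linarith
    choose! L0 hL0 using hL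
    obtain ⟨L, hLL⟩ : ∃ L, ∀ i ∈ S.erase j, L0 i ≤ L := by
      refine ⟨(S.erase j).sup' ⟨a, Finset.mem_erase.mpr ⟨haj.2.2.1, haj.1⟩⟩ L0,
        fun i hi => Finset.le_sup' L0 hi⟩
    refine ⟨Function.update eta j L, insert {a, j, b} tri, d, hd, hd1, ?_, ?_, ?_, ?_⟩
    · intro t ht
      rw [Finset.mem_insert] at ht
      rcases ht with rfl | ht
      · refine ⟨?_, ?_⟩
        · intro x hx
          simp only [Finset.mem_insert, Finset.mem_singleton] at hx
          rcases hx with rfl | rfl | rfl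
          · exact haj.1
          · exact hj
          · exact hjb.2.1
        · rw [Finset.card_insert_of_notMem, Finset.card_insert_of_notMem, Finset.card_singleton]
          · rw [Finset.mem_singleton]; exact hjb.2.2.1
          · rw [Finset.mem_insert, Finset.mem_singleton, not_or]
            exact ⟨haj.2.2.1, hne⟩
      · exact ⟨(t1 t ht).1.trans (Finset.erase_subset _ _), (t1 t ht).2⟩
    · intro i l hil
      by_cases hi : i = j
      · subst hi
        have := Side.unique_right hil hjb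
        subst this
        exact ⟨_, Finset.mem_insert_self _ _, by simp, by simp⟩
      by_cases hl : l = j
      · subst hl
        have := Side.unique_left hil haj
        subst this
        exact ⟨_, Finset.mem_insert_self _ _, by simp, by simp⟩
      obtain ⟨t, ht, h1, h2⟩ := ts i l ⟨Finset.mem_erase.mpr ⟨hi, hil.1⟩,
        Finset.mem_erase.mpr ⟨hl, hil.2.1⟩, hil.2.2.1,
        fun k hk hki hkl => hil.2.2.2 k (Finset.mem_of_mem_erase hk) hki hkl⟩
      exact ⟨t, Finset.mem_insert_of_mem ht, h1, h2⟩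
    · intro t ht i hi l hl
      rw [Finset.mem_insert] at ht
      rcases ht with rfl | ht
      · have k1 := hc _ _ haj
        have k2 := hc _ _ hjb
        have sa : ip (p a) (p a) ≤ ip (q a) (q a) := by
          rw [ip_self, ip_self, hp1 a haj.1, hq1 a haj.1]
        have sj : ip (p j) (p j) ≤ ip (q j) (q j) := by
          rw [ip_self, ip_self, hp1 j hj, hq1 j hj]
        have sb : ip (p b) (p b) ≤ ip (q b) (q b) := by
          rw [ip_self, ip_self, hp1 b hjb.2.1, hq1 b hjb.2.1]
        simp only [Finset.mem_insert, Finset.mem_singleton] at hi hl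
        rcases hi with rfl | rfl | rfl <;> rcases hl with rfl | rfl | rfl <;>
          first
          | assumption
          | (rw [ip_comm (p _), ip_comm (q _)]; assumption)
      · exact t2 t ht i hi l hl
    · intro y hy
      have ey : ∀ i ∈ S.erase j, Function.update eta j L i = eta i := fun i hi =>
        Function.update_of_ne (Finset.ne_of_mem_erase hi) _ _
      have hy' : ∀ i ∈ S.erase j, ip (p i) y - eta i ≤ d := fun i hi => by
        have := hy i (Finset.mem_of_mem_erase hi)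
        rwa [ey i hi] at this
      by_cases hcase : ip (p j) y - L ≤ -d
      · obtain ⟨t, ht, htt⟩ := t3 y hy'
        refine ⟨t, Finset.mem_insert_of_mem ht, fun i hi hit => ?_⟩
        by_cases hij : i = j
        · subst hij
          rw [Function.update_self]; exact hcase
        · have hi' := Finset.mem_erase.mpr ⟨hij, hi⟩
          rw [ey i hi']
          exact htt i hi' hit
      · push Not at hcase
        refine ⟨{a, j, b}, Finset.mem_insert_self _ _, fun i hi hit => ?_⟩
        simp only [Finset.mem_insert, Finset.mem_singleton, not_or] at hit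
        have hi' := Finset.mem_erase.mpr ⟨hit.2.1, hi⟩
        rw [ey i hi']
        have ha' := hy' a (Finset.mem_erase.mpr ⟨haj.2.2.1, haj.1⟩)
        have hb' := hy' b (Finset.mem_erase.mpr ⟨hjb.2.2.1.symm, hjb.2.1⟩)
        have := hL0 i hi' hit.1 hit.2.2 L (hLL i hi') y (by linarith) (by linarith) (by linarith)
        linarith

/-- LT: local heights and triangles of a contracted polygon -/
theorem LT {q : I → V3} {S : Finset I} (h : ConvPos p S)
    (hp1 : ∀ i ∈ S, nsq (p i) = 1) (hq1 : ∀ i ∈ S, nsq (q i) = 1)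
    (hc : ∀ i j, Side p S i j → ip (p i) (p j) ≤ ip (q i) (q j)) :
    ∃ (eta : I → ℝ) (tri : Finset (Finset I)) (d : ℝ), 0 < d ∧
      (∀ t ∈ tri, t ⊆ S ∧ t.card = 3) ∧
      (∀ i j, Side p S i j → ∃ t ∈ tri, i ∈ t ∧ j ∈ t) ∧
      (∀ i, i ∉ S → eta i = 0) ∧
      (∀ t ∈ tri, ∀ i ∈ t, ∀ j ∈ t, ip (p i) (p j) ≤ ip (q i) (q j)) ∧
      (∀ y : V3, (∀ i ∈ S, ip (p i) y - eta i ≤ d) →
        ∃ t ∈ tri, ∀ i ∈ S, i ∉ t → ip (p i) y - eta i ≤ -d) := by
  have := h.card
  obtain ⟨eta, tri, d, hd, hd1, t1, ts, t2, t3⟩ :=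
    LT_aux (q := q) (S.card - 3) S (by omega) h hp1 hq1 hc
  refine ⟨fun i => if i ∈ S then eta i else 0, tri, d, hd, t1, ts, fun i hi => by simp [hi],
    t2, ?_⟩
  intro y hy
  obtain ⟨t, ht, htt⟩ := t3 y (fun i hi => by have := hy i hi; simpa [hi] using this)
  exact ⟨t, ht, fun i hi hit => by simpa [hi] using htt i hi hit⟩

end N9
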