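import Pool.Agent.Helper24.N9.PctAn
import Pool.Agent.Helper66.N9.An

/-! MP_9b91d1_co: the polytope contraction theorem (helper24). -/

namespace N9

theorem pct : ST_PCT := pct_of_an an

end N9
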