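import Pool.Agent.Helper24.N9.Deg3
import Pool.Agent.Helper67.N9.FullCx

/-! MP_9b91d1_co: the planar case (helper24). -/

open scoped RealInnerProductSpace Topology

namespace Pool.Agent.Helper30.N9

/-- inverse rotation -/
theorem det_symm_one {R : E3 ≃ₗᵢ[ℝ] E3}
    (h : LinearMap.det (R.toLinearEquiv : E3 →ₗ[ℝ] E3) = 1) :
    LinearMap.det (R.symm.toLinearEquiv : E3 →ₗ[ℝ] E3) = 1 := by
  have h1 : (R.symm.toLinearEquiv : E3 →ₗ[ℝ] E3) ∘ₗ (R.toLinearEquiv : E3 →ₗ[ℝ] E3)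
      = LinearMap.id := by
    ext x
    simp
  have h2 := congrArg LinearMap.det h1
  rw [LinearMap.det_comp, h, mul_one, LinearMap.det_id] at h2
  exact h2

theorem ang_rot (R : E3 ≃ₗᵢ[ℝ] E3) (a b : E3) : ang (R a) (R b) = ang a b := by
  unfold ang
  rw [R.inner_map_map]

namespace PlaneGraph

variable {V : Type} [Fintype V] [DecidableEq V] {M : PlaneGraph V}

theorem conn_of_c3 (h3 : M.Conn3) : M.G.Connected := by
  have h1 := h3.2 ∅ (by simp)
  exact (SimpleGraph.Iso.connected_iff (G := M.G.induce {v | v ∉ (∅ : Finset V)})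
    (H := M.G) ⟨(Equiv.subtypeUnivEquiv (by simp) :
      {v : V // v ∈ ({v | v ∉ (∅ : Finset V)} : Set V)} ≃ V), by
        intro a b
        rfl⟩).mp h1

/-- turn q back by R -/
theorem turn (rot : ST_ROT) {p q : V → E3} {h' : M.Face → E3} (hq : M.Std q h')
    (hle : M.Le q p) {R : E3 ≃ₗᵢ[ℝ] E3}
    (hR : LinearMap.det (R.toLinearEquiv : E3 →ₗ[ℝ] E3) = 1) :
    ∃ h'' : M.Face → E3, M.Std (fun v => R.symm (q v)) h'' ∧ M.Le (fun v => R.symm (q v)) p := by
  have h1 : M.InC (fun v => R.symm (q v)) := rot V M q R.symm (det_symm_one hR) hq.inc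
  obtain ⟨h'', hc, -⟩ := h1.cen
  refine ⟨h'', ⟨hq.c3, hq.per, h1, hc⟩, ?_⟩
  intro d
  show ang (R.symm (q d.fst)) (R.symm (q d.snd)) ≤ _
  rw [ang_rot]
  exact hle d

end PlaneGraph

theorem t1_of (fan1 : ST_FAN1) (e0v : ST_E0V) (fl : ST_FL) (gap1 : ST_GAP1) (nom1 : ST_NOM1)
    (ne0 : ST_NE0) (swing : ST_SWING) (tq : ST_TQ) (fana : ST_FANA) (rot : ST_ROT)
    (mml : ST_MML) : ST_T1 := by
  intro V _ _ M p q h h' a om hp hq hloc hle ha hw heq hmer hind hmax
  have hconn := PlaneGraph.conn_of_c3 hp.c3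
  obtain ⟨L, l, s, t, hF, hE⟩ := fan1 V M p h a om hp hconn ha hw heq hmer hind
  obtain ⟨v0, hv0, hvs, hvt⟩ := e0v V M L p a l s t hp.inc hF
  obtain ⟨k, th, r, lam, hL, -⟩ := fl V M L p h a l s t hp hF v0 hv0 hvs hvt
  have hgap := gap1 V M L p h a l s t k th r lam om hp hF hL hw heq hE hind
  have hno := nom1 V M L p h a l s t k th r lam om hp hF hL hw heq hE hgap hmax
  obtain ⟨om', hS⟩ := swing V M L p a l s t hloc hF (ne0 V M L p h a l s t k th r lam hp hF hL)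
  have htq := tq V M L p h a l s t k th r lam om' hp hF hL hS hno
  obtain ⟨R, hR, hRv⟩ := fana V M L p q h h' a l s t k th r lam om' hp hq hloc hle hF hL hS hgap
    htq
  obtain ⟨h'', hq'', hle''⟩ := PlaneGraph.turn rot hq hle hR
  refine ⟨R, hR, ?_⟩
  intro v
  obtain ⟨e, he⟩ := PlaneGraph.exists_dart_at hp.c3 hp.inc v
  obtain ⟨i, hi, hli⟩ := hL.lams (M.fc e)
  have h1 := mml V M L p (fun v => R.symm (q v)) h a l s t k th r lam hp hloc
    (fun v => hq''.inc.unit v) hle'' hF hL (fun v hv => by rw [hRv v hv]; simp) i hi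
    (hgap i hi) (hno i hi) e hli
  rw [he] at h1
  have h2 := congrArg R h1
  simpa using h2

end Pool.Agent.Helper30.N9
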