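import Pool.Agent.Helper24.N9.Final
import Pool.Agent.Helper24.N9.PctFinal
import Pool.Agent.Helper26.N9.Ccov
import Pool.Agent.Helper26.N9.Cut1
import Pool.Agent.Helper26.N9.FiveB
import Pool.Agent.Helper26.N9.Qc
import Pool.Agent.Helper26.N9.XCell
import Pool.Agent.Helper27.N9.E0v
import Pool.Agent.Helper27.N9.Fan1
import Pool.Agent.Helper27.N9.Lh
import Pool.Agent.Helper27.N9.Xc
import Pool.Agent.Helper29.N9.Cseq
import Pool.Agent.Helper29.N9.Lift
import Pool.Agent.Helper29.N9.XC4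
import Pool.Agent.Helper30.N9.CRows
import Pool.Agent.Helper30.N9.CellK
import Pool.Agent.Helper30.N9.Cx9
import Pool.Agent.Helper30.N9.Hub
import Pool.Agent.Helper33.N9.Ch
import Pool.Agent.Helper47.N9.HubStr
import Pool.Agent.Helper47.N9.Noml
import Pool.Agent.Helper48.N9.Innr
import Pool.Agent.Helper48.N9.Spure
import Pool.Agent.Helper51.N9.Mmh
import Pool.Agent.Helper67.N9.Deg1A
import Pool.Agent.Helper67.N9.FullCx
import Pool.Agent.Helper67.N9.Potf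
import Pool.Agent.Helper67.N9.Tq2
import Pool.Agent.Helper72.N9.Cutl
import Pool.Agent.Helper72.N9.D1e
import Pool.Agent.Helper72.N9.FiveC
import Pool.Agent.Helper72.N9.Mml
import Pool.Agent.Helper72.N9.Mmt
import Pool.Agent.Helper72.N9.Shear
import Pool.Agent.Helper74.N9.Deg1a
import Pool.Agent.Helper74.N9.Fl2
import Pool.Agent.Helper74.N9.Ha
import Pool.Agent.Helper74.N9.Open
import Pool.Agent.Helper74.N9.Reg
import Pool.Agent.Helper89.N9.Hub
import Pool.Agent.Helper89.N9.Op1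
import Pool.Agent.Helper89.N9.Op2
import Pool.Agent.Helper93.N9.A5
import Pool.Agent.Helper93.N9.Cls
import Pool.Agent.Helper93.N9.Fana
import Pool.Agent.Helper93.N9.Gap1
import Pool.Agent.Helper93.N9.Rays
import Pool.Agent.Helper93.N9.Rcut
import Pool.Agent.Helper93.N9.Reg1
import Pool.Agent.Helper93.N9.Scut
import Pool.Agent.Helper97.N9.Farkas
import Pool.Agent.Helper97.N9.Flip
import Pool.Agent.Helper97.N9.Nom1
import Pool.Agent.Helper97.N9.Swing

/-! MP_9b91d1_co: Q1 for every vertex 3-connected plane graph (assembly of all rows, helper24). -/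

namespace Pool.Agent.Helper30.N9

theorem r_farkas : ST_FARKAS := st_FARKAS N9Open.st_OPEN

theorem r_xc5 : ST_XC5 := N9X.xc5 Pool.Agent.Helper27.N9.st_XC1 Pool.Agent.Helper27.N9.st_XC2
  Pool.Agent.Helper27.N9.st_XC3 Pool.Agent.Helper29.N9.st_XC4

theorem r_xc6 : ST_XC6 := N9X.xc6 Pool.Agent.Helper27.N9.st_XC1 Pool.Agent.Helper27.N9.st_XC2
  Pool.Agent.Helper29.N9.st_XC4 r_xc5 Pool.Agent.Helper29.N9.st_XSPANBD

theorem r_xc7 : ST_XC7 := N9X.xc7 r_xc5 r_xc6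

theorem r_hub : ST_HUB := st_HUB N9.pct H89Hub.hubcx st_HUBSTR lift r_xc7

theorem r_c1 : ST_C1 := st_C1 Pool.Agent.Helper27.N9.st_XC1
theorem r_c2 : ST_C2 := st_C2 Pool.Agent.Helper27.N9.st_XC2
theorem r_c4 : ST_C4 := st_C4 Pool.Agent.Helper29.N9.st_XC4
theorem r_c7 : ST_C7 := st_C7 r_xc7
theorem r_spanbd : ST_SPANBD := st_SPANBD Pool.Agent.Helper29.N9.st_XSPANBD

theorem r_fiveb : ST_FIVEB := N9Cell.fiveb r_hub st_FLIP st_A5 r_farkas N9Ha.st_HA r_c1 r_c2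
  r_c4 r_spanbd

theorem r_fivec : ST_FIVEC := fivec (st_SP N9.pct) st_CELLK fullcx r_fiveb r_farkas r_c7

theorem r_hubf : ST_HUBF := hubf_of r_hub r_fiveb

theorem r_main3 : ST_MAIN3 := main3_of r_fivec lift

theorem r_half : ST_HALF := st_HALF st_REG1 N9Ha.st_REG3
theorem r_maxt : ST_MAXT := st_MAXT r_half
theorem r_fan1 : ST_FAN1 := st_FAN1 lift r_maxt st_VCL N9Deg.st_AXV
theorem r_fl : ST_FL := N9Fl.fl r_half st_REG1 st_RAYS
theorem r_tq : ST_TQ := st_TQ shear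
theorem r_potf : ST_POTF := st_POTF N9Deg.st_POT0
theorem r_lh : ST_LH := st_LH r_hubf r_potf
theorem r_op1 : ST_OP1 := st_OP1 st_CH r_lh
theorem r_op2 : ST_OP2 := st_OP2 r_lh
theorem r_fana : ST_FANA := st_FANA N9Ha.st_REG4 st_CH st_QR r_op1 r_op2
theorem r_mmt : ST_MMT := mmt r_farkas
theorem r_mml : ST_MML := mml r_mmt shear

theorem r_t1 : ST_T1 := t1_of r_fan1 st_E0V r_fl st_GAP1 st_NOM1 st_NE0 st_SWING r_tq r_fana
  N9Deg.st_ROT r_mml

theorem r_ccov : ST_CCOV := N9Q.ccov st_CSEQ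
theorem r_cni : ST_CNI := N9Q.cni r_ccov
theorem r_d1e : ST_D1E := st_D1E lift r_maxt st_VCL st_FCV
theorem r_qc : ST_QC := N9Q.qc st_CSEQ
theorem r_spure : ST_SPURE := st_SPURE r_farkas st_INNR st_POTC r_hubf
theorem r_cut1 : ST_CUT1 := N9Q.cut1 st_CSEQ st_POTC lift r_maxt st_VCL N9Deg.st_AXV maxs
theorem r_noml : ST_NOML := Pool.Agent.Helper47.N9Noml.st_NOML r_ccov r_cni N9Deg.st_AXV
theorem r_cutl : ST_CUTL := st_CUTL r_fl r_ccov r_cni
theorem r_scut : ST_SCUT := st_SCUT N9Ha.st_REG2 N9Ha.st_REG4 st_CH st_QR st_SWING st_NE0 r_tq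
  r_op1 r_op2 r_cutl
theorem r_mmh : ST_MMH := st_MMH r_ccov r_mmt
theorem r_rcut : ST_RCUT := st_RCUT st_QR st_SWING st_NE0 r_tq r_op2 r_cutl r_mml

theorem r_t2 : ST_T2 := t2_of r_d1e st_CSEQ r_ccov st_REG1 N9Ha.st_REG3 N9Ha.st_REG4 r_qc
  r_spure r_cut1 r_noml r_scut r_mmh r_rcut N9Deg.st_ROT

theorem q1 : ∀ (V : Type) [Fintype V] [DecidableEq V] (M : PlaneGraph V), M.Conn3 → M.Q1 :=
  q1_of r_main3 r_t1 r_t2 st_CLS maxs r_farkas

end Pool.Agent.Helper30.N9
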