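import Pool.Agent.Helper24.N9.Pct2

/-! MP_9b91d1_co: PCT from AN and GEO. -/

namespace N9

open scoped Quaternion

theorem pct_of (an : ST_AN) (g0 : ST_G0) (g1 : ST_G1) (g5 : ST_G5) (g6 : ST_G6)
    (g7 : ST_G7) : ST_PCT := by
  intro I K _ _ _ _ p q h x hP hq hc g hg1 hg2 hA
  have hcp := g0 I K p h x hP
  have hLT : ∀ k, ∃ (eta : I → ℝ) (tri : Finset (Finset I)) (d : ℝ), 0 < d ∧
      (∀ t ∈ tri, t ⊆ actAt p h (x k) ∧ t.card = 3) ∧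
      (∀ i j, Side p (actAt p h (x k)) i j → ∃ t ∈ tri, i ∈ t ∧ j ∈ t) ∧
      (∀ i, i ∉ actAt p h (x k) → eta i = 0) ∧
      (∀ t ∈ tri, ∀ i ∈ t, ∀ j ∈ t, ip (p i) (p j) ≤ ip (q i) (q j)) ∧
      (∀ y : V3, (∀ i ∈ actAt p h (x k), ip (p i) y - eta i ≤ d) →
        ∃ t ∈ tri, ∀ i ∈ actAt p h (x k), i ∉ t → ip (p i) y - eta i ≤ -d) := fun k =>
    LT (hcp k) (fun i _ => hP.unit i) (fun i _ => hq i)
      (fun i j hs => hc k (i, j) (mem_sides.mpr hs))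
  choose eta tri d hd l1 l2 l3 l4 l5 using hLT
  refine an I K ⟨p, q, h, x, eta, tri⟩ ⟨hP.unit, hq, hP.hpos, hP.bdd⟩ ⟨?_, ?_⟩ l4
    (a3_of hP g1 tri l2 q eta) ?_ hP.facet ?_
  · intro k t ht i hi
    exact mem_actAt.mp ((l1 k t ht).1 hi)
  · intro k i hi
    exact l3 k i (fun hm => hi (mem_actAt.mp hm))
  · intro k
    refine ⟨d k, hd k, fun y hy => ?_⟩
    obtain ⟨t, ht, h2⟩ := l5 k y (fun i hi => hy i (mem_actAt.mp hi))
    exact ⟨t, ht, fun i hi hit => h2 i (mem_actAt.mpr hi) hit⟩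
  · exact a6_of hP Top.top_proof g5 g6 g7 hq hg1 hg2 hA eta tri
      (fun k t ht i hi => (l1 k t ht).1 hi)

end N9
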