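import Pool.Agent.Helper24.N9.Stm
import Pool.Agent.Helper66.N9.AnStmt

/-! MP_9b91d1_co: assembly of PCT, part 1 (A3, A4). -/

namespace N9

theorem exists_pos_lb {ι : Type*} [Finite ι] (f : ι → ℝ) (h : ∀ i, 0 < f i) :
    ∃ c : ℝ, 0 < c ∧ ∀ i, c ≤ f i := by
  have := Fintype.ofFinite ι
  rcases isEmpty_or_nonempty ι with he | he
  · exact ⟨1, one_pos, fun i => he.elim i⟩
  · obtain ⟨i, hi⟩ := Finite.exists_min f
    exact ⟨f i, h i, hi⟩

theorem ip_le_of_nsq {P v : V3} {r : ℝ} (hP : nsq P = 1) (hr : 0 < r) (hv : nsq v < r ^ 2) :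
    ip P v ≤ r := by
  have hcs : (ip P v) ^ 2 ≤ nsq P * nsq v := by
    simp only [ip_eq, nsq_eq]
    nlinarith [sq_nonneg (P 0 * v 1 - P 1 * v 0),
      sq_nonneg (P 0 * v 2 - P 2 * v 0), sq_nonneg (P 1 * v 2 - P 2 * v 1)]
  rw [hP, one_mul] at hcs
  nlinarith

section
variable {I K : Type} [Fintype I] [DecidableEq I] [Fintype K] [DecidableEq K]
  {p : I → V3} {h : I → ℝ} {x : K → V3}

theorem mem_actAt {y : V3} {i : I} : i ∈ actAt p h y ↔ ip (p i) y = h i := by
  unfold actAt; simp

theorem mem_sides {k : K} {e : I × I} : e ∈ sides p h x k ↔ Side p (actAt p h (x k)) e.1 e.2 := by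
  unfold sides; simp

theorem a3_of (hP : Poly p h x) (g1 : ST_G1) (tri : K → Finset (Finset I))
    (ht : ∀ k i j, Side p (actAt p h (x k)) i j → ∃ t ∈ tri k, i ∈ t ∧ j ∈ t)
    (q : I → V3) (eta : K → I → ℝ) :
    AData.A3 (⟨p, q, h, x, eta, tri⟩ : AData I K) := by
  obtain ⟨r0, hr0, h0⟩ := exists_pos_lb
    (fun z : {z : K × K // z.1 ≠ z.2} => Real.sqrt (nsq (x z.1.1 - x z.1.2)) / 4) (fun z => by
      have h1 : x z.1.1 - x z.1.2 ≠ 0 := sub_ne_zero.mpr (fun h => z.2 (hP.inj h))
      have := Real.sqrt_pos.mpr (nsq_pos h1)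
      positivity)
  obtain ⟨γ, hγ, h1⟩ := exists_pos_lb
    (fun z : {z : K × I // ip (p z.2) (x z.1) ≠ h z.2} => h z.1.2 - ip (p z.1.2) (x z.1.1))
    (fun z => by
      have := hP.mem z.1.1 z.1.2
      have := lt_of_le_of_ne this z.2
      linarith)
  set r := min r0 (γ / 4) with hr
  have hrpos : 0 < r := lt_min hr0 (by linarith)
  obtain ⟨d1, hd1, hG⟩ := g1 I K p h x hP r hrpos
  refine ⟨r, hrpos, min d1 (γ / 2), lt_min hd1 (by linarith), ?_, ?_⟩
  · intro k k' hkk
    have h2 := h0 ⟨(k, k'), hkk⟩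
    simp only at h2
    have h3 : 4 * r ≤ Real.sqrt (nsq (x k - x k')) := by
      have := min_le_left r0 (γ / 4)
      linarith
    calc (4 * r) ^ 2 ≤ (Real.sqrt (nsq (x k - x k'))) ^ 2 := by
          apply pow_le_pow_left₀ (by positivity) h3
      _ = _ := Real.sq_sqrt (nsq_nonneg _)
  · intro y hy
    have hd1' := min_le_left d1 (γ / 2)
    have hd2' := min_le_right d1 (γ / 2)
    rcases hG y (fun i => (hy i).trans hd1') with ⟨k, hk1, hk2⟩ | ⟨k, e, he, hk2⟩
    · left
      refine ⟨k, hk1, fun i hi => ?_⟩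
      have := hk2 i (fun hm => hi (mem_actAt.mp hm))
      simp only
      linarith
    · right
      obtain ⟨t, htt, h3, h4⟩ := ht k e.1 e.2 (mem_sides.mp he)
      refine ⟨k, t, htt, t.filter (fun i => (i = e.1 ∨ i = e.2) ∧ -(min d1 (γ / 2)) < ip (p i) y - h i),
        Finset.filter_subset _ _, ?_, ?_⟩
      · intro i hi
        simp only
        rw [Finset.mem_filter, not_and] at hi
        by_cases h5 : i = e.1 ∨ i = e.2
        · have h6 : i ∈ t := by rcases h5 with rfl | rfl <;> assumption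
          have := hi h6
          rw [not_and] at this
          have := this h5
          push Not at this
          exact this
        · rw [not_or] at h5
          have := hk2 i h5.1 h5.2
          linarith
      · intro k' hk' i hi
        simp only at hk' ⊢
        rw [Finset.mem_filter] at hi
        by_contra hcon
        have h7 := h1 ⟨(k', i), hcon⟩
        simp only at h7
        have h8 := ip_le_of_nsq (hP.unit i) (by linarith : 0 < 2 * r) hk'
        rw [ip_sub_right] at h8
        have h9 := min_le_right r0 (γ / 4)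
        have h10 := hi.2.2
        linarith

end

end N9
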