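import Pool.Agent.Helper24.N9.Top6

/-! MP_9b91d1_co: block TOP, the gauge is null-homotopic; proof of ST_TOP. -/

namespace N9.Top

open Pool.Agent.Helper30.N9
open scoped Quaternion RealInnerProductSpace Topology Manifold ContDiff unitInterval

abbrev XX : Type := {v : E3 // v ≠ 0}
abbrev YY : Type := {q : ℍ[ℝ] // q ≠ 0}

/-- straight line homotopy -/
theorem homotopic_line {X : Type*} [TopologicalSpace X] (f g : C(X, YY))
    (h : ∀ t : ℝ, 0 ≤ t → t ≤ 1 → ∀ x, (1 - t) • (f x).1 + t • (g x).1 ≠ 0) :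
    ContinuousMap.Homotopic f g := by
  refine ⟨⟨⟨fun z => ⟨(1 - (z.1 : ℝ)) • (f z.2).1 + (z.1 : ℝ) • (g z.2).1,
    h z.1 z.1.2.1 z.1.2.2 z.2⟩, ?_⟩, ?_, ?_⟩⟩
  · apply Continuous.subtype_mk
    fun_prop
  · intro x; apply Subtype.ext; simp
  · intro x; apply Subtype.ext; simp

/-- spherical coordinates -/
noncomputable def sph (α γ : ℝ) : E3 :=
  !₂[Real.cos α * Real.cos γ, Real.sin α * Real.cos γ, Real.sin γ]

theorem exists_sph {n : E3} (hn : ‖n‖ = 1) : ∃ α γ, n = sph α γ := by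
  have h1 := inner_self_one hn
  rw [inner_def] at h1
  have h2 : n 2 ^ 2 ≤ 1 := by nlinarith [mul_self_nonneg (n 0), mul_self_nonneg (n 1)]
  have h3 := abs_le.mp (abs_le_one_iff_mul_self_le_one.mpr (by linarith [sq (n 2)] : n 2 * n 2 ≤ 1))
  have e1 : Real.sin (Real.arcsin (n 2)) = n 2 := Real.sin_arcsin h3.1 h3.2
  have e2 : Real.cos (Real.arcsin (n 2)) = Real.sqrt (1 - n 2 ^ 2) := Real.cos_arcsin _
  set z : ℂ := ⟨n 0, n 1⟩ with hz
  have e3 : ‖z‖ = Real.sqrt (1 - n 2 ^ 2) := by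
    rw [Complex.norm_def, Complex.normSq_apply, hz]
    congr 1
    simp only
    linarith
  have k1 := Complex.norm_mul_cos_arg z
  have k2 := Complex.norm_mul_sin_arg z
  refine ⟨z.arg, Real.arcsin (n 2), ?_⟩
  ext i
  fin_cases i
  · simp [sph, e2, ← e3]
    rw [mul_comm]; exact k1.symm
  · simp [sph, e2, ← e3]
    rw [mul_comm]; exact k2.symm
  · simp [sph, e1]

theorem exists_missed (g : E3 → ℍ[ℝ]) (hg : ContDiff ℝ 1 g) :
    ∃ c : ℍ[ℝ], c ≠ 0 ∧ ∀ (r : ℝ) (n : E3), ‖n‖ = 1 → c ≠ r • g n := by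
  let G : (Fin 3 → ℝ) → ℍ[ℝ] := fun x => x 2 • g (sph (x 0) (x 1))
  have hs : ContDiff ℝ 1 (fun x : Fin 3 → ℝ => sph (x 0) (x 1)) := by
    unfold sph
    rw [contDiff_euclidean]
    intro i
    fin_cases i
    · simp
      exact (Real.contDiff_cos.comp (contDiff_apply ℝ ℝ 0)).mul
        (Real.contDiff_cos.comp (contDiff_apply ℝ ℝ 1))
    · simp
      exact (Real.contDiff_sin.comp (contDiff_apply ℝ ℝ 0)).mul
        (Real.contDiff_cos.comp (contDiff_apply ℝ ℝ 1))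
    · simp
      exact (Real.contDiff_sin.comp (contDiff_apply ℝ ℝ 1))
  have hG : ContDiff ℝ 1 G := (contDiff_apply ℝ ℝ 2).smul (hg.comp hs)
  have hrank : Module.finrank ℝ (Fin 3 → ℝ) < Module.finrank ℝ ℍ[ℝ] := by
    rw [Module.finrank_fin_fun, Quaternion.finrank_eq_four]; norm_num
  have hd := hG.dense_compl_range_of_finrank_lt_finrank hrank
  obtain ⟨c, hc⟩ := hd.nonempty
  refine ⟨c, ?_, ?_⟩
  · rintro rfl
    apply hc
    exact ⟨0, by simp [G]⟩
  · intro r n hn h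
    obtain ⟨α, γ, rfl⟩ := exists_sph hn
    apply hc
    exact ⟨![α, γ, r], by simp [G, h]⟩

/-- smooth approximation on the sphere -/
theorem exists_smooth (f : C(XX, YY)) (hf : ∀ x, ‖(f x).1‖ = 1) :
    ∃ g : E3 → ℍ[ℝ], ContDiff ℝ 1 g ∧ ∀ x : XX, ‖x.1‖ = 1 → ‖g x.1 - (f x).1‖ < 1 / 2 := by
  classical
  let F : E3 → ℍ[ℝ] := fun v => if h : v ≠ 0 then ‖v‖ • (f ⟨v, h⟩).1 else 0
  have hFc : Continuous F := by
    rw [continuous_iff_continuousAt]
    intro v
    by_cases hv : v = 0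
    · subst hv
      have h0 : F 0 = 0 := by simp [F]
      unfold ContinuousAt
      rw [h0]
      refine squeeze_zero_norm (a := fun y => ‖y‖) ?_ ?_
      · intro y
        by_cases hy : y = 0
        · subst hy; simp [F]
        · simp only [F, dif_pos hy]
          rw [norm_smul, hf, mul_one, norm_norm]
      · have := (continuous_norm (E := E3)).continuousAt (x := 0)
        unfold ContinuousAt at this
        simpa using this
    · have h1 : ContinuousOn F {v | v ≠ 0} := by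
        rw [continuousOn_iff_continuous_domRestrict]
        have : (fun x : XX => F x.1) = fun x : XX => ‖x.1‖ • (f x).1 := by
          funext x
          exact dif_pos x.2
        change Continuous (fun x : XX => F x.1)
        rw [this]
        fun_prop
      exact h1.continuousAt (isOpen_ne.mem_nhds hv)
  obtain ⟨g, hg⟩ := exists_contMDiffMap_forall_mem_convex_of_local_const (n := 1)
    (𝓘(ℝ, E3)) (t := fun v => Metric.ball (F v) (1 / 2)) (fun v => convex_ball _ _)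
    (fun v => ⟨F v, by
      have h1 : ∀ᶠ y in 𝓝 v, dist (F y) (F v) < 1 / 2 :=
        Metric.tendsto_nhds.mp hFc.continuousAt (1 / 2) (by norm_num)
      filter_upwards [h1] with y hy
      rw [Metric.mem_ball, dist_comm]; exact hy⟩)
  refine ⟨g, g.contMDiff.contDiff, fun x hx => ?_⟩
  have := hg x.1
  rw [Metric.mem_ball, dist_eq_norm] at this
  have e : F x.1 = (f x).1 := by
    simp only [F]
    rw [dif_pos x.2, hx, one_smul]
  rwa [e] at this

/-- every map of `E3 \ 0` to the unit quaternions is homotopic to 1 -/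
theorem null_homotopic (f : C(XX, YY)) (hf : ∀ x, ‖(f x).1‖ = 1) :
    ContinuousMap.Homotopic f (ContinuousMap.const XX ⟨1, one_ne_zero⟩) := by
  obtain ⟨g, hg, hgf⟩ := exists_smooth f hf
  obtain ⟨c, hc0, hc⟩ := exists_missed g hg
  -- retraction to the sphere
  let R : C(XX, XX) := ⟨fun x => ⟨nrm x.1, by
    intro h
    have := norm_nrm x.2
    rw [h] at this
    simp at this⟩, by
      apply Continuous.subtype_mk
      rw [continuous_iff_continuousAt]
      intro x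
      exact (continuousAt_nrm x.2).comp continuous_subtype_val.continuousAt⟩
  have hR : ∀ x, ‖(R x).1‖ = 1 := fun x => norm_nrm x.2
  -- f ~ f ∘ R
  have h1 : ContinuousMap.Homotopic f (f.comp R) := by
    have hid : ContinuousMap.Homotopic (ContinuousMap.id XX) R := by
      refine ⟨⟨⟨fun z => ⟨((1 - (z.1 : ℝ)) + (z.1 : ℝ) * ‖z.2.1‖⁻¹) • z.2.1, ?_⟩, ?_⟩, ?_, ?_⟩⟩
      · rw [smul_ne_zero_iff]
        refine ⟨?_, z.2.2⟩
        have h2 : 0 < ‖z.2.1‖⁻¹ := inv_pos.mpr (norm_pos_iff.mpr z.2.2)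
        have h3 := z.1.2.1
        have h4 := z.1.2.2
        rcases h3.eq_or_lt with h | h
        · rw [← h]; norm_num
        · have := mul_pos h h2
          have : 0 < (1 - (z.1 : ℝ)) + (z.1 : ℝ) * ‖z.2.1‖⁻¹ := by linarith
          exact this.ne'
      · apply Continuous.subtype_mk
        have : Continuous (fun z : I × XX => ‖z.2.1‖⁻¹) :=
          Continuous.inv₀ (by fun_prop) (fun z => norm_ne_zero_iff.mpr z.2.2)
        fun_prop
      · intro x; apply Subtype.ext; simp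
      · intro x; apply Subtype.ext; simp [R, nrm]
    have := (ContinuousMap.Homotopic.refl f).comp hid
    simpa using this
  -- f ∘ R ~ g ∘ R
  have hg0 : ∀ x : XX, g (R x).1 ≠ 0 := by
    intro x h
    have := hgf (R x) (hR x)
    rw [h, zero_sub, norm_neg, hf] at this
    norm_num at this
  let gR : C(XX, YY) := ⟨fun x => ⟨g (R x).1, hg0 x⟩, by
    apply Continuous.subtype_mk
    exact hg.continuous.comp (continuous_subtype_val.comp R.continuous)⟩
  have h2 : ContinuousMap.Homotopic (f.comp R) gR := by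
    apply homotopic_line
    intro t ht0 ht1 x h
    have h3 := hgf (R x) (hR x)
    have h4 := hf (R x)
    have e : (f (R x)).1 = - (t • (g (R x).1 - (f (R x)).1)) := by
      have : (1 - t) • (f (R x)).1 + t • g (R x).1 = 0 := h
      rw [sub_smul, one_smul] at this
      rw [smul_sub, neg_sub]
      calc (f (R x)).1 = ((f (R x)).1 - t • (f (R x)).1 + t • g (R x).1)
            + (t • (f (R x)).1 - t • g (R x).1) := by abel
        _ = _ := by rw [this, zero_add]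
    have := congrArg norm e
    rw [norm_neg, norm_smul, h4, Real.norm_of_nonneg ht0] at this
    nlinarith [norm_nonneg (g (R x).1 - (f (R x)).1)]
  -- g ∘ R ~ c
  have h3 : ContinuousMap.Homotopic gR (ContinuousMap.const XX ⟨c, hc0⟩) := by
    apply homotopic_line
    intro t ht0 ht1 x h
    have h' : (1 - t) • g (R x).1 + t • c = 0 := h
    rcases ht0.eq_or_lt with h4 | h4
    · rw [← h4] at h'
      simp at h'
      exact hg0 x h'
    · apply hc (-((1 - t) / t)) (R x).1 (hR x)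
      have : t • c = t • (-((1 - t) / t)) • g (R x).1 := by
        rw [smul_smul]
        have e : t * (-((1 - t) / t)) = -(1 - t) := by field_simp
        rw [e, neg_smul]
        exact eq_neg_of_add_eq_zero_right h'
      exact smul_right_injective _ h4.ne' this
  -- c ~ 1
  have h4 : ContinuousMap.Homotopic (ContinuousMap.const XX (⟨c, hc0⟩ : YY))
      (ContinuousMap.const XX ⟨1, one_ne_zero⟩) := by
    have hr : 1 < Module.rank ℝ ℍ[ℝ] := by
      rw [Quaternion.rank_eq_four]; norm_num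
    have hp := (isPathConnected_compl_singleton_of_one_lt_rank hr (0 : ℍ[ℝ])).joinedIn c hc0
      1 one_ne_zero
    obtain ⟨γ, hγ⟩ := hp
    refine ⟨⟨⟨fun z => ⟨γ z.1, hγ z.1⟩, ?_⟩, ?_, ?_⟩⟩
    · apply Continuous.subtype_mk
      exact γ.continuous.comp continuous_fst
    · intro x; apply Subtype.ext; simp
    · intro x; apply Subtype.ext; simp
  exact ((h1.trans h2).trans h3).trans h4

/-- imaginary part as a vector -/
noncomputable def vec (q : ℍ[ℝ]) : E3 := !₂[q.imI, q.imJ, q.imK]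

theorem vec_qi (v : E3) : vec (qi v) = v := by
  ext i; fin_cases i <;> simp [vec]

theorem vec_smul (r : ℝ) (q : ℍ[ℝ]) : vec (r • q) = r • vec q := by
  ext i; fin_cases i <;> simp [vec]

theorem continuous_vec : Continuous vec := by
  unfold vec
  have h1 := Quaternion.continuous_imI
  have h2 := Quaternion.continuous_imJ
  have h3 := Quaternion.continuous_imK
  apply (PiLp.continuous_toLp 2 _).comp
  apply continuous_pi
  intro i
  fin_cases i
  · exact h1
  · exact h2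
  · exact h3

theorem qi_vec {q : ℍ[ℝ]} (h : q.re = 0) : qi (vec q) = q := by
  ext
  · simp [h]
  · simp [vec]
  · simp [vec]
  · simp [vec]

/-- conjugation of an imaginary quaternion is imaginary -/
theorem conj_re (q : ℍ[ℝ]) (v : E3) : (star q * qi v * q).re = 0 := by
  simp; ring

theorem conj_norm (q : ℍ[ℝ]) (v : E3) : ‖star q * qi v * q‖ = ‖q‖ ^ 2 * ‖v‖ := by
  rw [norm_mul, norm_mul, norm_star, qi_norm]; ring

theorem top_proof : ST_TOP := by
  intro N _ _ T a b β hT hF hb hpb hA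
  obtain ⟨Ψ, θ, hG⟩ := exists_gau hT hF.unit hb hF.point hpb hA
  let f : C(XX, YY) := ⟨fun x => ⟨Psi a b β Ψ θ x.1, by
    intro h
    have := Psi_norm hF hG x.2
    rw [h] at this
    simp at this⟩, by
      apply Continuous.subtype_mk
      rw [continuous_iff_continuousAt]
      intro x
      exact (continuousAt_Psi hF hG x.2).comp continuous_subtype_val.continuousAt⟩
  have hf : ∀ x, ‖(f x).1‖ = 1 := fun x => Psi_norm hF hG x.2
  obtain ⟨Φ⟩ := null_homotopic f hf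
  classical
  -- H t v
  let c : ℝ → E3 → ℝ := fun t v => (1 - t) * (‖fv b β v‖ / ‖v‖) + t
  let H : ℝ → E3 → E3 := fun t v => if h : t ∈ Set.Icc (0 : ℝ) 1 ∧ v ≠ 0 then
    (c t v / ‖(Φ (⟨t, h.1⟩, ⟨v, h.2⟩)).1‖ ^ 2) •
      vec (star (Φ (⟨t, h.1⟩, ⟨v, h.2⟩)).1 * qi v * (Φ (⟨t, h.1⟩, ⟨v, h.2⟩)).1) else 0
  refine ⟨H, ?_, ?_, ?_, ?_⟩
  · rw [continuousOn_iff_continuous_domRestrict]
    change Continuous (fun z : (Set.Icc (0 : ℝ) 1 ×ˢ {v : E3 | v ≠ 0} : Set (ℝ × E3)) =>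
      H z.1.1 z.1.2)
    have e : (fun z : (Set.Icc (0 : ℝ) 1 ×ˢ {v : E3 | v ≠ 0} : Set (ℝ × E3)) => H z.1.1 z.1.2)
        = fun z => (c z.1.1 z.1.2 / ‖(Φ (⟨z.1.1, z.2.1⟩, ⟨z.1.2, z.2.2⟩)).1‖ ^ 2) •
          vec (star (Φ (⟨z.1.1, z.2.1⟩, ⟨z.1.2, z.2.2⟩)).1 * qi z.1.2
            * (Φ (⟨z.1.1, z.2.1⟩, ⟨z.1.2, z.2.2⟩)).1) := by
      funext z
      exact dif_pos ⟨z.2.1, z.2.2⟩
    rw [e]
    have h1 : Continuous (fun z : (Set.Icc (0 : ℝ) 1 ×ˢ {v : E3 | v ≠ 0} : Set (ℝ × E3)) =>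
        (Φ ((⟨z.1.1, z.2.1⟩ : I), (⟨z.1.2, z.2.2⟩ : XX))).1) := by
      apply continuous_subtype_val.comp
      apply Φ.continuous.comp
      fun_prop
    have h2 : Continuous (fun z : (Set.Icc (0 : ℝ) 1 ×ˢ {v : E3 | v ≠ 0} : Set (ℝ × E3)) =>
        c z.1.1 z.1.2) := by
      have h3 := continuous_fv (b := b) hF
      have h4 : ∀ z : (Set.Icc (0 : ℝ) 1 ×ˢ {v : E3 | v ≠ 0} : Set (ℝ × E3)), ‖z.1.2‖ ≠ 0 :=
        fun z => norm_ne_zero_iff.mpr z.2.2
      simp only [c]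
      refine Continuous.add (Continuous.mul (by fun_prop) (Continuous.div ?_ (by fun_prop) h4))
        (by fun_prop)
      exact (h3.comp (continuous_snd.comp continuous_subtype_val)).norm
    refine Continuous.smul (h2.div (h1.norm.pow 2) (fun z => ?_)) (continuous_vec.comp ?_)
    · exact pow_ne_zero 2 (norm_ne_zero_iff.mpr
        (Φ ((⟨z.1.1, z.2.1⟩ : I), (⟨z.1.2, z.2.2⟩ : XX))).2)
    · exact (h1.star.mul (continuous_qi.comp (by fun_prop))).mul h1
  · intro v hv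
    have h0 : (0 : ℝ) ∈ Set.Icc (0 : ℝ) 1 := ⟨le_refl _, zero_le_one⟩
    have e : H 0 v = (c 0 v / ‖(Φ (⟨0, h0⟩, ⟨v, hv⟩)).1‖ ^ 2) •
      vec (star (Φ (⟨0, h0⟩, ⟨v, hv⟩)).1 * qi v * (Φ (⟨0, h0⟩, ⟨v, hv⟩)).1) := dif_pos ⟨h0, hv⟩
    have e1 : Φ ((⟨0, h0⟩ : I), (⟨v, hv⟩ : XX)) = f ⟨v, hv⟩ := Φ.apply_zero _
    rw [e, e1, hf]
    have hfv := fv_ne_zero hF hG hv
    have hint := Psi_int hF hG hv
    have e2 : star (f ⟨v, hv⟩).1 * qi v * (f ⟨v, hv⟩).1 = ‖v‖ • qi (nrm (fv b β v)) := by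
      have h3 : qi v = ‖v‖ • qi (nrm v) := by
        unfold nrm
        rw [qi_smul, smul_smul, mul_inv_cancel₀ (norm_ne_zero_iff.mpr hv), one_smul]
      rw [h3, mul_smul_comm, smul_mul_assoc]
      congr 1
      have h4 := unit_star_mul (hf ⟨v, hv⟩)
      calc star (f ⟨v, hv⟩).1 * qi (nrm v) * (f ⟨v, hv⟩).1
          = star (f ⟨v, hv⟩).1 * (qi (nrm v) * (f ⟨v, hv⟩).1) := by noncomm_ring
        _ = star (f ⟨v, hv⟩).1 * ((f ⟨v, hv⟩).1 * qi (nrm (fv b β v))) := by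
            rw [show qi (nrm v) * (f ⟨v, hv⟩).1 = (f ⟨v, hv⟩).1 * qi (nrm (fv b β v)) from hint]
        _ = _ := by rw [← mul_assoc, h4, one_mul]
    rw [e2, vec_smul, vec_qi]
    simp only [c]
    unfold nrm
    rw [smul_smul, smul_smul]
    have n1 := norm_ne_zero_iff.mpr hv
    have n2 := norm_ne_zero_iff.mpr hfv
    have : ((1 - 0) * (‖fv b β v‖ / ‖v‖) + 0) / 1 ^ 2 * ‖v‖ * ‖fv b β v‖⁻¹ = 1 := by
      field_simp
      ring
    rw [this, one_smul]
    rfl
  · intro v hv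
    have h0 : (1 : ℝ) ∈ Set.Icc (0 : ℝ) 1 := ⟨zero_le_one, le_refl _⟩
    have e : H 1 v = (c 1 v / ‖(Φ (⟨1, h0⟩, ⟨v, hv⟩)).1‖ ^ 2) •
      vec (star (Φ (⟨1, h0⟩, ⟨v, hv⟩)).1 * qi v * (Φ (⟨1, h0⟩, ⟨v, hv⟩)).1) := dif_pos ⟨h0, hv⟩
    have e1 : Φ ((⟨1, h0⟩ : I), (⟨v, hv⟩ : XX)) = ⟨1, one_ne_zero⟩ := Φ.apply_one _
    rw [e, e1]
    simp [c, vec_qi]
  · intro t ht v hv h
    have e : H t v = (c t v / ‖(Φ (⟨t, ht⟩, ⟨v, hv⟩)).1‖ ^ 2) •
      vec (star (Φ (⟨t, ht⟩, ⟨v, hv⟩)).1 * qi v * (Φ (⟨t, ht⟩, ⟨v, hv⟩)).1) := dif_pos ⟨ht, hv⟩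
    set Q := (Φ ((⟨t, ht⟩ : I), (⟨v, hv⟩ : XX))).1 with hQ
    have hQ0 : Q ≠ 0 := (Φ ((⟨t, ht⟩ : I), (⟨v, hv⟩ : XX))).2
    have n0 := norm_pos_iff.mpr hQ0
    have n1 := norm_pos_iff.mpr hv
    have n2 := norm_pos_iff.mpr (fv_ne_zero hF hG hv)
    have hc : 0 < c t v := by
      simp only [c]
      have h3 : 0 < ‖fv b β v‖ / ‖v‖ := div_pos n2 n1
      rcases ht.1.eq_or_lt with h4 | h4
      · rw [← h4]; simpa using h3
      · have := mul_nonneg (sub_nonneg.mpr ht.2) h3.le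
        linarith
    rw [e, smul_eq_zero] at h
    rcases h with h | h
    · exact (div_pos hc (pow_pos n0 2)).ne' h
    · have h1 := qi_vec (conj_re Q v)
      rw [h, qi_zero] at h1
      have h2 := conj_norm Q v
      rw [← h1, norm_zero] at h2
      have := mul_pos (pow_pos n0 2) n1
      linarith

end N9.Top
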