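import Pool.Agent.Helper24.N9.Pct1
import Pool.Agent.Helper24.N9.Top7

/-! MP_9b91d1_co: assembly of PCT, part 2 (A6 from TOP). -/

namespace N9

open Pool.Agent.Helper30.N9 (E3 Om det3 inner_def)
open scoped Quaternion RealInnerProductSpace Topology

theorem toE_apply (v : V3) (i : Fin 3) : toE v i = v i := rfl

theorem inner_toE (a b : V3) : ⟪toE a, toE b⟫ = ip a b := by
  rw [inner_def, ip_eq]; rfl

theorem norm_toE {a : V3} (h : nsq a = 1) : ‖toE a‖ = 1 := by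
  rw [Pool.Agent.Helper30.N9.norm_one_iff, inner_toE, ip_self, h]

theorem toE_add (a b : V3) : toE (a + b) = toE a + toE b := rfl
theorem toE_smul (r : ℝ) (a : V3) : toE (r • a) = r • toE a := rfl
theorem toE_sum {ι : Type*} (s : Finset ι) (f : ι → V3) :
    toE (∑ i ∈ s, f i) = ∑ i ∈ s, toE (f i) := by
  classical
  induction s using Finset.induction_on with
  | empty => rfl
  | insert a s ha ih => rw [Finset.sum_insert ha, Finset.sum_insert ha, toE_add, ih]

theorem continuous_toE : Continuous toE := PiLp.continuous_toLp 2 _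

noncomputable def ofE (v : E3) : V3 := WithLp.ofLp v

theorem continuous_ofE : Continuous ofE := PiLp.continuous_ofLp 2 _

theorem ofE_toE (v : V3) : ofE (toE v) = v := rfl
theorem ofE_eq_zero {v : E3} (h : ofE v = 0) : v = 0 := by
  have : toE (ofE v) = toE 0 := by rw [h]
  exact this

section
variable {I K : Type} [Fintype I] [DecidableEq I] [Fintype K] [DecidableEq K]
  {p : I → V3} {h : I → ℝ} {x : K → V3}

theorem sum_fanT (F : (I ⊕ K) × (I ⊕ K) × (I ⊕ K) → ℝ) :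
    ∑ t ∈ fanT p h x, F t
      = ∑ k, ∑ e ∈ sides p h x k, F (Sum.inr k, Sum.inl e.1, Sum.inl e.2) := by
  unfold fanT
  rw [Finset.sum_biUnion]
  · apply Finset.sum_congr rfl
    intro k _
    rw [Finset.sum_image]
    intro e he e' he' heq
    simp only [Prod.mk.injEq, Sum.inl.injEq, true_and] at heq
    exact Prod.ext heq.1 heq.2
  · intro k _ k' _ hkk
    rw [Function.onFun, Finset.disjoint_left]
    intro t ht ht'
    rw [Finset.mem_image] at ht ht'
    obtain ⟨e, _, rfl⟩ := ht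
    obtain ⟨e', _, he'⟩ := ht'
    simp only [Prod.mk.injEq, Sum.inr.injEq] at he'
    exact hkk he'.1.symm

theorem mem_fanT {t : (I ⊕ K) × (I ⊕ K) × (I ⊕ K)} (ht : t ∈ fanT p h x) :
    ∃ k, ∃ e ∈ sides p h x k, t = (Sum.inr k, Sum.inl e.1, Sum.inl e.2) := by
  unfold fanT at ht
  rw [Finset.mem_biUnion] at ht
  obtain ⟨k, _, hk⟩ := ht
  rw [Finset.mem_image] at hk
  obtain ⟨e, he, rfl⟩ := hk
  exact ⟨k, e, he, rfl⟩

/-- positivity of a combination in a half space -/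
theorem ip_sum_pos {c : I → ℝ} {P : I → V3} {g : V3} (h0 : ∀ i, 0 ≤ c i)
    (hs : ∑ i, c i = 1) (hp : ∀ i, c i ≠ 0 → 0 < ip g (P i)) : 0 < ip g (∑ i, c i • P i) := by
  have h1 : ∃ i, c i ≠ 0 := by
    by_contra hcon
    push Not at hcon
    rw [Finset.sum_eq_zero (fun i _ => hcon i)] at hs
    norm_num at hs
  rw [← inner_toE, toE_sum]
  exact Top.inner_sum_pos (b := fun i => toE (P i)) h0
    (fun i hi => by rw [inner_toE]; exact hp i hi) h1

theorem a6_of (hP : Poly p h x) (hTop : ST_TOP) (g5 : ST_G5) (g6 : ST_G6) (g7 : ST_G7)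
    {q : I → V3} (hq : ∀ i, nsq (q i) = 1) {g : K → V3} (hg1 : ∀ k, nsq (g k) = 1)
    (hg2 : ∀ k, ∀ i ∈ actAt p h (x k), 0 < ip (g k) (q i))
    (hA : ∑ k, ∑ e ∈ sides p h x k, Omv (g k) (q e.1) (q e.2) = 4 * Real.pi)
    (eta : K → I → ℝ) (tri : K → Finset (Finset I))
    (ht : ∀ k, ∀ t ∈ tri k, ∀ i ∈ t, i ∈ actAt p h (x k)) :
    AData.A6 (⟨p, q, h, x, eta, tri⟩ : AData I K) := by
  obtain ⟨β, hF, hβ⟩ := g6 I K p h x hP
  set a : I ⊕ K → E3 := fun n => toE (Sum.elim p (cen p h x) n) with ha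
  set b : I ⊕ K → E3 := fun n => toE (Sum.elim q g n) with hb
  have hbu : ∀ n, ‖b n‖ = 1 := by
    rintro (i | k)
    · exact norm_toE (hq i)
    · exact norm_toE (hg1 k)
  have hbp : ∀ t ∈ fanT p h x, ∃ g' : E3, 0 < ⟪g', b t.1⟫ ∧ 0 < ⟪g', b t.2.1⟫ ∧
      0 < ⟪g', b t.2.2⟫ := by
    intro t htt
    obtain ⟨k, e, he, rfl⟩ := mem_fanT htt
    have hs := mem_sides.mp he
    refine ⟨toE (g k), ?_, ?_, ?_⟩
    · change 0 < ⟪toE (g k), toE (g k)⟫
      rw [inner_toE, ip_self, hg1]; norm_num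
    · change 0 < ⟪toE (g k), toE (q e.1)⟫
      rw [inner_toE]; exact hg2 k _ hs.1
    · change 0 < ⟪toE (g k), toE (q e.2)⟫
      rw [inner_toE]; exact hg2 k _ hs.2.1
  have hAA : ∑ t ∈ fanT p h x, Om (a t.1) (a t.2.1) (a t.2.2)
      = ∑ t ∈ fanT p h x, Om (b t.1) (b t.2.1) (b t.2.2) := by
    rw [sum_fanT, sum_fanT]
    exact (g7 I K p h x hP).trans hA.symm
  obtain ⟨H, hH1, hH2, hH3, hH4⟩ := hTop (I ⊕ K) (fanT p h x) a b β (g5 I K p h x hP) hF hbu hbp hAA
  set D : AData I K := ⟨p, q, h, x, eta, tri⟩ with hD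
  -- facts on the realisation
  have hreal : ∀ c ∈ D.real, ∃ k, (∀ i, c i ≠ 0 → i ∈ actAt p h (x k)) := by
    intro c hc
    obtain ⟨h0, h1, k, t, htt, h2⟩ := hc
    refine ⟨k, fun i hi => ht k t htt i ?_⟩
    by_contra hcon
    exact hi (h2 i hcon)
  have hv : ∀ c ∈ D.real, toE (∑ i, c i • p i) ≠ 0 := by
    intro c hc
    obtain ⟨k, hk⟩ := hreal c hc
    have h1 : 0 < ip (x k) (∑ i, c i • p i) := ip_sum_pos hc.1 hc.2.1 (fun i hi => by
      rw [ip_comm, mem_actAt.mp (hk i hi)]; exact hP.hpos i)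
    intro h2
    rw [← inner_toE, h2, inner_zero_right] at h1
    exact lt_irrefl _ h1
  have hq' : ∀ c ∈ D.real, ∀ k, (∀ i, c i ≠ 0 → i ∈ actAt p h (x k)) →
      0 < ⟪toE (g k), toE (∑ i, c i • q i)⟫ := by
    intro c hc k hk
    rw [inner_toE]
    exact ip_sum_pos hc.1 hc.2.1 (fun i hi => hg2 k i (hk i hi))
  have hf' : ∀ c ∈ D.real, ∀ k, (∀ i, c i ≠ 0 → i ∈ actAt p h (x k)) →
      0 < ⟪toE (g k), ∑ n, β n (toE (∑ i, c i • p i)) • b n⟫ := by
    intro c hc k hk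
    apply Top.inner_sum_pos (fun n => hF.nonneg n _)
    · intro n hn
      rcases hβ k c hc.1 hk n hn with rfl | ⟨i, hi, rfl⟩
      · change 0 < ⟪toE (g k), toE (g k)⟫
        rw [inner_toE, ip_self, hg1]; norm_num
      · change 0 < ⟪toE (g k), toE (q i)⟫
        rw [inner_toE]; exact hg2 k i hi
    · exact Top.exists_beta hF (hv c hc)
  let V : D.real → E3 := fun c => toE (∑ i, c.1 i • p i)
  have hVc : Continuous V := by
    apply continuous_toE.comp
    exact continuous_finsetSum _ (fun i _ =>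
      ((continuous_apply i).comp continuous_subtype_val).smul continuous_const)
  let f0 : C(D.real, Top.XX) := ⟨fun c => ⟨toE (∑ i, c.1 i • q i), by
    obtain ⟨k, hk⟩ := hreal c.1 c.2
    intro h2
    have h1 := hq' c.1 c.2 k hk
    rw [h2, inner_zero_right] at h1
    exact lt_irrefl _ h1⟩, by
      apply Continuous.subtype_mk
      apply continuous_toE.comp
      exact continuous_finsetSum _ (fun i _ =>
        ((continuous_apply i).comp continuous_subtype_val).smul continuous_const)⟩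
  let f2 : C(D.real, Top.XX) := ⟨fun c => ⟨V c, hv c.1 c.2⟩, by
      apply Continuous.subtype_mk
      exact hVc⟩
  let f1 : C(D.real, Top.XX) := ⟨fun c => ⟨H 0 (V c), hH4 0 ⟨le_refl _, zero_le_one⟩ _ (hv c.1 c.2)⟩, by
      apply Continuous.subtype_mk
      have e : (fun c : D.real => H 0 (V c)) = fun c => Function.uncurry H (0, V c) := rfl
      rw [e]
      exact hH1.comp_continuous (by fun_prop)
        (fun c => ⟨⟨le_refl _, zero_le_one⟩, hv c.1 c.2⟩)⟩
  have hom1 : ContinuousMap.Homotopic f0 f1 := by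
    refine ⟨⟨⟨fun z => ⟨(1 - (z.1 : ℝ)) • (f0 z.2).1 + (z.1 : ℝ) • (f1 z.2).1, ?_⟩, ?_⟩, ?_, ?_⟩⟩
    · obtain ⟨k, hk⟩ := hreal z.2.1 z.2.2
      have k1 := hq' z.2.1 z.2.2 k hk
      have k2 := hf' z.2.1 z.2.2 k hk
      have e1 : (f1 z.2).1 = ∑ n, β n (toE (∑ i, z.2.1 i • p i)) • b n :=
        hH2 _ (hv z.2.1 z.2.2)
      intro h0
      have h3 : ⟪toE (g k), (1 - (z.1 : ℝ)) • (f0 z.2).1 + (z.1 : ℝ) • (f1 z.2).1⟫ = 0 := by
        rw [h0, inner_zero_right]
      rw [inner_add_right, real_inner_smul_right, real_inner_smul_right, e1] at h3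
      have h4 : (f0 z.2).1 = toE (∑ i, z.2.1 i • q i) := rfl
      rw [h4] at h3
      have t0 := z.1.2.1
      have t1 := z.1.2.2
      rcases t0.eq_or_lt with h5 | h5
      · rw [← h5] at h3
        simp at h3
        linarith
      · have := mul_pos h5 k2
        have := mul_nonneg (sub_nonneg.mpr t1) k1.le
        linarith
    · apply Continuous.subtype_mk
      fun_prop
    · intro c; apply Subtype.ext; simp
    · intro c; apply Subtype.ext; simp
  have hom2 : ContinuousMap.Homotopic f1 f2 := by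
    refine ⟨⟨⟨fun z => ⟨H z.1 (V z.2), hH4 z.1 z.1.2 _ (hv z.2.1 z.2.2)⟩, ?_⟩, ?_, ?_⟩⟩
    · apply Continuous.subtype_mk
      have e : (fun z : unitInterval × D.real => H z.1 (V z.2))
          = fun z => Function.uncurry H ((z.1 : ℝ), V z.2) := rfl
      have hc : Continuous (fun z : unitInterval × D.real => ((z.1 : ℝ), V z.2)) :=
        (continuous_subtype_val.comp continuous_fst).prodMk (hVc.comp continuous_snd)
      exact hH1.comp_continuous hc (fun z => ⟨z.1.2, hv z.2.1 z.2.2⟩)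
    · intro c; apply Subtype.ext; simp [f1]
    · intro c; apply Subtype.ext
      exact hH3 _ (hv c.1 c.2)
  obtain ⟨Φ⟩ := hom1.trans hom2
  classical
  refine ⟨fun z => if hz : z.1 ∈ Set.Icc (0 : ℝ) 1 ∧ z.2 ∈ D.real then
    ofE (Φ (⟨z.1, hz.1⟩, ⟨z.2, hz.2⟩)).1 else 0, ?_, ?_⟩
  · rw [continuousOn_iff_continuous_domRestrict]
    have e : Set.domRestrict (Set.Icc (0 : ℝ) 1 ×ˢ D.real)
        (fun z => if hz : z.1 ∈ Set.Icc (0 : ℝ) 1 ∧ z.2 ∈ D.real then
          ofE (Φ (⟨z.1, hz.1⟩, ⟨z.2, hz.2⟩)).1 else 0)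
        = fun z => ofE (Φ (⟨z.1.1, z.2.1⟩, ⟨z.1.2, z.2.2⟩)).1 := by
      funext z
      exact dif_pos ⟨z.2.1, z.2.2⟩
    rw [e]
    apply continuous_ofE.comp
    apply continuous_subtype_val.comp
    apply Φ.continuous.comp
    fun_prop
  · intro c hc
    refine ⟨?_, ?_, ?_⟩
    · have h0 : (0 : ℝ) ∈ Set.Icc (0 : ℝ) 1 := ⟨le_refl _, zero_le_one⟩
      have e1 : Φ ((⟨0, h0⟩ : unitInterval), (⟨c, hc⟩ : D.real)) = f0 ⟨c, hc⟩ := Φ.apply_zero _
      simp only
      rw [dif_pos ⟨h0, hc⟩, e1]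
      rfl
    · have h0 : (1 : ℝ) ∈ Set.Icc (0 : ℝ) 1 := ⟨zero_le_one, le_refl _⟩
      have e1 : Φ ((⟨1, h0⟩ : unitInterval), (⟨c, hc⟩ : D.real)) = f2 ⟨c, hc⟩ := Φ.apply_one _
      simp only
      rw [dif_pos ⟨h0, hc⟩, e1]
      rfl
    · intro t ht'
      simp only
      rw [dif_pos ⟨ht', hc⟩]
      intro h0
      exact (Φ (⟨t, ht'⟩, ⟨c, hc⟩)).2 (ofE_eq_zero h0)

end

end N9
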