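import Pool.Agent.Helper24.N9.Pct
import Pool.Agent.Helper67.N9.G1
import Pool.Agent.Helper67.N9.G5
import Pool.Agent.Helper26.N9.G6
import Pool.Agent.Helper74.N9.G7

/-! MP_9b91d1_co: the polytope contraction theorem from the analytic part (helper24). -/

namespace N9

theorem pct_of_an (an : ST_AN) : ST_PCT :=
  pct_of an G67.st_G0 G67.st_G1 G67.st_G5 N9G6.st_G6 (g7 G67.st_G0 G67.st_G2 G67.st_G3)

end N9
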