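import Pool.Agent.Helper24.N9.LT
import Pool.Agent.Helper30.N9.Area2

/-! MP_9b91d1_co: statements of the blocks GEO, TOP and of the theorem PCT. -/

namespace N9

open Pool.Agent.Helper30.N9 (E3 Om det3)
open scoped Quaternion RealInnerProductSpace

/-- from `Fin 3 → ℝ` to Euclidean space -/
noncomputable def toE (v : V3) : E3 := WithLp.toLp 2 v

/-- signed area of a triangle of unit vectors -/
noncomputable def Omv (a b c : V3) : ℝ := Om (toE a) (toE b) (toE c)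

section
variable {I K : Type} [Fintype I] [DecidableEq I] [Fintype K] [DecidableEq K]

/-- active indices at the point y -/
noncomputable def actAt (p : I → V3) (h : I → ℝ) (y : V3) : Finset I := by
  classical exact Finset.univ.filter (fun i => ip (p i) y = h i)

/-- `P = {y | ⟨p_i,y⟩ ≤ h_i}` is a bounded polytope with 0 inside, all `i` are facets, and `x`
lists its vertices. -/
structure Poly (p : I → V3) (h : I → ℝ) (x : K → V3) : Prop where
  unit : ∀ i, nsq (p i) = 1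
  hpos : ∀ i, 0 < h i
  bdd : ∃ c > 0, ∀ y : V3, ∃ i, c * Real.sqrt (nsq y) ≤ ip (p i) y
  facet : ∀ i, ∃ y, ip (p i) y = h i ∧ ∀ j, j ≠ i → ip (p j) y < h j
  inj : Function.Injective x
  mem : ∀ k i, ip (p i) (x k) ≤ h i
  span : ∀ k, ∃ i ∈ actAt p h (x k), ∃ j ∈ actAt p h (x k), ∃ l ∈ actAt p h (x k),
    dt (p i) (p j) (p l) ≠ 0
  all : ∀ y, (∀ i, ip (p i) y ≤ h i) → (∃ i ∈ actAt p h y, ∃ j ∈ actAt p h y,
    ∃ l ∈ actAt p h y, dt (p i) (p j) (p l) ≠ 0) → ∃ k, x k = y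

open Classical in
/-- directed sides at the vertex k -/
noncomputable def sides (p : I → V3) (h : I → ℝ) (x : K → V3) (k : K) : Finset (I × I) :=
  Finset.univ.filter (fun e => Side p (actAt p h (x k)) e.1 e.2)

/-- PCT: the polytope contraction theorem. -/
def ST_PCT : Prop :=
  ∀ (I K : Type) [Fintype I] [DecidableEq I] [Fintype K] [DecidableEq K]
    (p q : I → V3) (h : I → ℝ) (x : K → V3), Poly p h x → (∀ i, nsq (q i) = 1) →
    (∀ k, ∀ e ∈ sides p h x k, ip (p e.1) (p e.2) ≤ ip (q e.1) (q e.2)) →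
    ∀ g : K → V3, (∀ k, nsq (g k) = 1) → (∀ k, ∀ i ∈ actAt p h (x k), 0 < ip (g k) (q i)) →
    ∑ k, ∑ e ∈ sides p h x k, Omv (g k) (q e.1) (q e.2) = 4 * Real.pi →
    ∃ y : ℍ[ℝ], y ≠ 0 ∧ ∀ i, im (p i) * y = y * im (q i)

/-- G0: the active normals of a vertex are in strictly convex position -/
def ST_G0 : Prop :=
  ∀ (I K : Type) [Fintype I] [DecidableEq I] [Fintype K] [DecidableEq K]
    (p : I → V3) (h : I → ℝ) (x : K → V3), Poly p h x → ∀ k, ConvPos p (actAt p h (x k))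

/-- G1: global structure of the near-active sets (STR0). -/
def ST_G1 : Prop :=
  ∀ (I K : Type) [Fintype I] [DecidableEq I] [Fintype K] [DecidableEq K]
    (p : I → V3) (h : I → ℝ) (x : K → V3), Poly p h x →
    ∀ r > 0, ∃ d > 0, ∀ y : V3, (∀ i, ip (p i) y - h i ≤ d) →
      (∃ k, nsq (y - x k) < r ^ 2 ∧ ∀ i, i ∉ actAt p h (x k) → ip (p i) y - h i ≤ -d) ∨
      (∃ k, ∃ e ∈ sides p h x k, ∀ i, i ≠ e.1 → i ≠ e.2 → ip (p i) y - h i ≤ -d)

/-- G2: gain points near the vertices. -/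
def ST_G2 : Prop :=
  ∀ (I K : Type) [Fintype I] [DecidableEq I] [Fintype K] [DecidableEq K]
    (p : I → V3) (h : I → ℝ) (x : K → V3), Poly p h x →
    ∀ r > 0, ∀ i, ∃ k, ∃ y, nsq (y - x k) < r ^ 2 ∧ ip (p i) y = h i ∧
      ∀ j, j ≠ i → ip (p j) y < h j

/-- G3: every side is the reversed side of exactly one other vertex. -/
def ST_G3 : Prop :=
  ∀ (I K : Type) [Fintype I] [DecidableEq I] [Fintype K] [DecidableEq K]
    (p : I → V3) (h : I → ℝ) (x : K → V3), Poly p h x →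
    ∀ k, ∀ e ∈ sides p h x k, ∃! k', (e.2, e.1) ∈ sides p h x k'

/-- G4: the dual graph is connected. -/
def ST_G4 : Prop :=
  ∀ (I K : Type) [Fintype I] [DecidableEq I] [Fintype K] [DecidableEq K]
    (p : I → V3) (h : I → ℝ) (x : K → V3), Poly p h x →
    ∀ A : Set K, A.Nonempty →
      (∀ k ∈ A, ∀ e ∈ sides p h x k, ∀ k', (e.2, e.1) ∈ sides p h x k' → k' ∈ A) →
      A = Set.univ

end

section
variable {N : Type} [Fintype N] [DecidableEq N]

/-- the combinatorial conditions for a closed connected oriented triangulated surface -/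
structure Cplx (T : Finset (N × N × N)) : Prop where
  cl : ∀ θ : N → N → ℝ, (∀ n m, θ m n = - θ n m) →
    ∑ t ∈ T, (θ t.1 t.2.1 + θ t.2.1 t.2.2 + θ t.2.2 t.1) = 0
  flow : ∀ κ : N × N × N → ℤ, ∑ t ∈ T, κ t = 0 → ∃ μ : N → N → ℤ,
    (∀ n m, μ m n = - μ n m) ∧
    ∀ t ∈ T, μ t.1 t.2.1 + μ t.2.1 t.2.2 + μ t.2.2 t.1 = κ t

/-- piecewise linear coordinates of 3-space with respect to the fan of `a` over `T` -/
structure Fan (a : N → E3) (T : Finset (N × N × N)) (β : N → E3 → ℝ) : Prop where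
  unit : ∀ n, ‖a n‖ = 1
  cont : ∀ n, Continuous (β n)
  nonneg : ∀ n v, 0 ≤ β n v
  sum : ∀ v, ∑ n, β n v • a n = v
  supp : ∀ v, ∃ t ∈ T, ∀ n, β n v ≠ 0 → n = t.1 ∨ n = t.2.1 ∨ n = t.2.2
  point : ∀ t ∈ T, ∃ g : E3, 0 < ⟪g, a t.1⟫ ∧ 0 < ⟪g, a t.2.1⟫ ∧ 0 < ⟪g, a t.2.2⟫

/-- TOP: a gauge for the fan map. -/
def ST_TOP : Prop :=
  ∀ (N : Type) [Fintype N] [DecidableEq N] (T : Finset (N × N × N)) (a b : N → E3)
    (β : N → E3 → ℝ), Cplx T → Fan a T β → (∀ n, ‖b n‖ = 1) →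
    (∀ t ∈ T, ∃ g : E3, 0 < ⟪g, b t.1⟫ ∧ 0 < ⟪g, b t.2.1⟫ ∧ 0 < ⟪g, b t.2.2⟫) →
    ∑ t ∈ T, Om (a t.1) (a t.2.1) (a t.2.2) = ∑ t ∈ T, Om (b t.1) (b t.2.1) (b t.2.2) →
    ∃ H : ℝ → E3 → E3, ContinuousOn (Function.uncurry H) (Set.Icc 0 1 ×ˢ {v | v ≠ 0}) ∧
      (∀ v, v ≠ 0 → H 0 v = ∑ n, β n v • b n) ∧ (∀ v, v ≠ 0 → H 1 v = v) ∧
      ∀ t ∈ Set.Icc (0 : ℝ) 1, ∀ v, v ≠ 0 → H t v ≠ 0

end

section
variable {I K : Type} [Fintype I] [DecidableEq I] [Fintype K] [DecidableEq K]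

/-- centre of the normal cone of the vertex k -/
noncomputable def cen (p : I → V3) (h : I → ℝ) (x : K → V3) (k : K) : V3 :=
  (Real.sqrt (nsq (∑ i ∈ actAt p h (x k), p i)))⁻¹ • ∑ i ∈ actAt p h (x k), p i

/-- the fan complex -/
noncomputable def fanT (p : I → V3) (h : I → ℝ) (x : K → V3) :
    Finset ((I ⊕ K) × (I ⊕ K) × (I ⊕ K)) :=
  Finset.univ.biUnion (fun k : K => (sides p h x k).image
    (fun e : I × I => ((Sum.inr k : I ⊕ K), (Sum.inl e.1 : I ⊕ K), (Sum.inl e.2 : I ⊕ K))))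

/-- G5: the fan complex is a closed connected surface. -/
def ST_G5 : Prop :=
  ∀ (I K : Type) [Fintype I] [DecidableEq I] [Fintype K] [DecidableEq K]
    (p : I → V3) (h : I → ℝ) (x : K → V3), Poly p h x → Cplx (fanT p h x)

/-- G6: piecewise linear coordinates of the fan. The last clause: vectors of the normal cone of
the vertex k only use k and active indices of k. -/
def ST_G6 : Prop :=
  ∀ (I K : Type) [Fintype I] [DecidableEq I] [Fintype K] [DecidableEq K]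
    (p : I → V3) (h : I → ℝ) (x : K → V3), Poly p h x →
    ∃ β : (I ⊕ K) → E3 → ℝ,
      Fan (fun n => toE (Sum.elim p (cen p h x) n)) (fanT p h x) β ∧
      ∀ k, ∀ c : I → ℝ, (∀ i, 0 ≤ c i) → (∀ i, c i ≠ 0 → i ∈ actAt p h (x k)) →
        ∀ n, β n (toE (∑ i, c i • p i)) ≠ 0 →
          n = Sum.inr k ∨ ∃ i ∈ actAt p h (x k), n = Sum.inl i

/-- G7: total area of the p-fan. -/
def ST_G7 : Prop :=
  ∀ (I K : Type) [Fintype I] [DecidableEq I] [Fintype K] [DecidableEq K]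
    (p : I → V3) (h : I → ℝ) (x : K → V3), Poly p h x →
    ∑ k, ∑ e ∈ sides p h x k, Omv (cen p h x k) (p e.1) (p e.2) = 4 * Real.pi

end

end N9
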