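import Pool.Agent.Helper24.N9.T1

/-! MP_9b91d1_co: the great circle case (helper24). -/

open scoped RealInnerProductSpace Topology

namespace Pool.Agent.Helper30.N9

namespace PlaneGraph

variable {V : Type} [Fintype V] [DecidableEq V] {M : PlaneGraph V}

theorem Equ.snd_fst (cseq : ST_CSEQ) {p : V → E3} {h : M.Face → E3} {n : E3}
    {U : M.Face → Prop} (hp : M.Std p h) (hE : M.Equ p n U) {d : M.G.Dart} (hd : M.Bd U d) :
    ∃ e, M.Bd U e ∧ e.fst = d.snd := by
  obtain ⟨k, th, v, hk, -, -, -, hv, -, -, h1, h2⟩ := cseq V M p h n U hp hE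
  obtain ⟨i, hi, -, h3⟩ := h2 d hd
  rcases Nat.lt_or_ge (i + 1) k with h4 | h4
  · obtain ⟨e, he, h5, -⟩ := h1 (i + 1) h4
    exact ⟨e, he, by rw [h5, h3]⟩
  · have h6 : i + 1 = k := by omega
    obtain ⟨e, he, h5, -⟩ := h1 0 hk
    exact ⟨e, he, by rw [h5, h3, h6, hv]⟩

theorem Equ.compl {p : V → E3} {n : E3} {U : M.Face → Prop} (hE : M.Equ p n U) :
    M.Equ p (-n) (fun w => ¬ U w) where
  un := by rw [norm_neg]; exact hE.un
  bd := by
    intro d hd
    have hd' : M.Bd U d.symm := by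
      refine ⟨not_not.mp hd.2, ?_⟩
      rw [SimpleGraph.Dart.symm_symm]
      exact hd.1
    obtain ⟨c, hc, h1⟩ := hE.bd _ hd'
    refine ⟨c, hc, ?_⟩
    have h2 : crs (p d.fst) (p d.snd) = - crs (p d.snd) (p d.fst) := by
      ext i
      fin_cases i <;> simp [crs] <;> ring
    have h3 : crs (p d.snd) (p d.fst) = c • n := h1
    rw [h2, h3, smul_neg]
  up := by
    intro e he
    rw [inner_neg_left]
    have := hE.dn e he
    linarith
  dn := by
    intro e he
    rw [inner_neg_left]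
    have := hE.up e (not_not.mp he)
    linarith
  ex := by
    obtain ⟨d, hd⟩ := hE.ex
    refine ⟨d.symm, hd.2, ?_⟩
    rw [SimpleGraph.Dart.symm_symm, not_not]
    exact hd.1

theorem CMax.compl {p : V → E3} {U : M.Face → Prop} {om : M.G.Dart → ℝ} (hC : M.CMax p U om) :
    M.CMax p (fun w => ¬ U w) om where
  wt := hC.wt
  eq := hC.eq
  supp := by
    intro d
    rw [hC.supp d]
    unfold Bd
    simp only [SimpleGraph.Dart.symm_symm, not_not]
    tauto
  max := hC.max

theorem cov_half (reg1 : ST_REG1) {q : V → E3} {h' : M.Face → E3} (hq : M.Std q h')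
    {T : M.Face → Prop} {g : E3} (hg : ‖g‖ = 1)
    (hb : ∀ d, M.Bd T d → 0 ≤ ⟪g, q d.fst⟫ ∧ 0 ≤ ⟪g, q d.snd⟫) {y : E3} (hy : ⟪g, y⟫ < 0)
    (hc : M.Cov q h' T (nrm y)) : M.CovN q h' T (-g) := by
  refine ⟨1, one_pos, ?_⟩
  intro z hz
  have hzg : ⟪g, z⟫ < 0 := by
    have h1 : ⟪g, z⟫ = -1 + ⟪g, z + g⟫ := by
      rw [inner_add_right, real_inner_self_eq_norm_sq, hg]; ring
    have h2 : ⟪g, z + g⟫ ≤ ‖g‖ * ‖z + g‖ := real_inner_le_norm _ _
    have h3 : ‖z + g‖ < 1 := by
      rw [Metric.mem_ball, dist_eq_norm, sub_neg_eq_add] at hz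
      exact hz
    rw [hg] at h2
    linarith
  have hne : ∀ x : E3, ⟪g, x⟫ < 0 → x ≠ 0 := by
    rintro x hx rfl
    rw [inner_zero_right] at hx
    exact lt_irrefl _ hx
  refine ⟨hne z hzg, fun hoff => ?_⟩
  refine reg1 V M q h' hq T {x | ⟪g, x⟫ < 0} ?_ (fun x hx => hne x hx) ?_ y hy z hzg hoff hc
  · have hcv : Convex ℝ {x : E3 | ⟪g, x⟫ < 0} := by
      intro a ha b hb' s t hs ht hst
      show ⟪g, s • a + t • b⟫ < 0
      rw [inner_add_right, real_inner_smul_right, real_inner_smul_right]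
      have ha' : ⟪g, a⟫ < 0 := ha
      have hb'' : ⟪g, b⟫ < 0 := hb'
      rcases hs.eq_or_lt with h0 | h0
      · have : t = 1 := by linarith
        rw [← h0, this]; linarith
      · have := mul_neg_of_pos_of_neg h0 ha'
        have := mul_nonpos_of_nonneg_of_nonpos ht hb''.le
        linarith
    exact hcv.isPreconnected
  · rintro x hx d hd ⟨-, s, t, hs, ht, he⟩
    have h1 : ⟪g, nrm x⟫ < 0 := by
      unfold nrm
      rw [real_inner_smul_right]
      exact mul_neg_of_pos_of_neg (inv_pos.mpr (norm_pos_iff.mpr (hne x hx))) hx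
    obtain ⟨h2, h3⟩ := hb d hd
    rw [he, inner_add_right, real_inner_smul_right, real_inner_smul_right] at h1
    have := mul_nonneg hs h2
    have := mul_nonneg ht h3
    linarith

end PlaneGraph

theorem t2_of (d1e : ST_D1E) (cseq : ST_CSEQ) (ccov : ST_CCOV) (reg1 : ST_REG1)
    (reg3 : ST_REG3) (reg4 : ST_REG4) (qc : ST_QC) (spure : ST_SPURE) (cut1 : ST_CUT1)
    (noml : ST_NOML) (scut : ST_SCUT) (mmh : ST_MMH) (rcut : ST_RCUT) (rot : ST_ROT) :
    ST_T2 := by
  intro V _ _ M p q h h' n om hp hq hloc hle hn hw heq hne hst hmax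
  obtain ⟨U, hE, hsupp⟩ := d1e V M p h n om hp hn hw heq hne hst
  have hC : M.CMax p U om := ⟨hw, heq, hsupp, hmax⟩
  have dich : ∀ (n : E3) (U : M.Face → Prop), M.Equ p n U → M.CMax p U om →
      M.Pure p n U ∨ ∃ (L : Type) (y : E3) (l : M.Face → L) (s t : V) (b : L),
        M.CutF p n U y l s t b := by
    intro n U hE hC
    by_cases hP : M.Pure p n U
    · exact Or.inl hP
    right
    unfold PlaneGraph.Pure at hP
    push Not at hP
    obtain ⟨y, hy, hny, hno⟩ := hP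
    obtain ⟨L, l, s, t, b, h1, h2, h3, h4⟩ := cut1 V M p h n y U hp hE hy hny hno
    refine ⟨L, y, l, s, t, b, ⟨h1, hny, h2, h3, ?_⟩⟩
    intro c _
    by_cases hcb : c = b
    · have h5 : (fun w => l w = c) = (fun w => ¬ U w) := by
        funext w
        rw [hcb]
        exact propext (h2 w)
      rw [h5]
      exact noml V M p h n y U om hp hE hC hy hny hno
    · exact h4 c hcb
  have side : ∀ (n : E3) (U : M.Face → Prop), M.Equ p n U → M.CMax p U om →
      ∀ g : E3, ‖g‖ = 1 → (∀ d, M.Bd U d → 0 ≤ ⟪g, q d.fst⟫) → M.CovN q h' U (-g) →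
      ∀ d, M.Bd U d → ⟪g, q d.fst⟫ = 0 := by
    intro n U hE hC g hg hb hcov
    rcases dich n U hE hC with hP | ⟨L, y, l, s, t, b, hF⟩
    · exact spure V M p q h h' n U hp hq hloc hle hE hP g hg hb hcov
    · exact scut V M L p q h h' n y U l s t b hp hq hloc hle hE hF g hg hb hcov
  have rest : ∀ (q' : V → E3) (h'' : M.Face → E3), M.Std q' h'' → M.Le q' p →
      ∀ (n : E3) (U : M.Face → Prop), M.Equ p n U → M.CMax p U om →
      (∀ d, M.Bd U d → q' d.fst = p d.fst) → ∀ v, M.InV U v → q' v = p v := by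
    intro q' h'' hq' hle' n U hE hC hb
    rcases dich n U hE hC with hP | ⟨L, y, l, s, t, b, hF⟩
    · exact mmh V M p q' h h'' n U hp hq' hloc hle' hE hP hb
    · exact rcut V M L p q' h h'' n y U l s t b hp hq' hloc hle' hE hF hb
  have hsf : ∀ d, M.Bd U d → ∃ e, M.Bd U e ∧ e.fst = d.snd := fun d hd =>
    hE.snd_fst cseq hp hd
  have hsf' : ∀ d, M.Bd (fun w => ¬ U w) d → ∃ e, M.Bd (fun w => ¬ U w) e ∧ e.fst = d.snd :=
    fun d hd => hE.compl.snd_fst cseq hp hd
  have hcb : ∀ d, M.Bd (fun w => ¬ U w) d → M.Bd U d.symm := by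
    intro d hd
    refine ⟨not_not.mp hd.2, ?_⟩
    rw [SimpleGraph.Dart.symm_symm]
    exact hd.1
  have hbc : ∀ d, M.Bd U d → M.Bd (fun w => ¬ U w) d.symm := by
    intro d hd
    refine ⟨hd.2, ?_⟩
    rw [SimpleGraph.Dart.symm_symm, not_not]
    exact hd.1
  rcases qc V M p q h h' n U hp hq hle hE with ⟨g, hg, hb, d1, hd1, hd1p⟩ | ⟨R, hR, hRb⟩
  · exfalso
    have hb2 : ∀ d, M.Bd U d → 0 ≤ ⟪g, q d.fst⟫ ∧ 0 ≤ ⟪g, q d.snd⟫ := by
      intro d hd
      obtain ⟨e, he, h1⟩ := hsf d hd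
      exact ⟨hb d hd, by rw [← h1]; exact hb e he⟩
    have hb3 : ∀ d, M.Bd (fun w => ¬ U w) d → 0 ≤ ⟪g, q d.fst⟫ ∧ 0 ≤ ⟪g, q d.snd⟫ := by
      intro d hd
      have := hb2 _ (hcb d hd)
      exact ⟨this.2, this.1⟩
    have hO : IsOpen {y : E3 | ⟪g, y⟫ < 0} := by
      have : Continuous (fun y : E3 => ⟪g, y⟫) := by fun_prop
      exact isOpen_lt this continuous_const
    obtain ⟨y, hy, hy0, hoff, -⟩ := reg4 V M q hq.inc ∅ (by simp) _ hO
      ⟨-g, by
        show ⟪g, -g⟫ < 0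
        rw [inner_neg_right, real_inner_self_eq_norm_sq, hg]
        norm_num⟩
    obtain ⟨w, hw1, hw2, w', hww, hw3⟩ := (reg3 V M q h' hq).2 (nrm y) (norm_nrm hy0) hoff
    by_cases hU : U w
    · have hc : M.Cov q h' U (nrm y) := ⟨hw1, hw2, w', by rw [hww]; exact hU, hw3⟩
      have h1 := side n U hE hC g hg hb (PlaneGraph.cov_half reg1 hq hg hb2 hy hc) d1 hd1
      rw [h1] at hd1p
      exact lt_irrefl _ hd1p
    · have hc : M.Cov q h' (fun w => ¬ U w) (nrm y) := ⟨hw1, hw2, w', by rw [hww]; exact hU, hw3⟩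
      have h1 := side (-n) (fun w => ¬ U w) hE.compl hC.compl g hg (fun d hd => (hb3 d hd).1)
        (PlaneGraph.cov_half reg1 hq hg hb3 hy hc)
      obtain ⟨e, he, h2⟩ := hsf' d1.symm (hbc d1 hd1)
      have h3 := h1 e he
      have h4 : d1.symm.snd = d1.fst := rfl
      rw [h2, h4] at h3
      rw [h3] at hd1p
      exact lt_irrefl _ hd1p
  · obtain ⟨h'', hq'', hle''⟩ := PlaneGraph.turn rot hq hle hR
    refine ⟨R, hR, ?_⟩
    have hfix : ∀ d, M.Bd U d → (fun v => R.symm (q v)) d.fst = p d.fst := by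
      intro d hd
      show R.symm (q d.fst) = p d.fst
      rw [hRb d hd]; simp
    have hfix' : ∀ d, M.Bd (fun w => ¬ U w) d → (fun v => R.symm (q v)) d.fst = p d.fst := by
      intro d hd
      obtain ⟨e, he, h1⟩ := hsf _ (hcb d hd)
      have h2 : d.symm.snd = d.fst := rfl
      rw [h2] at h1
      rw [← h1]
      exact hfix e he
    have hall : ∀ v, R.symm (q v) = p v := by
      intro v
      by_cases h1 : M.InV U v
      · exact rest _ h'' hq'' hle'' n U hE hC hfix v h1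
      by_cases h2 : M.InV (fun w => ¬ U w) v
      · exact rest _ h'' hq'' hle'' (-n) _ hE.compl hC.compl hfix' v h2
      unfold PlaneGraph.InV at h1 h2
      push Not at h1 h2
      obtain ⟨d, hd1, hd2⟩ := h1
      obtain ⟨e, he1, he2⟩ := h2
      have a1 := hE.dn d hd2
      have a2 := hE.up e he2
      rw [hd1] at a1
      rw [he1] at a2
      obtain ⟨f, hf, hmem⟩ := ccov V M p h n U hp hE (p v) (hp.inc.unit v) (le_antisymm a1 a2)
      have H : Good M p h := ⟨hp.c3, hp.per, hp.inc, hp.cen⟩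
      rcases (PlaneGraph.fullCx H).vert v f hmem with h3 | h3
      · have h3' : v = f.fst := h3
        rw [h3']
        exact hfix f hf
      · have h3' : v = f.snd := h3
        obtain ⟨f', hf', h4⟩ := hsf f hf
        rw [h3', ← h4]
        exact hfix f' hf'
    intro v
    have h1 := congrArg R (hall v)
    simpa using h1

end Pool.Agent.Helper30.N9
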