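import Pool.Agent.Helper30.N9.Wind2

/-! MP_9b91d1_co: block TOP, quaternion algebra. -/

namespace N9.Top

open Pool.Agent.Helper30.N9
open scoped Quaternion RealInnerProductSpace

noncomputable def qi (v : E3) : ℍ[ℝ] := ⟨0, v 0, v 1, v 2⟩

@[simp] theorem qi_re (v : E3) : (qi v).re = 0 := rfl
@[simp] theorem qi_imI (v : E3) : (qi v).imI = v 0 := rfl
@[simp] theorem qi_imJ (v : E3) : (qi v).imJ = v 1 := rfl
@[simp] theorem qi_imK (v : E3) : (qi v).imK = v 2 := rfl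

theorem qi_add (v w : E3) : qi (v + w) = qi v + qi w := by
  ext <;> simp
theorem qi_smul (r : ℝ) (v : E3) : qi (r • v) = r • qi v := by
  ext <;> simp
theorem qi_neg (v : E3) : qi (-v) = - qi v := by
  ext <;> simp
theorem qi_zero : qi 0 = 0 := by
  ext <;> simp

theorem qi_normSq (v : E3) : Quaternion.normSq (qi v) = ‖v‖ ^ 2 := by
  rw [← real_inner_self_eq_norm_sq, inner_def, Quaternion.normSq_def']
  simp; ring

theorem qi_norm (v : E3) : ‖qi v‖ = ‖v‖ := by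
  have h : ‖qi v‖ ^ 2 = ‖v‖ ^ 2 := by
    rw [← qi_normSq, Quaternion.normSq_eq_norm_mul_self]; ring
  exact (sq_eq_sq₀ (norm_nonneg _) (norm_nonneg _)).mp h

theorem qi_sq {v : E3} (h : ‖v‖ = 1) : qi v * qi v = -1 := by
  have h1 := inner_self_one h
  rw [inner_def] at h1
  ext <;> simp <;> linarith

theorem star_qi (v : E3) : star (qi v) = - qi v := by
  ext <;> simp

theorem qi_injective : Function.Injective qi := by
  intro v w h
  ext i
  have h1 := congrArg (fun z : ℍ[ℝ] => z.imI) h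
  have h2 := congrArg (fun z : ℍ[ℝ] => z.imJ) h
  have h3 := congrArg (fun z : ℍ[ℝ] => z.imK) h
  simp at h1 h2 h3
  fin_cases i <;> simp [h1, h2, h3]

/-- unnormalised rotation a -> b -/
noncomputable def m0 (a b : E3) : ℍ[ℝ] := 1 - qi b * qi a

theorem m0_normSq {a b : E3} (ha : ‖a‖ = 1) (hb : ‖b‖ = 1) :
    Quaternion.normSq (m0 a b) = 2 * (1 + ⟪a, b⟫) := by
  have h1 := inner_self_one ha
  have h2 := inner_self_one hb
  rw [inner_def] at h1 h2 ⊢
  rw [Quaternion.normSq_def', m0]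
  simp
  linear_combination (b 0 * b 0 + b 1 * b 1 + b 2 * b 2) * h1 + h2

theorem m0_int {a b : E3} (ha : ‖a‖ = 1) (hb : ‖b‖ = 1) : qi b * m0 a b = m0 a b * qi a := by
  unfold m0
  have h1 := qi_sq ha
  have h2 := qi_sq hb
  rw [mul_sub, sub_mul, mul_one, one_mul, ← mul_assoc, h2, mul_assoc, h1]
  simp [add_comm]

theorem m0_mul (a b c : E3) (ha : ‖a‖ = 1) (hb : ‖b‖ = 1) (hc : ‖c‖ = 1) :
    (1 + ⟪c, a⟫) • (m0 b c * m0 a b)
      = (((zc a b c).re : ℍ[ℝ]) + (zc a b c).im • qi c) * m0 a c := by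
  have h1 := inner_self_one ha
  have h2 := inner_self_one hb
  have h3 := inner_self_one hc
  unfold m0
  simp only [zc]
  rw [inner_def] at h1 h2 h3
  simp only [inner_def, det3]
  have e1 : (1 - qi c * qi b) * (1 - qi b * qi a) = 1 - qi b * qi a - qi c * qi b - qi c * qi a := by
    have : (1 - qi c * qi b) * (1 - qi b * qi a)
        = 1 - qi b * qi a - qi c * qi b + qi c * (qi b * qi b) * qi a := by noncomm_ring
    rw [this, qi_sq hb]; noncomm_ring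
  rw [e1]
  set Δ := a 0 * (b 1 * c 2 - b 2 * c 1) - a 1 * (b 0 * c 2 - b 2 * c 0)
    + a 2 * (b 0 * c 1 - b 1 * c 0) with hΔ
  ext
  · simp
    rw [hΔ]
    linear_combination (0 : ℝ) * h1
  · simp
    rw [hΔ]
    linear_combination (-(b 1 * c 2 - b 2 * c 1)) * h1
      + ((b 1 * a 2 - b 2 * a 1) - (a 0 * (b 1 * c 2 - b 2 * c 1) - a 1 * (b 0 * c 2 - b 2 * c 0)
    + a 2 * (b 0 * c 1 - b 1 * c 0)) * a 0) * h3
  · simp
    rw [hΔ]
    linear_combination (-(b 2 * c 0 - b 0 * c 2)) * h1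
      + ((b 2 * a 0 - b 0 * a 2) - (a 0 * (b 1 * c 2 - b 2 * c 1) - a 1 * (b 0 * c 2 - b 2 * c 0)
    + a 2 * (b 0 * c 1 - b 1 * c 0)) * a 1) * h3
  · simp
    rw [hΔ]
    linear_combination (-(b 0 * c 1 - b 1 * c 0)) * h1
      + ((b 0 * a 1 - b 1 * a 0) - (a 0 * (b 1 * c 2 - b 2 * c 1) - a 1 * (b 0 * c 2 - b 2 * c 0)
    + a 2 * (b 0 * c 1 - b 1 * c 0)) * a 2) * h3

/-- exponential of an imaginary direction -/
noncomputable def EE (c : E3) (θ : ℝ) : ℍ[ℝ] := (Real.cos θ : ℍ[ℝ]) + Real.sin θ • qi c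

theorem EE_zero (c : E3) : EE c 0 = 1 := by
  unfold EE; simp

theorem EE_add {c : E3} (hc : ‖c‖ = 1) (θ φ : ℝ) : EE c (θ + φ) = EE c θ * EE c φ := by
  have h1 := inner_self_one hc
  rw [inner_def] at h1
  unfold EE
  rw [Real.cos_add, Real.sin_add]
  ext
  · simp
    linear_combination (Real.sin θ * Real.sin φ) * h1
  · simp; ring
  · simp; ring
  · simp; ring

theorem EE_int {c : E3} {q : ℍ[ℝ]} {d : E3} (h : qi c * q = q * qi d) (θ : ℝ) :
    EE c θ * q = q * EE d θ := by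
  unfold EE
  rw [add_mul, mul_add, smul_mul_assoc, mul_smul_comm, h]
  congr 1
  exact (Quaternion.coe_commutes _ _)

theorem EE_norm {c : E3} (hc : ‖c‖ = 1) (θ : ℝ) : ‖EE c θ‖ = 1 := by
  have h1 := inner_self_one hc
  rw [inner_def] at h1
  have h : ‖EE c θ‖ ^ 2 = 1 := by
    have e : Quaternion.normSq (EE c θ) = 1 := by
      rw [Quaternion.normSq_def']
      unfold EE
      simp
      linear_combination (Real.sin θ ^ 2) * h1 + Real.sin_sq_add_cos_sq θ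
    rw [sq, ← Quaternion.normSq_eq_norm_mul_self, e]
  nlinarith [norm_nonneg (EE c θ)]

theorem EE_eq_one {c : E3} (hc : ‖c‖ = 1) {θ : ℝ} (h : EE c θ = 1) :
    ∃ k : ℤ, θ = 2 * Real.pi * k := by
  have h1 : Real.cos θ = 1 := by
    have := congrArg (fun z : ℍ[ℝ] => z.re) h
    simpa [EE] using this
  obtain ⟨k, hk⟩ := (Real.cos_eq_one_iff θ).mp h1
  exact ⟨k, by rw [← hk]; ring⟩

theorem EE_two_pi (c : E3) (k : ℤ) : EE c (2 * Real.pi * k) = 1 := by
  unfold EE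
  have h1 : Real.cos (2 * Real.pi * k) = 1 := by
    rw [Real.cos_eq_one_iff]; exact ⟨k, by ring⟩
  have h2 : Real.sin (2 * Real.pi * k) = 0 := by
    rw [Real.sin_eq_zero_iff]; exact ⟨2 * k, by push_cast; ring⟩
  rw [h1, h2]; simp

/-- rotation a -> b -/
noncomputable def mm (a b : E3) : ℍ[ℝ] := (‖m0 a b‖)⁻¹ • m0 a b

theorem m0_norm_pos {a b : E3} (ha : ‖a‖ = 1) (hb : ‖b‖ = 1) (h : a ≠ -b) : 0 < ‖m0 a b‖ := by
  have h1 := inner_gt_neg_one ha hb h
  have h2 := m0_normSq ha hb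
  rw [norm_pos_iff]
  intro h0
  rw [h0, map_zero] at h2
  linarith

theorem mm_norm {a b : E3} (ha : ‖a‖ = 1) (hb : ‖b‖ = 1) (h : a ≠ -b) : ‖mm a b‖ = 1 := by
  have := m0_norm_pos ha hb h
  unfold mm
  rw [norm_smul, norm_inv, norm_norm, inv_mul_cancel₀ this.ne']

theorem mm_int {a b : E3} (ha : ‖a‖ = 1) (hb : ‖b‖ = 1) : qi b * mm a b = mm a b * qi a := by
  unfold mm
  rw [mul_smul_comm, smul_mul_assoc, m0_int ha hb]

theorem mm_self {a : E3} (ha : ‖a‖ = 1) : mm a a = 1 := by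
  unfold mm m0
  rw [qi_sq ha]
  have : (1 : ℍ[ℝ]) - -1 = (2 : ℝ) • 1 := by
    rw [sub_neg_eq_add, two_smul]
  rw [this, norm_smul, norm_one, mul_one, smul_smul]
  norm_num

theorem m0_star (a b : E3) : star (m0 a b) = m0 b a := by
  unfold m0
  rw [star_sub, star_one, star_mul, star_qi, star_qi, neg_mul_neg]

theorem mm_star (a b : E3) : star (mm a b) = mm b a := by
  unfold mm
  rw [Quaternion.star_smul, m0_star]
  congr 2
  rw [← m0_star a b, norm_star]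

theorem unit_star_mul {q : ℍ[ℝ]} (h : ‖q‖ = 1) : star q * q = 1 := by
  rw [Quaternion.star_mul_self, Quaternion.normSq_eq_norm_mul_self, h]
  simp

theorem unit_mul_star {q : ℍ[ℝ]} (h : ‖q‖ = 1) : q * star q = 1 := by
  rw [Quaternion.self_mul_star, Quaternion.normSq_eq_norm_mul_self, h]
  simp

theorem mm_mul_rev {a b : E3} (ha : ‖a‖ = 1) (hb : ‖b‖ = 1) (h : a ≠ -b) :
    mm b a * mm a b = 1 := by
  rw [← mm_star a b]; exact unit_star_mul (mm_norm ha hb h)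

theorem exists_EE {c : E3} (hc : ‖c‖ = 1) {X : ℍ[ℝ]} (hX : ‖X‖ = 1)
    (h : qi c * X = X * qi c) : ∃ θ : ℝ, X = EE c θ := by
  have h1 := inner_self_one hc
  rw [inner_def] at h1
  have g1 := congrArg (fun z : ℍ[ℝ] => z.imI) h
  have g2 := congrArg (fun z : ℍ[ℝ] => z.imJ) h
  have g3 := congrArg (fun z : ℍ[ℝ] => z.imK) h
  simp at g1 g2 g3
  have hn : Quaternion.normSq X = 1 := by
    rw [Quaternion.normSq_eq_norm_mul_self, hX]; norm_num
  rw [Quaternion.normSq_def'] at hn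
  set s := c 0 * X.imI + c 1 * X.imJ + c 2 * X.imK with hs
  have w1 : X.imI = s * c 0 := by
    rw [hs]
    linear_combination (-X.imI) * h1 + (c 2 / 2) * g2 - (c 1 / 2) * g3
  have w2 : X.imJ = s * c 1 := by
    rw [hs]
    linear_combination (-X.imJ) * h1 + (c 0 / 2) * g3 - (c 2 / 2) * g1
  have w3 : X.imK = s * c 2 := by
    rw [hs]
    linear_combination (-X.imK) * h1 + (c 1 / 2) * g1 - (c 0 / 2) * g2
  have hone : X.re ^ 2 + s ^ 2 = 1 := by
    rw [w1, w2, w3] at hn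
    linear_combination hn - s ^ 2 * h1
  have hz : ‖(⟨X.re, s⟩ : ℂ)‖ = 1 := by
    have : ‖(⟨X.re, s⟩ : ℂ)‖ ^ 2 = 1 := by
      rw [← Complex.normSq_eq_norm_sq, Complex.normSq_apply]
      simp only
      linarith
    nlinarith [norm_nonneg (⟨X.re, s⟩ : ℂ)]
  refine ⟨(⟨X.re, s⟩ : ℂ).arg, ?_⟩
  have k1 := Complex.norm_mul_cos_arg (⟨X.re, s⟩ : ℂ)
  have k2 := Complex.norm_mul_sin_arg (⟨X.re, s⟩ : ℂ)
  rw [hz, one_mul] at k1 k2
  unfold EE
  rw [k1, k2]
  ext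
  · simp
  · simp [← w1]
  · simp [← w2]
  · simp [← w3]

theorem exists_fib {a b : E3} (ha : ‖a‖ = 1) (hb : ‖b‖ = 1) :
    ∃ Ψ : ℍ[ℝ], ‖Ψ‖ = 1 ∧ qi a * Ψ = Ψ * qi b := by
  by_cases h : b = -a
  · obtain ⟨e, he, hae⟩ := exists_perp ha
    refine ⟨qi e, by rw [qi_norm, he], ?_⟩
    subst h
    rw [inner_def] at hae
    rw [qi_neg]
    ext
    · simp; linarith
    · simp; ring
    · simp; ring
    · simp; ring
  · exact ⟨mm b a, mm_norm hb ha h, mm_int hb ha⟩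

theorem zc_polar {a b c : E3} (hc : ‖c‖ = 1) :
    (((zc a b c).re : ℍ[ℝ]) + (zc a b c).im • qi c) = ‖zc a b c‖ • EE c (Om a b c / 2) := by
  have h1 := Complex.norm_mul_cos_arg (zc a b c)
  have h2 := Complex.norm_mul_sin_arg (zc a b c)
  unfold EE Om
  have e : 2 * (zc a b c).arg / 2 = (zc a b c).arg := by ring
  rw [e, smul_add, ← h1, ← h2, smul_smul]
  congr 1
  ext <;> simp

theorem mm_mul {a b c : E3} (ha : ‖a‖ = 1) (hb : ‖b‖ = 1) (hc : ‖c‖ = 1) (hab : a ≠ -b)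
    (hbc : b ≠ -c) (hca : c ≠ -a) : mm b c * mm a b = EE c (Om a b c / 2) * mm a c := by
  have h0 := m0_mul a b c ha hb hc
  rw [zc_polar hc] at h0
  have n1 := m0_norm_pos ha hb hab
  have n2 := m0_norm_pos hb hc hbc
  have n3 : 0 < ‖m0 a c‖ := m0_norm_pos ha hc (fun h => hca (by rw [h, neg_neg]))
  have p1 : 0 < 1 + ⟪c, a⟫ := inner_gt_neg_one hc ha hca
  have p2 : 0 < ‖zc a b c‖ := norm_pos_iff.mpr (zc_ne_zero ha hb hc hab hbc hca)
  have e0 := congrArg norm h0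
  rw [norm_smul, norm_mul, norm_mul, norm_smul, EE_norm hc, Real.norm_of_nonneg p1.le,
    norm_norm, mul_one] at e0
  unfold mm
  rw [smul_mul_smul_comm]
  have h3 : m0 b c * m0 a b = ((1 + ⟪c, a⟫)⁻¹ * ‖zc a b c‖) • (EE c (Om a b c / 2) * m0 a c) := by
    rw [mul_smul, ← smul_mul_assoc, ← h0, smul_smul, inv_mul_cancel₀ p1.ne', one_smul]
  rw [h3, smul_smul, mul_smul_comm]
  congr 1
  field_simp
  linarith

end N9.Top
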