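import Pool.Agent.Helper24.N9.Top1

/-! MP_9b91d1_co: block TOP, additivity of areas in a half space. -/

namespace N9.Top

open Pool.Agent.Helper30.N9
open scoped Quaternion RealInnerProductSpace

theorem ne_neg_of_half {a b g : E3} (ha : 0 < ⟪g, a⟫) (hb : 0 < ⟪g, b⟫) : a ≠ -b := by
  rintro rfl
  rw [inner_neg_right] at ha
  linarith

theorem slit3 {a b v g : E3} (ha : ‖a‖ = 1) (hb : ‖b‖ = 1) (hv : ‖v‖ = 1)
    (ga : 0 < ⟪g, a⟫) (gb : 0 < ⟪g, b⟫) (gv : 0 < ⟪g, v⟫) :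
    zc a b v ∈ Complex.slitPlane := by
  by_cases hbv : b = v
  · subst hbv
    left
    have h1 := inner_gt_neg_one ha hb (ne_neg_of_half ga gb)
    simp only [zc]
    rw [inner_self_one hb, real_inner_comm a b]
    linarith
  · have h := slit_of_not_mem (z := -a) (u := b) (v := v) (by rwa [norm_neg]) hb hv hbv
      (ne_neg_of_half gb gv) (fun hm => by
        have := arc_pos gb gv hm
        rw [inner_neg_right] at this
        linarith)
    rwa [neg_neg] at h

theorem zc_ne0 {a b c g : E3} (ha : ‖a‖ = 1) (hb : ‖b‖ = 1) (hc : ‖c‖ = 1)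
    (ga : 0 < ⟪g, a⟫) (gb : 0 < ⟪g, b⟫) (gc : 0 < ⟪g, c⟫) : zc a b c ≠ 0 :=
  zc_ne_zero ha hb hc (ne_neg_of_half ga gb) (ne_neg_of_half gb gc) (ne_neg_of_half gc ga)

theorem Om_rot (a b c : E3) : Om b c a = Om a b c := by
  unfold Om; rw [zc_rot]

theorem Om_anti {a b c g : E3} (ha : ‖a‖ = 1) (hb : ‖b‖ = 1) (hc : ‖c‖ = 1)
    (ga : 0 < ⟪g, a⟫) (gb : 0 < ⟪g, b⟫) (gc : 0 < ⟪g, c⟫) : Om b a c = - Om a b c := by
  have h := Om_swap (slit3 hc ha hb gc ga gb)
  -- Om c b a = - Om c a b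
  have e1 : Om c b a = Om b a c := (Om_rot c b a).symm
  have e2 : Om c a b = Om a b c := (Om_rot b c a).trans (Om_rot a b c)
  rw [e1, e2] at h
  exact h

theorem Om_self_left {a c g : E3} (ha : ‖a‖ = 1) (hc : ‖c‖ = 1)
    (ga : 0 < ⟪g, a⟫) (gc : 0 < ⟪g, c⟫) : Om a a c = 0 := by
  have h := Om_anti ha ha hc ga ga gc
  linarith

/-- additivity modulo 4 pi -/
theorem Om_add_mod {a b c v g : E3} (ha : ‖a‖ = 1) (hb : ‖b‖ = 1) (hc : ‖c‖ = 1)
    (hv : ‖v‖ = 1) (ga : 0 < ⟪g, a⟫) (gb : 0 < ⟪g, b⟫) (gc : 0 < ⟪g, c⟫) (gv : 0 < ⟪g, v⟫) :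
    ∃ k : ℤ, Om a b v + Om b c v + Om c a v - Om a b c = 4 * Real.pi * k := by
  have h := za_flip ha hb hc hv (ne_neg_of_half ga gc) (ne_neg_of_half gb gv)
    (zc_ne0 ha hb hc ga gb gc) (zc_ne0 ha hc hv ga gc gv) (zc_ne0 hb hc hv gb gc gv)
    (zc_ne0 ha hb hv ga gb gv)
  unfold za at h
  rw [← Real.Angle.coe_add, ← Real.Angle.coe_add, Real.Angle.angle_eq_iff_two_pi_dvd_sub] at h
  obtain ⟨k, hk⟩ := h
  have e := Om_anti ha hc hv ga gc gv
  refine ⟨-k, ?_⟩
  rw [e]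
  unfold Om
  push_cast
  linarith

theorem Om_add {a b c v g : E3} (ha : ‖a‖ = 1) (hb : ‖b‖ = 1) (hc : ‖c‖ = 1)
    (hv : ‖v‖ = 1) (ga : 0 < ⟪g, a⟫) (gb : 0 < ⟪g, b⟫) (gc : 0 < ⟪g, c⟫) (gv : 0 < ⟪g, v⟫) :
    Om a b v + Om b c v + Om c a v = Om a b c := by
  set T : Set E3 := {y | 0 < ⟪g, y⟫} with hT
  have hconv : Convex ℝ T := by
    intro x hx y hy s t hs ht hst
    simp only [hT, Set.mem_ofPred_eq] at hx hy ⊢
    rw [inner_add_right, real_inner_smul_right, real_inner_smul_right]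
    rcases hs.eq_or_lt with h0 | h0
    · have : t = 1 := by linarith
      subst this
      rw [← h0]; simpa using hy
    · have := mul_pos h0 hx
      have := mul_nonneg ht hy.le
      linarith
  have hne : ∀ y ∈ T, y ≠ 0 := by
    rintro y hy rfl
    simp [hT] at hy
  have hpos : ∀ y ∈ T, 0 < ⟪g, nrm y⟫ := by
    intro y hy
    rw [inner_nrm]
    exact mul_pos (inv_pos.mpr (norm_pos_iff.mpr (hne y hy))) hy
  have hu : ∀ y ∈ T, ‖nrm y‖ = 1 := fun y hy => norm_nrm (hne y hy)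
  set f : E3 → ℝ := fun y => Om a b (nrm y) + Om b c (nrm y) + Om c a (nrm y) with hf
  have hcont : ContinuousOn f T := by
    intro y hy
    apply ContinuousAt.continuousWithinAt
    have hn := continuousAt_nrm (hne y hy)
    refine ((continuousAt_Om continuousAt_const continuousAt_const hn ?_).add
      (continuousAt_Om continuousAt_const continuousAt_const hn ?_)).add
      (continuousAt_Om continuousAt_const continuousAt_const hn ?_)
    · exact slit3 ha hb (hu y hy) ga gb (hpos y hy)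
    · exact slit3 hb hc (hu y hy) gb gc (hpos y hy)
    · exact slit3 hc ha (hu y hy) gc ga (hpos y hy)
  have hint : ∀ x ∈ T, ∀ y ∈ T, ∃ k : ℤ, f x - f y = (4 * Real.pi) * k := by
    intro x hx y hy
    obtain ⟨k, hk⟩ := Om_add_mod ha hb hc (hu x hx) ga gb gc (hpos x hx)
    obtain ⟨l, hl⟩ := Om_add_mod ha hb hc (hu y hy) ga gb gc (hpos y hy)
    refine ⟨k - l, ?_⟩
    simp only [hf]
    push_cast
    linarith
  have hva : v ∈ T := gv
  have haa : a ∈ T := ga
  have key := const_of_int hconv.isPreconnected hcont (by positivity) hint hva haa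
  simp only [hf] at key
  rw [nrm_unit hv, nrm_unit ha] at key
  rw [key]
  have e1 : Om a b a = 0 := by
    rw [← Om_rot a b a]
    have := Om_anti hb ha ha gb ga ga
    have h2 := Om_rot b a a
    -- Om a a b = Om b a a
    have h3 := Om_self_left ha hb ga gb
    linarith [Om_rot a a b]
  have e2 : Om c a a = 0 := by
    have h3 := Om_self_left ha hc ga gc
    rw [← Om_rot c a a]; exact h3
  rw [e1, e2, Om_rot]
  ring

end N9.Top
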