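import Pool.Agent.Helper24.N9.Top2
import Pool.Agent.Helper24.N9.Stm

/-! MP_9b91d1_co: block TOP, the gauge. -/

namespace N9.Top

open Pool.Agent.Helper30.N9
open scoped Quaternion RealInnerProductSpace

/-- the relation between gauges at two vertices -/
def Rel (a a' b b' : E3) (Ψ Ψ' : ℍ[ℝ]) (θ : ℝ) : Prop :=
  mm a a' * Ψ = EE a' θ * Ψ' * mm b b'

theorem EE_int' {c d : E3} {q : ℍ[ℝ]} (h : qi c * q = q * qi d) (θ : ℝ) :
    q * EE d θ = EE c θ * q := (EE_int h θ).symm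

theorem EE_star (c : E3) (θ : ℝ) : star (EE c θ) = EE c (-θ) := by
  unfold EE
  rw [star_add, Quaternion.star_coe, Quaternion.star_smul, star_qi, Real.cos_neg, Real.sin_neg]
  simp

theorem rel_exists {a a' b b' : E3} (ha : ‖a‖ = 1) (ha' : ‖a'‖ = 1) (hb : ‖b‖ = 1)
    (hb' : ‖b'‖ = 1) (naa : a ≠ -a') (nbb : b ≠ -b') {Ψ Ψ' : ℍ[ℝ]} (n1 : ‖Ψ‖ = 1)
    (n2 : ‖Ψ'‖ = 1) (i1 : qi a * Ψ = Ψ * qi b) (i2 : qi a' * Ψ' = Ψ' * qi b') :
    ∃ θ : ℝ, Rel a a' b b' Ψ Ψ' θ := by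
  have m1 := mm_norm ha ha' naa
  have m2 := mm_norm hb hb' nbb
  have j1 := mm_int ha ha'
  have j2 := mm_int hb hb'
  -- X = mm a a' * Ψ * star (mm b b') * star Ψ'
  set X := mm a a' * Ψ * star (mm b b') * star Ψ' with hX
  have hn : ‖X‖ = 1 := by
    rw [hX, norm_mul, norm_mul, norm_mul, norm_star, norm_star, m1, n1, m2, n2]; norm_num
  have s2 : star (mm b b') * qi b' = qi b * star (mm b b') := by
    have := congrArg star j2
    rw [star_mul, star_mul, star_qi, star_qi] at this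
    rw [mul_neg, neg_mul] at this
    have h3 := neg_injective this
    exact h3
  have s4 : star Ψ' * qi a' = qi b' * star Ψ' := by
    have := congrArg star i2
    rw [star_mul, star_mul, star_qi, star_qi] at this
    rw [mul_neg, neg_mul] at this
    exact neg_injective this
  have hcomm : qi a' * X = X * qi a' := by
    rw [hX]
    calc qi a' * (mm a a' * Ψ * star (mm b b') * star Ψ')
        = (qi a' * mm a a') * Ψ * star (mm b b') * star Ψ' := by noncomm_ring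
      _ = mm a a' * (qi a * Ψ) * star (mm b b') * star Ψ' := by rw [j1]; noncomm_ring
      _ = mm a a' * Ψ * (qi b * star (mm b b')) * star Ψ' := by rw [i1]; noncomm_ring
      _ = mm a a' * Ψ * star (mm b b') * (qi b' * star Ψ') := by rw [← s2]; noncomm_ring
      _ = mm a a' * Ψ * star (mm b b') * star Ψ' * qi a' := by rw [← s4]; noncomm_ring
  obtain ⟨θ, hθ⟩ := exists_EE ha' hn hcomm
  refine ⟨θ, ?_⟩
  unfold Rel
  rw [← hθ, hX]
  have u1 := unit_star_mul n2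
  have u2 := unit_star_mul m2
  calc mm a a' * Ψ = mm a a' * Ψ * (star (mm b b') * (star Ψ' * Ψ') * mm b b') := by
        rw [u1, mul_one, u2, mul_one]
    _ = _ := by noncomm_ring

theorem rel_symm {a a' b b' : E3} (ha : ‖a‖ = 1) (ha' : ‖a'‖ = 1) (hb : ‖b‖ = 1)
    (hb' : ‖b'‖ = 1) (naa : a ≠ -a') (nbb : b ≠ -b') {Ψ Ψ' : ℍ[ℝ]} {θ : ℝ}
    (h : Rel a a' b b' Ψ Ψ' θ) : Rel a' a b' b Ψ' Ψ (-θ) := by
  unfold Rel at *
  have r1 := mm_mul_rev ha ha' naa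
  have r2 : mm b b' * mm b' b = 1 :=
    mm_mul_rev hb' hb (fun h => nbb (by rw [h, neg_neg]))
  have r3 : mm a a' * mm a' a = 1 :=
    mm_mul_rev ha' ha (fun h => naa (by rw [h, neg_neg]))
  have e1 : EE a' (-θ) * EE a' θ = 1 := by
    rw [← EE_add ha', neg_add_cancel, EE_zero]
  have j := EE_int (mm_int ha ha') (-θ)
  -- Ψ' = EE a' (-θ) * mm a a' * Ψ * mm b' b
  have h1 : Ψ' = EE a' (-θ) * (mm a a' * Ψ) * mm b' b := by
    rw [h]
    calc Ψ' = (EE a' (-θ) * EE a' θ) * Ψ' * (mm b b' * mm b' b) := by rw [e1, r2]; simp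
      _ = _ := by noncomm_ring
  rw [h1]
  calc mm a' a * (EE a' (-θ) * (mm a a' * Ψ) * mm b' b)
      = mm a' a * (EE a' (-θ) * mm a a') * Ψ * mm b' b := by noncomm_ring
    _ = (mm a' a * mm a a') * EE a (-θ) * Ψ * mm b' b := by rw [j]; noncomm_ring
    _ = EE a (-θ) * Ψ * mm b' b := by rw [r1]; noncomm_ring

/-- local section at the vertex (a,b,Ψ) over the direction pair (v,w) -/
noncomputable def sec (a b : E3) (Ψ : ℍ[ℝ]) (v w : E3) : ℍ[ℝ] := mm a v * Ψ * mm w b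

theorem sec_int {a b v w : E3} (ha : ‖a‖ = 1) (hb : ‖b‖ = 1) (hv : ‖v‖ = 1) (hw : ‖w‖ = 1)
    {Ψ : ℍ[ℝ]} (i1 : qi a * Ψ = Ψ * qi b) : qi v * sec a b Ψ v w = sec a b Ψ v w * qi w := by
  unfold sec
  have j1 := mm_int ha hv
  have j2 := mm_int hw hb
  calc qi v * (mm a v * Ψ * mm w b) = (qi v * mm a v) * Ψ * mm w b := by noncomm_ring
    _ = mm a v * (qi a * Ψ) * mm w b := by rw [j1]; noncomm_ring
    _ = mm a v * Ψ * (qi b * mm w b) := by rw [i1]; noncomm_ring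
    _ = mm a v * Ψ * mm w b * qi w := by rw [j2]; noncomm_ring

theorem sec_norm {a b v w : E3} (ha : ‖a‖ = 1) (hb : ‖b‖ = 1) (hv : ‖v‖ = 1) (hw : ‖w‖ = 1)
    (nav : a ≠ -v) (nwb : w ≠ -b) {Ψ : ℍ[ℝ]} (n1 : ‖Ψ‖ = 1) : ‖sec a b Ψ v w‖ = 1 := by
  unfold sec
  rw [norm_mul, norm_mul, mm_norm ha hv nav, mm_norm hw hb nwb, n1]; norm_num

/-- change of the local section -/
theorem sec_change {a a' b b' v w g g' : E3} (ha : ‖a‖ = 1) (ha' : ‖a'‖ = 1) (hb : ‖b‖ = 1)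
    (hb' : ‖b'‖ = 1) (hv : ‖v‖ = 1) (hw : ‖w‖ = 1)
    (ga : 0 < ⟪g, a⟫) (ga' : 0 < ⟪g, a'⟫) (gv : 0 < ⟪g, v⟫)
    (gb : 0 < ⟪g', b⟫) (gb' : 0 < ⟪g', b'⟫) (gw : 0 < ⟪g', w⟫)
    {Ψ Ψ' : ℍ[ℝ]} (i1 : qi a * Ψ = Ψ * qi b) {θ : ℝ} (h : Rel a a' b b' Ψ Ψ' θ) :
    sec a' b' Ψ' v w = EE v (-θ + Om a a' v / 2 - Om b b' w / 2) * sec a b Ψ v w := by
  unfold Rel at h
  have r2 : mm b b' * mm b' b = 1 := mm_mul_rev hb' hb (ne_neg_of_half gb' gb)
  have e1 : EE a' (-θ) * EE a' θ = 1 := by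
    rw [← EE_add ha', neg_add_cancel, EE_zero]
  have h1 : Ψ' = EE a' (-θ) * (mm a a' * Ψ) * mm b' b := by
    rw [h]
    calc Ψ' = (EE a' (-θ) * EE a' θ) * Ψ' * (mm b b' * mm b' b) := by rw [e1, r2]; simp
      _ = _ := by noncomm_ring
  have k1 := mm_mul ha ha' hv (ne_neg_of_half ga ga') (ne_neg_of_half ga' gv)
    (ne_neg_of_half gv ga)
  have k2 := mm_mul hb hb' hw (ne_neg_of_half gb gb') (ne_neg_of_half gb' gw)
    (ne_neg_of_half gw gb)
  have k3 : mm b' b * mm w b' = mm w b * EE w (-(Om b b' w / 2)) := by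
    have := congrArg star k2
    rw [star_mul, star_mul, mm_star, mm_star, mm_star, EE_star] at this
    exact this
  have j1 := EE_int (mm_int ha' hv) (-θ)
  have j2 := EE_int (sec_int ha hb hv hw i1) (-(Om b b' w / 2))
  have e : (-θ + Om a a' v / 2 - Om b b' w / 2) = -θ + Om a a' v / 2 + -(Om b b' w / 2) := by ring
  rw [e, EE_add hv, EE_add hv]
  calc sec a' b' Ψ' v w = mm a' v * (EE a' (-θ) * (mm a a' * Ψ) * mm b' b) * mm w b' := by
        unfold sec; rw [← h1]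
    _ = (mm a' v * EE a' (-θ)) * mm a a' * Ψ * (mm b' b * mm w b') := by noncomm_ring
    _ = EE v (-θ) * (mm a' v * mm a a') * Ψ * (mm w b * EE w (-(Om b b' w / 2))) := by
        rw [← j1, k3]; noncomm_ring
    _ = EE v (-θ) * EE v (Om a a' v / 2) * (sec a b Ψ v w * EE w (-(Om b b' w / 2))) := by
        rw [k1]; unfold sec; noncomm_ring
    _ = EE v (-θ) * EE v (Om a a' v / 2) * EE v (-(Om b b' w / 2)) * sec a b Ψ v w := by
        rw [← j2]; noncomm_ring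

end N9.Top
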