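import Pool.Agent.Helper24.N9.Top3

/-! MP_9b91d1_co: block TOP, existence of gauge data. -/

namespace N9.Top

open Pool.Agent.Helper30.N9
open scoped Quaternion RealInnerProductSpace

variable {N : Type} [Fintype N] [DecidableEq N]

def Half (a : N → E3) (t : N × N × N) (g : E3) : Prop :=
  0 < ⟪g, a t.1⟫ ∧ 0 < ⟪g, a t.2.1⟫ ∧ 0 < ⟪g, a t.2.2⟫

structure Gau (T : Finset (N × N × N)) (a b : N → E3) (Ψ : N → ℍ[ℝ]) (θ : N → N → ℝ) :
    Prop where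
  ua : ∀ n, ‖a n‖ = 1
  ub : ∀ n, ‖b n‖ = 1
  pa : ∀ t ∈ T, ∃ g, Half a t g
  pb : ∀ t ∈ T, ∃ g, Half b t g
  un : ∀ n, ‖Ψ n‖ = 1
  int : ∀ n, qi (a n) * Ψ n = Ψ n * qi (b n)
  anti : ∀ n m, θ m n = - θ n m
  rel : ∀ n m, a n ≠ - a m → b n ≠ - b m →
    Rel (a n) (a m) (b n) (b m) (Ψ n) (Ψ m) (θ n m)
  coc : ∀ t ∈ T, θ t.1 t.2.1 + θ t.2.1 t.2.2 + θ t.2.2 t.1
    = (Om (a t.1) (a t.2.1) (a t.2.2) - Om (b t.1) (b t.2.1) (b t.2.2)) / 2

theorem neg_ne {a b : E3} (h : a ≠ -b) : b ≠ -a := fun h' => h (by rw [h', neg_neg])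

theorem exists_theta0 {a b : N → E3} (ua : ∀ n, ‖a n‖ = 1) (ub : ∀ n, ‖b n‖ = 1)
    {Ψ : N → ℍ[ℝ]} (un : ∀ n, ‖Ψ n‖ = 1) (int : ∀ n, qi (a n) * Ψ n = Ψ n * qi (b n)) :
    ∃ θ : N → N → ℝ, (∀ n m, θ m n = - θ n m) ∧ ∀ n m, a n ≠ - a m → b n ≠ - b m →
      Rel (a n) (a m) (b n) (b m) (Ψ n) (Ψ m) (θ n m) := by
  have h : ∀ n m, ∃ θ : ℝ, a n ≠ - a m → b n ≠ - b m →
      Rel (a n) (a m) (b n) (b m) (Ψ n) (Ψ m) θ := by
    intro n m
    by_cases h1 : a n ≠ - a m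
    · by_cases h2 : b n ≠ - b m
      · obtain ⟨θ, hθ⟩ := rel_exists (ua n) (ua m) (ub n) (ub m) h1 h2 (un n) (un m) (int n) (int m)
        exact ⟨θ, fun _ _ => hθ⟩
      · exact ⟨0, fun _ h => absurd h h2⟩
    · exact ⟨0, fun h => absurd h h1⟩
  choose c hc using h
  let e := Fintype.equivFin N
  refine ⟨fun n m => if e n < e m then c n m else if e m < e n then - c m n else 0, ?_, ?_⟩
  · intro n m
    simp only
    rcases lt_trichotomy (e n) (e m) with h | h | h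
    · rw [if_neg (not_lt_of_gt h), if_pos h, if_pos h]
    · rw [if_neg (by rw [h]; exact lt_irrefl _), if_neg (by rw [h]; exact lt_irrefl _),
        if_neg (by rw [h]; exact lt_irrefl _), if_neg (by rw [h]; exact lt_irrefl _), neg_zero]
    · rw [if_pos h, if_neg (not_lt_of_gt h), if_pos h, neg_neg]
  · intro n m h1 h2
    simp only
    rcases lt_trichotomy (e n) (e m) with h | h | h
    · rw [if_pos h]; exact hc n m h1 h2
    · have : n = m := e.injective h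
      subst this
      rw [if_neg (lt_irrefl _), if_neg (lt_irrefl _)]
      unfold Rel
      rw [mm_self (ua n), mm_self (ub n), EE_zero]; simp
    · rw [if_neg (not_lt_of_gt h), if_pos h]
      exact rel_symm (ua m) (ua n) (ub m) (ub n) (neg_ne h1) (neg_ne h2)
        (hc m n (neg_ne h1) (neg_ne h2))

theorem hol {a b : N → E3} (ua : ∀ n, ‖a n‖ = 1) (ub : ∀ n, ‖b n‖ = 1)
    {Ψ : N → ℍ[ℝ]} (un : ∀ n, ‖Ψ n‖ = 1) (int : ∀ n, qi (a n) * Ψ n = Ψ n * qi (b n))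
    {θ : N → N → ℝ} (rel : ∀ n m, a n ≠ - a m → b n ≠ - b m →
      Rel (a n) (a m) (b n) (b m) (Ψ n) (Ψ m) (θ n m)) {t : N × N × N} {g g' : E3}
    (hg : Half a t g) (hg' : Half b t g') :
    ∃ k : ℤ, -(θ t.1 t.2.1 + θ t.2.1 t.2.2 + θ t.2.2 t.1)
      + (Om (a t.1) (a t.2.1) (a t.2.2) - Om (b t.1) (b t.2.1) (b t.2.2)) / 2
      = 2 * Real.pi * k := by
  obtain ⟨n, m, l⟩ := t
  obtain ⟨g1, g2, g3⟩ := hg
  obtain ⟨k1, k2, k3⟩ := hg'
  simp only at g1 g2 g3 k1 k2 k3 ⊢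
  have c1 := sec_change (ua n) (ua m) (ub n) (ub m) (ua n) (ub n) g1 g2 g1 k1 k2 k1 (int n)
    (rel n m (ne_neg_of_half g1 g2) (ne_neg_of_half k1 k2))
  have c2 := sec_change (ua m) (ua l) (ub m) (ub l) (ua n) (ub n) g2 g3 g1 k2 k3 k1 (int m)
    (rel m l (ne_neg_of_half g2 g3) (ne_neg_of_half k2 k3))
  have c3 := sec_change (ua l) (ua n) (ub l) (ub n) (ua n) (ub n) g3 g1 g1 k3 k1 k1 (int l)
    (rel l n (ne_neg_of_half g3 g1) (ne_neg_of_half k3 k1))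
  rw [c2, c1, ← mul_assoc, ← mul_assoc, ← EE_add (ua n), ← EE_add (ua n)] at c3
  have hs : sec (a n) (b n) (Ψ n) (a n) (b n) ≠ 0 := by
    rw [← norm_ne_zero_iff, sec_norm (ua n) (ub n) (ua n) (ub n) (ne_neg_of_half g1 g1)
      (ne_neg_of_half k1 k1) (un n)]
    norm_num
  have c4 : EE (a n) (-θ l n + Om (a l) (a n) (a n) / 2 - Om (b l) (b n) (b n) / 2
      + (-θ m l + Om (a m) (a l) (a n) / 2 - Om (b m) (b l) (b n) / 2)
      + (-θ n m + Om (a n) (a m) (a n) / 2 - Om (b n) (b m) (b n) / 2)) = 1 := by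
    apply mul_right_cancel₀ hs
    rw [one_mul]
    exact c3.symm
  obtain ⟨k, hk⟩ := EE_eq_one (ua n) c4
  have o1 := Om_add (ua n) (ua m) (ua l) (ua n) g1 g2 g3 g1
  have o2 := Om_add (ub n) (ub m) (ub l) (ub n) k1 k2 k3 k1
  refine ⟨k, ?_⟩
  rw [← hk]
  linarith

theorem exists_gau {T : Finset (N × N × N)} {a b : N → E3} (hT : Cplx T)
    (ua : ∀ n, ‖a n‖ = 1) (ub : ∀ n, ‖b n‖ = 1)
    (pa : ∀ t ∈ T, ∃ g, Half a t g) (pb : ∀ t ∈ T, ∃ g, Half b t g)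
    (hA : ∑ t ∈ T, Om (a t.1) (a t.2.1) (a t.2.2) = ∑ t ∈ T, Om (b t.1) (b t.2.1) (b t.2.2)) :
    ∃ Ψ θ, Gau T a b Ψ θ := by
  choose Ψ un int using fun n => exists_fib (ua n) (ub n)
  obtain ⟨θ0, anti, rel⟩ := exists_theta0 ua ub un int
  have hk : ∀ t, ∃ k : ℤ, t ∈ T → -(θ0 t.1 t.2.1 + θ0 t.2.1 t.2.2 + θ0 t.2.2 t.1)
      + (Om (a t.1) (a t.2.1) (a t.2.2) - Om (b t.1) (b t.2.1) (b t.2.2)) / 2
      = 2 * Real.pi * k := by
    intro t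
    by_cases ht : t ∈ T
    · obtain ⟨g, hg⟩ := pa t ht
      obtain ⟨g', hg'⟩ := pb t ht
      obtain ⟨k, hk⟩ := hol ua ub un int rel hg hg'
      exact ⟨k, fun _ => hk⟩
    · exact ⟨0, fun h => absurd h ht⟩
  choose κ hκ using hk
  have hsum : ∑ t ∈ T, κ t = 0 := by
    have h1 : ∑ t ∈ T, (-(θ0 t.1 t.2.1 + θ0 t.2.1 t.2.2 + θ0 t.2.2 t.1)
      + (Om (a t.1) (a t.2.1) (a t.2.2) - Om (b t.1) (b t.2.1) (b t.2.2)) / 2)
      = ∑ t ∈ T, 2 * Real.pi * κ t := Finset.sum_congr rfl hκ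
    rw [Finset.sum_add_distrib, Finset.sum_neg_distrib, hT.cl θ0 anti, ← Finset.sum_div,
      Finset.sum_sub_distrib, hA, sub_self, zero_div, neg_zero, add_zero, ← Finset.mul_sum] at h1
    have h2 : (∑ t ∈ T, (κ t : ℝ)) = 0 := by
      rcases mul_eq_zero.mp h1.symm with h | h
      · exfalso; have := Real.pi_pos; linarith
      · exact h
    exact_mod_cast h2
  obtain ⟨μ, hμ1, hμ2⟩ := hT.flow κ hsum
  refine ⟨Ψ, fun n m => θ0 n m + 2 * Real.pi * μ n m, ua, ub, pa, pb, un, int, ?_, ?_, ?_⟩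
  · intro n m
    rw [anti n m, hμ1 n m]; push_cast; ring
  · intro n m h1 h2
    have := rel n m h1 h2
    unfold Rel at this ⊢
    rw [EE_add (ua m), EE_two_pi, mul_one]
    exact this
  · intro t ht
    have h1 := hκ t ht
    have h2 := hμ2 t ht
    have h3 : (κ t : ℝ) = μ t.1 t.2.1 + μ t.2.1 t.2.2 + μ t.2.2 t.1 := by
      rw [← h2]; push_cast; ring
    rw [h3] at h1
    linarith

end N9.Top
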