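import Pool.Agent.Helper24.N9.Top4

/-! MP_9b91d1_co: block TOP, the global gauge. -/

namespace N9.Top

open Pool.Agent.Helper30.N9
open scoped Quaternion RealInnerProductSpace Topology

variable {N : Type} [Fintype N] [DecidableEq N]

/-- the fan map -/
noncomputable def fv (b : N → E3) (β : N → E3 → ℝ) (v : E3) : E3 := ∑ n, β n v • b n

noncomputable def ph (a b : N → E3) (β : N → E3 → ℝ) (θ : N → N → ℝ) (n m : N) (v : E3) : ℝ :=
  -θ n m + Om (a n) (a m) (nrm v) / 2 - Om (b n) (b m) (nrm (fv b β v)) / 2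

noncomputable def rho (β : N → E3 → ℝ) (m : N) (v : E3) : ℝ := β m v / ∑ l, β l v

noncomputable def S (a b : N → E3) (β : N → E3 → ℝ) (θ : N → N → ℝ) (n : N) (v : E3) : ℝ :=
  ∑ m, rho β m v * ph a b β θ n m v

noncomputable def sc (a b : N → E3) (β : N → E3 → ℝ) (Ψ : N → ℍ[ℝ]) (n : N) (v : E3) : ℍ[ℝ] :=
  sec (a n) (b n) (Ψ n) (nrm v) (nrm (fv b β v))

noncomputable def P (a b : N → E3) (β : N → E3 → ℝ) (Ψ : N → ℍ[ℝ]) (θ : N → N → ℝ)
    (n : N) (v : E3) : ℍ[ℝ] :=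
  EE (nrm v) (S a b β θ n v) * sc a b β Ψ n v

/-- membership in a triangle -/
def In (t : N × N × N) (n : N) : Prop := n = t.1 ∨ n = t.2.1 ∨ n = t.2.2

/-- everything about a point v ≠ 0 with its triangle t -/
structure Pt (a b : N → E3) (β : N → E3 → ℝ) (v : E3) (t : N × N × N) (g g' : E3) : Prop where
  ga : ∀ n, In t n → 0 < ⟪g, a n⟫
  gb : ∀ n, In t n → 0 < ⟪g', b n⟫
  gv : 0 < ⟪g, nrm v⟫
  gw : 0 < ⟪g', nrm (fv b β v)⟫
  wv : ‖nrm v‖ = 1
  ww : ‖nrm (fv b β v)‖ = 1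
  sup : ∀ n, β n v ≠ 0 → In t n
  sum : 0 < ∑ l, β l v

theorem Half.all {a : N → E3} {t : N × N × N} {g : E3} (h : Half a t g) :
    ∀ n, In t n → 0 < ⟪g, a n⟫ := by
  intro n hn
  rcases hn with rfl | rfl | rfl
  · exact h.1
  · exact h.2.1
  · exact h.2.2

theorem inner_sum_pos {b : N → E3} {c : N → ℝ} {g : E3} (h0 : ∀ n, 0 ≤ c n)
    (h : ∀ n, c n ≠ 0 → 0 < ⟪g, b n⟫) (h1 : ∃ n, c n ≠ 0) : 0 < ⟪g, ∑ n, c n • b n⟫ := by
  rw [inner_sum]
  simp only [real_inner_smul_right]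
  obtain ⟨n, hn⟩ := h1
  have k1 : ∀ m ∈ Finset.univ, 0 ≤ c m * ⟪g, b m⟫ := by
    intro m _
    by_cases hm : c m = 0
    · rw [hm, zero_mul]
    · exact (mul_pos (lt_of_le_of_ne (h0 m) (Ne.symm hm)) (h m hm)).le
  exact Finset.sum_pos' k1
    ⟨n, Finset.mem_univ _, mul_pos (lt_of_le_of_ne (h0 n) (Ne.symm hn)) (h n hn)⟩

variable {T : Finset (N × N × N)} {a b : N → E3} {β : N → E3 → ℝ} {Ψ : N → ℍ[ℝ]}
  {θ : N → N → ℝ}

theorem exists_beta (hF : Fan a T β) {v : E3} (hv : v ≠ 0) : ∃ n, β n v ≠ 0 := by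
  by_contra hcon
  push Not at hcon
  apply hv
  rw [← hF.sum v]
  apply Finset.sum_eq_zero
  intro n _
  rw [hcon n, zero_smul]

theorem exists_pt (hF : Fan a T β) (hG : Gau T a b Ψ θ) {v : E3} (hv : v ≠ 0) :
    ∃ t ∈ T, ∃ g g', Pt a b β v t g g' := by
  obtain ⟨t, ht, hs⟩ := hF.supp v
  obtain ⟨g, hg⟩ := hG.pa t ht
  obtain ⟨g', hg'⟩ := hG.pb t ht
  obtain ⟨n, hn⟩ := exists_beta hF hv
  have h1 : 0 < ⟪g, v⟫ := by
    rw [← hF.sum v]
    exact inner_sum_pos (fun n => hF.nonneg n v) (fun n hn => hg.all n (hs n hn)) ⟨n, hn⟩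
  have h2 : 0 < ⟪g', fv b β v⟫ :=
    inner_sum_pos (fun n => hF.nonneg n v) (fun n hn => hg'.all n (hs n hn)) ⟨n, hn⟩
  have hw : fv b β v ≠ 0 := by
    intro h
    rw [h, inner_zero_right] at h2
    exact lt_irrefl _ h2
  refine ⟨t, ht, g, g', hg.all, hg'.all, ?_, ?_, norm_nrm hv, norm_nrm hw, hs, ?_⟩
  · rw [inner_nrm]; exact mul_pos (inv_pos.mpr (norm_pos_iff.mpr hv)) h1
  · rw [inner_nrm]; exact mul_pos (inv_pos.mpr (norm_pos_iff.mpr hw)) h2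
  · exact Finset.sum_pos' (fun m _ => hF.nonneg m v)
      ⟨n, Finset.mem_univ _, lt_of_le_of_ne (hF.nonneg n v) (Ne.symm hn)⟩

theorem fv_ne_zero (hF : Fan a T β) (hG : Gau T a b Ψ θ) {v : E3} (hv : v ≠ 0) :
    fv b β v ≠ 0 := by
  obtain ⟨t, ht, g, g', h⟩ := exists_pt hF hG hv
  intro h0
  have := h.ww
  rw [h0] at this
  simp [nrm] at this

theorem ph_change (hG : Gau T a b Ψ θ) {v : E3} {t : N × N × N} {g g' : E3}
    (h : Pt a b β v t g g') {n m : N} (hn : In t n) (hm : In t m) :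
    sc a b β Ψ m v = EE (nrm v) (ph a b β θ n m v) * sc a b β Ψ n v :=
  sec_change (hG.ua n) (hG.ua m) (hG.ub n) (hG.ub m) h.wv h.ww (h.ga n hn) (h.ga m hm) h.gv
    (h.gb n hn) (h.gb m hm) h.gw (hG.int n)
    (hG.rel n m (ne_neg_of_half (h.ga n hn) (h.ga m hm)) (ne_neg_of_half (h.gb n hn) (h.gb m hm)))

theorem ph_anti (hG : Gau T a b Ψ θ) {v : E3} {t : N × N × N} {g g' : E3}
    (h : Pt a b β v t g g') {n m : N} (hn : In t n) (hm : In t m) :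
    ph a b β θ m n v = - ph a b β θ n m v := by
  unfold ph
  rw [hG.anti n m, Om_anti (hG.ua n) (hG.ua m) h.wv (h.ga n hn) (h.ga m hm) h.gv,
    Om_anti (hG.ub n) (hG.ub m) h.ww (h.gb n hn) (h.gb m hm) h.gw]
  ring

theorem ph_cycle (hG : Gau T a b Ψ θ) {v : E3} {t : N × N × N} (ht : t ∈ T) {g g' : E3}
    (h : Pt a b β v t g g') :
    ph a b β θ t.1 t.2.1 v + ph a b β θ t.2.1 t.2.2 v + ph a b β θ t.2.2 t.1 v = 0 := by
  have h1 : In t t.1 := Or.inl rfl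
  have h2 : In t t.2.1 := Or.inr (Or.inl rfl)
  have h3 : In t t.2.2 := Or.inr (Or.inr rfl)
  unfold ph
  have o1 := Om_add (hG.ua t.1) (hG.ua t.2.1) (hG.ua t.2.2) h.wv (h.ga _ h1) (h.ga _ h2)
    (h.ga _ h3) h.gv
  have o2 := Om_add (hG.ub t.1) (hG.ub t.2.1) (hG.ub t.2.2) h.ww (h.gb _ h1) (h.gb _ h2)
    (h.gb _ h3) h.gw
  have c := hG.coc t ht
  linarith

theorem ph_add (hG : Gau T a b Ψ θ) {v : E3} {t : N × N × N} (ht : t ∈ T) {g g' : E3}
    (h : Pt a b β v t g g') {n m l : N} (hn : In t n) (hm : In t m) (hl : In t l) :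
    ph a b β θ n m v + ph a b β θ m l v = ph a b β θ n l v := by
  have h1 : In t t.1 := Or.inl rfl
  have h2 : In t t.2.1 := Or.inr (Or.inl rfl)
  have h3 : In t t.2.2 := Or.inr (Or.inr rfl)
  have c := ph_cycle hG ht h
  have a12 := ph_anti hG h h1 h2
  have a23 := ph_anti hG h h2 h3
  have a31 := ph_anti hG h h3 h1
  have s1 := ph_anti hG h h1 h1
  have s2 := ph_anti hG h h2 h2
  have s3 := ph_anti hG h h3 h3
  rcases hn with rfl | rfl | rfl <;> rcases hm with rfl | rfl | rfl <;>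
    rcases hl with rfl | rfl | rfl <;> linarith

theorem S_change (hG : Gau T a b Ψ θ) {v : E3} {t : N × N × N} (ht : t ∈ T) {g g' : E3}
    (h : Pt a b β v t g g') {n n' : N} (hn : In t n) (hn' : In t n') :
    S a b β θ n v + ph a b β θ n' n v = S a b β θ n' v := by
  unfold S
  have hone : ∑ m, rho β m v = 1 := by
    unfold rho
    rw [← Finset.sum_div, div_self h.sum.ne']
  have e : ph a b β θ n' n v = ∑ m, rho β m v * ph a b β θ n' n v := by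
    rw [← Finset.sum_mul, hone, one_mul]
  rw [e, ← Finset.sum_add_distrib]
  apply Finset.sum_congr rfl
  intro m _
  by_cases hm : β m v = 0
  · unfold rho; rw [hm]; simp
  · rw [← ph_add hG ht h hn' hn (h.sup m hm)]; ring

theorem P_indep (hG : Gau T a b Ψ θ) {v : E3} {t : N × N × N} (ht : t ∈ T) {g g' : E3}
    (h : Pt a b β v t g g') {n n' : N} (hn : In t n) (hn' : In t n') :
    P a b β Ψ θ n v = P a b β Ψ θ n' v := by
  unfold P
  rw [ph_change hG h hn' hn, ← mul_assoc, ← EE_add h.wv, S_change hG ht h hn hn']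

theorem P_int (hG : Gau T a b Ψ θ) {v : E3} {t : N × N × N} {g g' : E3}
    (h : Pt a b β v t g g') (n : N) :
    qi (nrm v) * P a b β Ψ θ n v = P a b β Ψ θ n v * qi (nrm (fv b β v)) := by
  unfold P sc
  have j := sec_int (hG.ua n) (hG.ub n) h.wv h.ww (hG.int n)
  have k : qi (nrm v) * EE (nrm v) (S a b β θ n v) = EE (nrm v) (S a b β θ n v) * qi (nrm v) :=
    (EE_int rfl _).symm
  rw [← mul_assoc, k, mul_assoc, j, mul_assoc]

theorem P_norm (hG : Gau T a b Ψ θ) {v : E3} {t : N × N × N} {g g' : E3}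
    (h : Pt a b β v t g g') {n : N} (hn : In t n) : ‖P a b β Ψ θ n v‖ = 1 := by
  unfold P sc
  rw [norm_mul, EE_norm h.wv, sec_norm (hG.ua n) (hG.ub n) h.wv h.ww
    (ne_neg_of_half (h.ga n hn) h.gv) (ne_neg_of_half h.gw (h.gb n hn)) (hG.un n), mul_one]

open Classical in
/-- the global gauge -/
noncomputable def Psi (a b : N → E3) (β : N → E3 → ℝ) (Ψ : N → ℍ[ℝ]) (θ : N → N → ℝ)
    (v : E3) : ℍ[ℝ] :=
  if h : ∃ n, β n v ≠ 0 then P a b β Ψ θ h.choose v else 1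

theorem Psi_eq (hF : Fan a T β) (hG : Gau T a b Ψ θ) {v : E3} (hv : v ≠ 0) {n : N}
    (hn : β n v ≠ 0) : Psi a b β Ψ θ v = P a b β Ψ θ n v := by
  unfold Psi
  rw [dif_pos ⟨n, hn⟩]
  obtain ⟨t, ht, g, g', h⟩ := exists_pt hF hG hv
  have h1 : ∃ n, β n v ≠ 0 := ⟨n, hn⟩
  exact P_indep hG ht h (h.sup _ h1.choose_spec) (h.sup _ hn)

theorem Psi_norm (hF : Fan a T β) (hG : Gau T a b Ψ θ) {v : E3} (hv : v ≠ 0) :
    ‖Psi a b β Ψ θ v‖ = 1 := by
  obtain ⟨n, hn⟩ := exists_beta hF hv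
  obtain ⟨t, ht, g, g', h⟩ := exists_pt hF hG hv
  rw [Psi_eq hF hG hv hn]
  exact P_norm hG h (h.sup _ hn)

theorem Psi_int (hF : Fan a T β) (hG : Gau T a b Ψ θ) {v : E3} (hv : v ≠ 0) :
    qi (nrm v) * Psi a b β Ψ θ v = Psi a b β Ψ θ v * qi (nrm (fv b β v)) := by
  obtain ⟨n, hn⟩ := exists_beta hF hv
  obtain ⟨t, ht, g, g', h⟩ := exists_pt hF hG hv
  rw [Psi_eq hF hG hv hn]
  exact P_int hG h n

end N9.Top
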