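import Pool.Agent.Helper24.N9.Top5

/-! MP_9b91d1_co: block TOP, continuity of the gauge. -/

namespace N9.Top

open Pool.Agent.Helper30.N9
open scoped Quaternion RealInnerProductSpace Topology

variable {N : Type} [Fintype N] [DecidableEq N]
variable {T : Finset (N × N × N)} {a b : N → E3} {β : N → E3 → ℝ} {Ψ : N → ℍ[ℝ]}
  {θ : N → N → ℝ}

theorem continuous_qi : Continuous qi := by
  have h : qi = fun v => (v 0) • qi (EuclideanSpace.single 0 1) + (v 1) • qi (EuclideanSpace.single 1 1)
      + (v 2) • qi (EuclideanSpace.single 2 1) := by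
    funext v
    ext <;> simp
  rw [h]
  fun_prop

theorem continuousAt_mm {X : Type*} [TopologicalSpace X] {f g : X → E3} {x : X}
    (hf : ContinuousAt f x) (hg : ContinuousAt g x) (h : m0 (f x) (g x) ≠ 0) :
    ContinuousAt (fun y => mm (f y) (g y)) x := by
  unfold mm
  have h1 : ContinuousAt (fun y => m0 (f y) (g y)) x := by
    unfold m0
    exact continuousAt_const.sub
      ((continuous_qi.continuousAt.comp hg).mul (continuous_qi.continuousAt.comp hf))
  exact (h1.norm.inv₀ (norm_ne_zero_iff.mpr h)).smul h1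

theorem continuousAt_EE {X : Type*} [TopologicalSpace X] {f : X → E3} {r : X → ℝ} {x : X}
    (hf : ContinuousAt f x) (hr : ContinuousAt r x) :
    ContinuousAt (fun y => EE (f y) (r y)) x := by
  unfold EE
  exact (Quaternion.continuous_coe.continuousAt.comp (Real.continuous_cos.continuousAt.comp hr)).add
    ((Real.continuous_sin.continuousAt.comp hr).smul (continuous_qi.continuousAt.comp hf))

theorem continuous_fv (hF : Fan a T β) : Continuous (fv b β) := by
  unfold fv
  exact continuous_finsetSum _ (fun n _ => (hF.cont n).smul continuous_const)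

theorem abs_Om_le (x y z : E3) : |Om x y z| ≤ 2 * Real.pi := by
  unfold Om
  rw [abs_mul, abs_two]
  have := Complex.abs_arg_le_pi (zc x y z)
  linarith

theorem abs_ph_le (n m : N) (v : E3) :
    |ph a b β θ n m v| ≤ |θ n m| + 2 * Real.pi := by
  unfold ph
  have h1 := abs_Om_le (a n) (a m) (nrm v)
  have h2 := abs_Om_le (b n) (b m) (nrm (fv b β v))
  have h3 := abs_sub (-θ n m + Om (a n) (a m) (nrm v) / 2) (Om (b n) (b m) (nrm (fv b β v)) / 2)
  have h4 := abs_add_le (-θ n m) (Om (a n) (a m) (nrm v) / 2)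
  rw [abs_neg] at h4
  rw [abs_div, abs_two] at h3 h4
  linarith

theorem continuousAt_rho (hF : Fan a T β) (m : N) {v : E3} (h : 0 < ∑ l, β l v) :
    ContinuousAt (rho β m) v := by
  unfold rho
  exact (hF.cont m).continuousAt.div
    (continuous_finsetSum _ (fun n _ => hF.cont n)).continuousAt h.ne'

theorem continuousAt_P (hF : Fan a T β) (hG : Gau T a b Ψ θ) {v : E3} (hv : v ≠ 0) {n : N}
    (hn : β n v ≠ 0) : ContinuousAt (P a b β Ψ θ n) v := by
  obtain ⟨t, ht, g, g', h⟩ := exists_pt hF hG hv
  have hIn := h.sup n hn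
  have hfv := fv_ne_zero hF hG hv
  have c1 : ContinuousAt nrm v := continuousAt_nrm hv
  have c2 : ContinuousAt (fun y => nrm (fv b β y)) v :=
    ContinuousAt.comp (f := fv b β) (continuousAt_nrm hfv) (continuous_fv hF).continuousAt
  have cS : ContinuousAt (S a b β θ n) v := by
    unfold S
    apply tendsto_finsetSum
    intro m _
    by_cases hm : β m v = 0
    · have h0 : rho β m v * ph a b β θ n m v = 0 := by unfold rho; rw [hm]; simp
      rw [h0]
      have hr := continuousAt_rho hF m h.sum
      have hr0 : rho β m v = 0 := by unfold rho; rw [hm]; simp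
      unfold ContinuousAt at hr
      rw [hr0] at hr
      refine squeeze_zero_norm (a := fun y => |rho β m y| * (|θ n m| + 2 * Real.pi)) ?_ ?_
      · intro y
        rw [Real.norm_eq_abs, abs_mul]
        exact mul_le_mul_of_nonneg_left (abs_ph_le n m y) (abs_nonneg _)
      · have := (hr.abs).mul_const (|θ n m| + 2 * Real.pi)
        simpa using this
    · have hm' := h.sup m hm
      refine ContinuousAt.mul (continuousAt_rho hF m h.sum) ?_
      unfold ph
      refine (continuousAt_const.add ((continuousAt_Om continuousAt_const continuousAt_const c1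
        ?_).div_const 2)).sub ((continuousAt_Om continuousAt_const continuousAt_const c2
        ?_).div_const 2)
      · exact slit3 (hG.ua n) (hG.ua m) h.wv (h.ga n hIn) (h.ga m hm') h.gv
      · exact slit3 (hG.ub n) (hG.ub m) h.ww (h.gb n hIn) (h.gb m hm') h.gw
  have n1 : m0 (a n) (nrm v) ≠ 0 := norm_pos_iff.mp
    (m0_norm_pos (hG.ua n) h.wv (ne_neg_of_half (h.ga n hIn) h.gv))
  have n2 : m0 (nrm (fv b β v)) (b n) ≠ 0 := norm_pos_iff.mp
    (m0_norm_pos h.ww (hG.ub n) (ne_neg_of_half h.gw (h.gb n hIn)))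
  unfold P sc sec
  exact (continuousAt_EE c1 cS).mul (((continuousAt_mm continuousAt_const c1 n1).mul
    continuousAt_const).mul (continuousAt_mm c2 continuousAt_const n2))

theorem continuousAt_Psi (hF : Fan a T β) (hG : Gau T a b Ψ θ) {v : E3} (hv : v ≠ 0) :
    ContinuousAt (Psi a b β Ψ θ) v := by
  obtain ⟨n, hn⟩ := exists_beta hF hv
  have h1 : ∀ᶠ y in 𝓝 v, y ≠ 0 := isOpen_ne.mem_nhds hv
  have h2 : ∀ᶠ y in 𝓝 v, β n y ≠ 0 := (hF.cont n).continuousAt.eventually_ne hn
  have h3 : Psi a b β Ψ θ =ᶠ[𝓝 v] P a b β Ψ θ n := by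
    filter_upwards [h1, h2] with y hy hny
    exact Psi_eq hF hG hy hny
  exact (continuousAt_P hF hG hv hn).congr h3.symm

end N9.Top
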